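import Mathlib

/-!
# Project RP: the local condition at 2
-/

set_option autoImplicit false

namespace Pool.Agent.Y667.RP

/-- `1 + 4 p w` is a square -/
lemma hens (p : ℕ) [hp : Fact p.Prime] (w : ℤ_[p]) : IsSquare (1 + 4 * p * w) := by
  let F : Polynomial ℤ_[p] := Polynomial.X ^ 2 - Polynomial.C (1 + 4 * p * w)
  have h1 : F.aeval (1 : ℤ_[p]) = -(4 * p * w) := by
    simp [F]
  have h2 : F.derivative.aeval (1 : ℤ_[p]) = 2 := by
    simp [F, one_add_one_eq_two]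
  have h4 : 0 < ‖(4 : ℤ_[p])‖ := norm_pos_iff.2 (by norm_num)
  obtain ⟨z, hz, -⟩ := hensels_lemma (p := p) (R := ℤ_[p]) (F := F) (a := 1) (by
    rw [h1, h2, norm_neg, norm_mul, norm_mul]
    have h5 : ‖(2 : ℤ_[p])‖ ^ 2 = ‖(4 : ℤ_[p])‖ := by
      rw [← norm_pow]
      norm_num
    rw [h5]
    have h6 : ‖(p : ℤ_[p])‖ < 1 := by
      rw [PadicInt.norm_p]
      exact inv_lt_one_of_one_lt₀ (by exact_mod_cast hp.out.one_lt)
    have h7 : ‖w‖ ≤ 1 := PadicInt.norm_le_one w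
    calc ‖(4 : ℤ_[p])‖ * ‖(p : ℤ_[p])‖ * ‖w‖ ≤ ‖(4 : ℤ_[p])‖ * ‖(p : ℤ_[p])‖ * 1 := by
          gcongr
      _ < ‖(4 : ℤ_[p])‖ * 1 := by
          rw [mul_one]
          exact mul_lt_mul_of_pos_left h6 h4
      _ = ‖(4 : ℤ_[p])‖ := mul_one _)
  refine ⟨z, ?_⟩
  have : F.aeval z = z ^ 2 - (1 + 4 * p * w) := by simp [F]
  rw [this] at hz
  rw [← pow_two]
  exact (sub_eq_zero.1 hz).symm

lemma norm_two_pow : ‖(8 : ℚ_[2])‖ = 1 / 8 := by
  have h : (8 : ℚ_[2]) = ((2 : ℕ) : ℚ_[2]) ^ 3 := by norm_num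
  rw [h, norm_pow, Padic.norm_p]
  norm_num

lemma sq_near_one {w : ℚ_[2]} (hw : ‖w‖ ≤ 1 / 8) : IsSquare (1 + w) := by
  have h1 : ‖w / 8‖ ≤ 1 := by
    rw [norm_div, norm_two_pow]
    linarith
  obtain ⟨v, hv⟩ : ∃ v : ℤ_[2], (v : ℚ_[2]) = w / 8 := ⟨⟨w / 8, h1⟩, rfl⟩
  obtain ⟨z, hz⟩ := hens 2 v
  refine ⟨(z : ℚ_[2]), ?_⟩
  have h2 := congrArg (fun t : ℤ_[2] => (t : ℚ_[2])) hz
  have hc4 : ((4 : ℤ_[2]) : ℚ_[2]) = 4 := rfl
  push_cast at h2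
  have hc2 : (((2 : ℕ) : ℤ_[2]) : ℚ_[2]) = 2 := rfl
  rw [hc4, hv] at h2
  rw [← h2]
  have hc3 : ((2 : ℤ_[2]) : ℚ_[2]) = 2 := rfl
  simp only [hc2, hc3]
  ring

lemma norm_int_le {a : ℤ} {n : ℕ} (h : (2 : ℤ) ^ n ∣ a) : ‖(a : ℚ_[2])‖ ≤ 1 / 2 ^ n := by
  have := (Padic.norm_int_le_pow_iff_dvd (p := 2) a n).2 (by exact_mod_cast h)
  refine this.trans (le_of_eq ?_)
  rw [zpow_neg, zpow_natCast]
  norm_num

/-- at 2 the first coordinate is a square -/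
theorem two_sq {a b : ℤ} (ha : a % 8 = 1) (hab : (32 : ℤ) ∣ a - b) {x y : ℚ_[2]} (hy : y ≠ 0)
    (hxy : y ^ 2 = x * (x - a) * (x - b)) : IsSquare x := by
  have hp : x * (x - a) * (x - b) ≠ 0 := by rw [← hxy]; exact pow_ne_zero 2 hy
  have hu0 : x - (a : ℚ_[2]) ≠ 0 := right_ne_zero_of_mul (left_ne_zero_of_mul hp)
  by_cases hu : ‖x - (a : ℚ_[2])‖ ≤ 1 / 8
  · have h1 : x = 1 + (((a - 1 : ℤ) : ℚ_[2]) + (x - a)) := by push_cast; ring
    rw [h1]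
    apply sq_near_one
    refine (Padic.nonarchimedean _ _).trans (max_le ?_ hu)
    have : (2 : ℤ) ^ 3 ∣ a - 1 := by norm_num; omega
    refine (norm_int_le this).trans (le_of_eq (by norm_num))
  · push Not at hu
    have h2 : 1 / 4 ≤ ‖x - (a : ℚ_[2])‖ := by
      rw [Padic.norm_eq_zpow_neg_valuation hu0] at hu ⊢
      have h3 : ((2 : ℕ) : ℝ) ^ (-3 : ℤ) < ((2 : ℕ) : ℝ) ^ (-(x - (a : ℚ_[2])).valuation) := by
        refine lt_of_eq_of_lt ?_ hu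
        norm_num
      have h4 := (zpow_lt_zpow_iff_right₀ (by norm_num)).1 h3
      have h5 : (-2 : ℤ) ≤ -(x - (a : ℚ_[2])).valuation := by omega
      refine le_trans (le_of_eq ?_) (zpow_le_zpow_right₀ (by norm_num) h5)
      norm_num
    have hδ : ‖(((a - b : ℤ) : ℚ_[2])) / (x - a)‖ ≤ 1 / 8 := by
      rw [norm_div, div_le_iff₀ (by linarith)]
      have : (2 : ℤ) ^ 5 ∣ a - b := by norm_num; exact hab
      refine (norm_int_le this).trans ?_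
      norm_num
      linarith
    obtain ⟨r, hr⟩ := sq_near_one hδ
    have hfac : (x - (a : ℚ_[2])) * (x - b) = ((x - a) * r) ^ 2 := by
      have : (x - (b : ℚ_[2])) = (x - a) * (1 + (((a - b : ℤ) : ℚ_[2])) / (x - a)) := by
        field_simp
        push_cast
        ring
      rw [this, hr]
      ring
    have hne : (x - (a : ℚ_[2])) * r ≠ 0 := by
      intro h0
      rw [h0] at hfac
      apply hp
      rw [mul_assoc, hfac]
      ring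
    refine ⟨y / ((x - a) * r), ?_⟩
    have h6 : y ^ 2 = x * ((x - a) * r) ^ 2 := by rw [hxy, ← hfac]; ring
    rw [← pow_two, div_pow, h6, mul_div_assoc, div_self (pow_ne_zero 2 hne), mul_one]

/-- an odd integer that is a square in `ℚ_2` is `1` modulo `8` -/
theorem mod_of_sq {d : ℤ} (hd : ¬ (2 : ℤ) ∣ d) (h : IsSquare (d : ℚ_[2])) : d % 8 = 1 := by
  obtain ⟨r, hr⟩ := h
  have h1 : ‖r‖ ≤ 1 := by
    by_contra hcon
    push Not at hcon
    have h2 : ‖(d : ℚ_[2])‖ ≤ 1 := Padic.norm_int_le_one d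
    rw [hr, norm_mul] at h2
    nlinarith
  obtain ⟨v, hv⟩ : ∃ v : ℤ_[2], (v : ℚ_[2]) = r := ⟨⟨r, h1⟩, rfl⟩
  have h2 : ((d : ℤ) : ℤ_[2]) = v * v := by
    apply Subtype.ext
    rw [PadicInt.coe_mul, hv]
    push_cast
    exact hr
  have h3 := congrArg (PadicInt.toZModPow (p := 2) 3) h2
  rw [map_mul, map_intCast] at h3
  have h4 : ∀ t e : ZMod (2 ^ 3), e = t * t → e = 0 ∨ e = 1 ∨ e = 4 := by decide
  rcases h4 _ _ h3 with h5 | h5 | h5
  · exfalso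
    have : ((8 : ℕ) : ℤ) ∣ d := (ZMod.intCast_zmod_eq_zero_iff_dvd d 8).1 h5
    push_cast at this
    exact hd ((by norm_num : (2 : ℤ) ∣ 8).trans this)
  · have h6 : ((d - 1 : ℤ) : ZMod 8) = 0 := by
      push_cast
      have h5' : (d : ZMod 8) = 1 := h5
      rw [h5', sub_self]
    have : ((8 : ℕ) : ℤ) ∣ d - 1 := (ZMod.intCast_zmod_eq_zero_iff_dvd _ 8).1 h6
    push_cast at this
    omega
  · exfalso
    have h6 : ((d - 4 : ℤ) : ZMod 8) = 0 := by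
      push_cast
      have h5' : (d : ZMod 8) = 4 := h5
      rw [h5', sub_self]
    have : ((8 : ℕ) : ℤ) ∣ d - 4 := (ZMod.intCast_zmod_eq_zero_iff_dvd _ 8).1 h6
    push_cast at this
    omega

end Pool.Agent.Y667.RP
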