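import Pool.Agent.Y667.RP.Kill
import Pool.Agent.Y667.RP.Two
import Pool.Agent.W405.SE.GoodP
import Pool.Agent.W407.SE.Ratp
import Pool.Agent.W307.SE.Locp

/-!
# Project RP: the Selmer group of the good pairs
-/

set_option autoImplicit false

namespace Pool.Agent.Y667.RP

open Finset Pool.Agent.W262.RK Pool.Agent.W307.RT Pool.Agent.W307.RS Pool.Agent.W307.SE
  Pool.Agent.W307.FK Pool.Agent.W214.RK2

open Pool.Agent.W405.SE (even_val not_dvd goodp_of)

lemma sel_pos {a b : ℤ} (ha : 0 < a) (hb : 0 < b) {d : ℤ × ℤ} (hd : d ∈ Sel a b) : 0 < d.1 := by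
  obtain ⟨h1, h2, ⟨x, y, hy, hxy, ⟨r, hr⟩, -⟩, -⟩ := hd
  have hx : 0 < x := by
    by_contra hcon
    push Not at hcon
    have hy2 : 0 < y ^ 2 := by positivity
    rw [hxy] at hy2
    have ha' : (0 : ℝ) < a := by exact_mod_cast ha
    have hb' : (0 : ℝ) < b := by exact_mod_cast hb
    have h3 : 0 ≤ (x - a) * (x - b) := mul_nonneg_of_nonpos_of_nonpos (by linarith) (by linarith)
    have h4 : x * ((x - a) * (x - b)) ≤ 0 := mul_nonpos_of_nonpos_of_nonneg hcon h3
    linarith [h4, hy2, mul_assoc x (x - a) (x - b)]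
  have h0 : 0 ≤ x * (d.1 : ℝ) := by rw [hr]; exact mul_self_nonneg r
  have h3 : (0 : ℝ) ≤ d.1 := by
    by_contra hcon
    push Not at hcon
    linarith [mul_neg_of_pos_of_neg hx hcon]
  have h4 : (0 : ℤ) ≤ d.1 := by exact_mod_cast h3
  exact lt_of_le_of_ne h4 h1.ne_zero.symm

lemma sel_two {a b : ℤ} (ha : a % 8 = 1) (hab : (32 : ℤ) ∣ a - b) {d : ℤ × ℤ}
    (hd : d ∈ Sel a b) : d.1 % 8 = 1 := by
  obtain ⟨h1, h2, -, h3⟩ := hd
  have : Fact (Nat.Prime 2) := ⟨Nat.prime_two⟩
  obtain ⟨x, y, hy, hxy, hs1, hs2⟩ := h3 2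
  have hx := two_sq ha hab hy hxy
  have hx0 : x ≠ 0 := by
    rintro rfl
    apply hy
    have : y ^ 2 = 0 := by rw [hxy]; ring
    exact pow_eq_zero_iff (two_ne_zero) |>.1 this
  have hd : IsSquare ((d.1 : ℤ) : ℚ_[2]) := by
    have h5 : ((d.1 : ℤ) : ℚ_[2]) = x * d.1 / x := by
      field_simp
    rw [h5]
    exact hs1.div hx
  refine mod_of_sq ?_ hd
  have hd0 : ((d.1 : ℤ) : ℚ_[2]) ≠ 0 := by exact_mod_cast h1.ne_zero
  have := not_dvd (p := 2) h1 (by
    have h6 := even_val (p := 2) (a := ((d.1 : ℤ) : ℚ_[2])) (b := 1) hd0 one_ne_zero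
      (by rw [mul_one]; exact hd)
    simpa using h6)
  exact_mod_cast this

lemma locLR {a b : ℤ} (c : Fin 3) (κ : ℤ) (p : ℕ) (hp : p.Prime) (hp2 : p ≠ 2)
    (hκ : ¬ (p : ℤ) ∣ κ) (hL : LocH c.castSucc (fun _ => κ) false p a b) {d : ℤ × ℤ}
    (hd : d ∈ Sel a b) :
    LR c (sg0 p κ) (dv p d.1) (dv p d.2) (sgn p d.1) (sgn p d.2) := by
  have : Fact p.Prime := ⟨hp⟩
  obtain ⟨h1, h2, -, h3⟩ := hd
  obtain ⟨x, y, hy, hxy, s1, s2⟩ := h3 p
  have h := loclp_of Pool.Agent.W407.SE.ratp c.castSucc (fun _ => κ) false p a b hp2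
    (fun _ => hκ) hL x y hy hxy d.1 d.2 h1 h2 s1 s2
  unfold LL at h
  unfold LR
  fin_cases c
  · simpa using h
  · simpa using h
  · simpa using h

lemma jac_self {p : ℕ} (hp : p.Prime) {x : ℤ} (hx : ¬ (p : ℤ) ∣ x) : jacobiSym (x * x) p = 1 := by
  rw [← sq]
  apply jacobiSym.sq_one'
  rw [Int.gcd_comm, ← Int.isCoprime_iff_gcd_eq_one]
  exact ((Nat.prime_iff_prime_int.1 hp).coprime_iff_not_dvd).2 hx

theorem SEL : St_SEL := by
  classical
  intro a b s m n l hm hn hl hmn hml hnl hs hodd hm2 hn2 hl2 hms hns hls ha hb hab ha8 hb8 hV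
  set P := ∏ j, s j with hP
  have hP3 : P = s 0 * s 1 * s 2 := by rw [hP, Fin.prod_univ_three]
  set A := s 0 * m with hA
  set B := s 1 * n with hB
  set C := s 2 * l with hC
  have hT : Squarefree (P * m * n * l) := by
    have h1 : Squarefree (P * m) := by
      rw [Nat.squarefree_mul_iff]
      exact ⟨((Nat.Prime.coprime_iff_not_dvd hm).2 hms).symm, hs, hm.squarefree⟩
    have h2 : Squarefree (P * m * n) := by
      rw [Nat.squarefree_mul_iff]
      refine ⟨((Nat.Prime.coprime_iff_not_dvd hn).2 ?_).symm, h1, hn.squarefree⟩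
      intro h
      rcases (hn.dvd_mul).1 h with h | h
      · exact hns h
      · exact hmn ((Nat.prime_dvd_prime_iff_eq hn hm).1 h).symm
    rw [Nat.squarefree_mul_iff]
    refine ⟨((Nat.Prime.coprime_iff_not_dvd hl).2 ?_).symm, h2, hl.squarefree⟩
    intro h
    rcases (hl.dvd_mul).1 h with h | h
    · rcases (hl.dvd_mul).1 h with h | h
      · exact hls h
      · exact hml ((Nat.prime_dvd_prime_iff_eq hl hm).1 h).symm
    · exact hnl ((Nat.prime_dvd_prime_iff_eq hl hn).1 h).symm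
  have hABC : Squarefree (A * B * C) := by
    have : A * B * C = P * m * n * l := by rw [hP3]; ring
    rw [this]; exact hT
  have hoddT : Odd (A * B * C) := by
    have : A * B * C = P * m * n * l := by rw [hP3]; ring
    rw [this]
    exact ((hodd.mul (hm.odd_of_ne_two hm2)).mul (hn.odd_of_ne_two hn2)).mul
      (hl.odd_of_ne_two hl2)
  have hcAB : A.Coprime B :=
    Nat.coprime_of_squarefree_mul (hABC.squarefree_of_dvd (dvd_mul_right _ _))
  have hcABC : (A * B).Coprime C := Nat.coprime_of_squarefree_mul hABC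
  have hsA : Squarefree A := hABC.squarefree_of_dvd (by rw [mul_assoc]; exact dvd_mul_right _ _)
  have hsB : Squarefree B := hABC.squarefree_of_dvd ⟨A * C, by ring⟩
  have hsC : Squarefree C := hABC.squarefree_of_dvd (dvd_mul_left _ _)
  have hcop : ∀ x y p : ℕ, p.Prime → x.Coprime y → p ∣ x → ¬ p ∣ y := by
    intro x y p hp hxy hx hy
    have := Nat.dvd_gcd hx hy
    rw [hxy] at this
    exact hp.one_lt.ne' (Nat.dvd_one.1 this)
  have hnsq : ∀ x p : ℕ, p.Prime → Squarefree x → ¬ p ^ 2 ∣ x := by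
    intro x p hp hx h
    rw [sq] at h
    exact hp.one_lt.ne' (Nat.isUnit_iff.1 (hx p h))
  have hA0 : 0 < A := Nat.pos_of_ne_zero hsA.ne_zero
  have hB0 : 0 < B := Nat.pos_of_ne_zero hsB.ne_zero
  have hC0 : 0 < C := Nat.pos_of_ne_zero hsC.ne_zero
  have haA : a = (A : ℤ) := by rw [ha, hA]; push_cast; ring
  have hbB : b = (B : ℤ) := by rw [hb, hB]; push_cast; ring
  have habC : a - b = 32 * (C : ℤ) := by rw [hab, hC]; push_cast; ring
  have hdA : ∀ p : ℕ, (p : ℤ) ∣ a ↔ p ∣ A := fun p => by rw [haA]; exact Int.natCast_dvd_natCast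
  have hdB : ∀ p : ℕ, (p : ℤ) ∣ b ↔ p ∣ B := fun p => by rw [hbB]; exact Int.natCast_dvd_natCast
  have hdC : ∀ p : ℕ, p.Prime → p ≠ 2 → ((p : ℤ) ∣ a - b ↔ p ∣ C) := by
    intro p hp hp2
    rw [habC]
    constructor
    · intro h
      rcases (Nat.prime_iff_prime_int.1 hp).dvd_or_dvd h with h | h
      · exfalso
        have h1 : p ∣ 2 ^ 5 := by exact_mod_cast h
        exact hp2 ((Nat.prime_dvd_prime_iff_eq hp Nat.prime_two).1 (hp.dvd_of_dvd_pow h1))
      · exact Int.natCast_dvd_natCast.1 h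
    · intro h
      exact (Int.natCast_dvd_natCast.2 h).mul_left _
  have hpo : ∀ p : ℕ, p.Prime → p ∣ A * B * C → p ≠ 2 := by
    rintro p hp h rfl
    exact (Nat.not_even_iff_odd.2 hoddT) (even_iff_two_dvd.2 h)
  have hneg : ∀ (p : ℕ) (x : ℤ), (p : ℤ) ∣ -x ↔ (p : ℤ) ∣ x := fun p x => dvd_neg
  -- the three local conditions
  have L0 : ∀ d ∈ Sel a b, ∀ p : ℕ, p.Prime → p ∣ A →
      LR 0 (sg0 p (-b)) (dv p d.1) (dv p d.2) (sgn p d.1) (sgn p d.2) := by
    intro d hd p hp hpA
    have h1 : ¬ p ∣ B := hcop A B p hp hcAB hpA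
    have h2 : ¬ (p : ℤ) ∣ -b := by rw [hneg, hdB]; exact h1
    refine locLR 0 (-b) p hp (hpo p hp ((hpA.mul_right _).mul_right _)) h2 ?_ hd
    unfold LocH
    rw [if_pos (by rfl)]
    refine ⟨(hdA p).2 hpA, ?_, fun h => h1 ((hdB p).1 h), jac_self hp h2⟩
    rw [haA]
    exact_mod_cast hnsq A p hp hsA
  have L1 : ∀ d ∈ Sel a b, ∀ p : ℕ, p.Prime → p ∣ B →
      LR 1 (sg0 p (-a)) (dv p d.1) (dv p d.2) (sgn p d.1) (sgn p d.2) := by
    intro d hd p hp hpB
    have h1 : ¬ p ∣ A := hcop B A p hp hcAB.symm hpB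
    have h2 : ¬ (p : ℤ) ∣ -a := by rw [hneg, hdA]; exact h1
    refine locLR 1 (-a) p hp (hpo p hp ((hpB.mul_left _).mul_right _)) h2 ?_ hd
    unfold LocH
    rw [if_neg (by decide), if_pos (by rfl)]
    refine ⟨(hdB p).2 hpB, ?_, fun h => h1 ((hdA p).1 h), jac_self hp h2⟩
    rw [hbB]
    exact_mod_cast hnsq B p hp hsB
  have L2 : ∀ d ∈ Sel a b, ∀ p : ℕ, p.Prime → p ∣ C →
      LR 2 (sg0 p a) (dv p d.1) (dv p d.2) (sgn p d.1) (sgn p d.2) := by
    intro d hd p hp hpC
    have hp2 := hpo p hp (hpC.mul_left _)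
    have h1 : ¬ p ∣ A := fun h => hcop C (A * B) p hp hcABC.symm hpC (h.mul_right _)
    have h2 : ¬ (p : ℤ) ∣ a := by rw [hdA]; exact h1
    refine locLR 2 a p hp hp2 h2 ?_ hd
    unfold LocH
    rw [if_neg (by decide), if_neg (by decide), if_pos (by rfl)]
    refine ⟨(hdC p hp hp2).2 hpC, ?_, h2, jac_self hp h2⟩
    intro h
    rw [habC] at h
    have h3 : p ^ 2 ∣ 32 * C := by exact_mod_cast h
    have h4 : (p ^ 2).Coprime 32 := by
      have : p.Coprime 2 := (Nat.coprime_primes hp Nat.prime_two).2 hp2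
      have h5 : (p ^ 2).Coprime (2 ^ 5) := Nat.Coprime.pow 2 5 this
      exact h5
    exact hnsq C p hp hsC (h4.dvd_of_dvd_mul_left h3)
  -- the prime factors of the classes
  have hgood : ∀ d ∈ Sel a b, ∀ q : ℕ, q.Prime → q ≠ 2 → (q : ℤ) ∣ d.1 ∨ (q : ℤ) ∣ d.2 →
      q ∣ A ∨ q ∣ B ∨ q ∣ C := by
    intro d hd q hq hq2 h
    by_contra hcon
    push Not at hcon
    have : Fact q.Prime := ⟨hq⟩
    have hqi := Nat.prime_iff_prime_int.1 hq
    have h1 : ¬ (q : ℤ) ∣ 2 * a * b * (a - b) := by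
      intro h
      rcases hqi.dvd_or_dvd h with h | h
      · rcases hqi.dvd_or_dvd h with h | h
        · rcases hqi.dvd_or_dvd h with h | h
          · have : q ∣ 2 := by exact_mod_cast h
            exact hq2 ((Nat.prime_dvd_prime_iff_eq hq Nat.prime_two).1 this)
          · exact hcon.1 ((hdA q).1 h)
        · exact hcon.2.1 ((hdB q).1 h)
      · exact hcon.2.2 ((hdC q hq hq2).1 h)
    have h2 := goodp_of Pool.Agent.W407.SE.ratp q a b d.1 d.2 h1 hd.1 hd.2.1 (hd.2.2.2 q)
    rcases h with h | h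
    · exact h2.1 h
    · exact h2.2 h
  have hpf1 : ∀ d ∈ Sel a b, ∀ q : ℕ, q.Prime → (q : ℤ) ∣ d.1 → q ∣ A ∨ q ∣ B := by
    intro d hd q hq h
    have h8 := sel_two ha8 (by rw [habC]; exact dvd_mul_right _ _) hd
    have hq2 : q ≠ 2 := by
      rintro rfl
      have : (2 : ℤ) ∣ d.1 := by exact_mod_cast h
      omega
    rcases hgood d hd q hq hq2 (Or.inl h) with h1 | h1 | h1
    · exact Or.inl h1
    · exact Or.inr h1
    · exfalso
      have h2 := L2 d hd q hq h1
      unfold LR at h2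
      rw [if_neg (by decide), if_neg (by decide)] at h2
      unfold dv at h2
      rw [decide_eq_false_iff_not] at h2
      exact h2.1 h
  have hpf2 : ∀ d ∈ Sel a b, ∀ q : ℕ, q.Prime → (q : ℤ) ∣ d.2 → q = 2 ∨ q ∣ A ∨ q ∣ C := by
    intro d hd q hq h
    by_cases hq2 : q = 2
    · exact Or.inl hq2
    rcases hgood d hd q hq hq2 (Or.inr h) with h1 | h1 | h1
    · exact Or.inr (Or.inl h1)
    · exfalso
      have h2 := L1 d hd q hq h1
      unfold LR at h2
      rw [if_neg (by decide), if_pos rfl] at h2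
      unfold dv at h2
      rw [decide_eq_false_iff_not] at h2
      exact h2.1 h
    · exact Or.inr (Or.inr h1)
  -- the conditions at the primes of `P`
  have hLF : ∀ d ∈ Sel a b, ∀ p ∈ P.primeFactors,
      LF s (sgF a b P) p (dv p d.1) (dv p d.2) (sgn p d.1) (sgn p d.2) := by
    intro d hd p hpP j hj
    have hp := Nat.prime_of_mem_primeFactors hpP
    have hj3 : j = 0 ∨ j = 1 ∨ j = 2 := by fin_cases j <;> simp
    rcases hj3 with rfl | rfl | rfl
    · have hpA : p ∣ A := hj.mul_right _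
      have hp2 := hpo p hp ((hpA.mul_right _).mul_right _)
      have h1 : ¬ p ∣ B := hcop A B p hp hcAB hpA
      have h2 : ¬ p ∣ C := hcop (A * B) C p hp hcABC (hpA.mul_right _)
      have hE : decide (p ∈ sgF a b P) = sg0 p (-b) := by
        unfold sg0 sgF
        rw [decide_eq_decide, mem_filter]
        constructor
        · rintro ⟨-, h | h | h⟩
          · exact h.2
          · exact absurd ((hdB p).1 h.1) h1
          · exact absurd ((hdC p hp hp2).1 h.1) h2
        · intro h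
          exact ⟨hpP, Or.inl ⟨(hdA p).2 hpA, h⟩⟩
      rw [hE]
      exact L0 d hd p hp hpA
    · have hpB : p ∣ B := hj.mul_right _
      have hp2 := hpo p hp ((hpB.mul_left _).mul_right _)
      have h1 : ¬ p ∣ A := hcop B A p hp hcAB.symm hpB
      have h2 : ¬ p ∣ C := hcop (A * B) C p hp hcABC (hpB.mul_left _)
      have hE : decide (p ∈ sgF a b P) = sg0 p (-a) := by
        unfold sg0 sgF
        rw [decide_eq_decide, mem_filter]
        constructor
        · rintro ⟨-, h | h | h⟩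
          · exact absurd ((hdA p).1 h.1) h1
          · exact h.2
          · exact absurd ((hdC p hp hp2).1 h.1) h2
        · intro h
          exact ⟨hpP, Or.inr (Or.inl ⟨(hdB p).2 hpB, h⟩)⟩
      rw [hE]
      exact L1 d hd p hp hpB
    · have hpC : p ∣ C := hj.mul_right _
      have hp2 := hpo p hp (hpC.mul_left _)
      have h1 : ¬ p ∣ A := fun h => hcop C (A * B) p hp hcABC.symm hpC (h.mul_right _)
      have h2 : ¬ p ∣ B := fun h => hcop C (A * B) p hp hcABC.symm hpC (h.mul_left _)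
      have hE : decide (p ∈ sgF a b P) = sg0 p a := by
        unfold sg0 sgF
        rw [decide_eq_decide, mem_filter]
        constructor
        · rintro ⟨-, h | h | h⟩
          · exact absurd ((hdA p).1 h.1) h1
          · exact absurd ((hdB p).1 h.1) h2
          · exact h.2
        · intro h
          exact ⟨hpP, Or.inr (Or.inr ⟨(hdC p hp hp2).2 hpC, h⟩)⟩
      rw [hE]
      exact L2 d hd p hp hpC
  -- the pattern
  obtain ⟨pt, hpt⟩ : ∃ pt : ℤ × ℤ → Bool × Bool × Bool,
      ∀ d, pt d = (dv m d.1, dv n d.1, dv l d.2) := ⟨_, fun _ => rfl⟩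
  have hmA : m ∣ A := dvd_mul_left _ _
  have hnB : n ∣ B := dvd_mul_left _ _
  have hlC : l ∣ C := dvd_mul_left _ _
  have h2P : ∀ x q : ℕ, q.Prime → x ∣ P → q ∣ x → q ∣ P := fun x q _ h1 h2 => h2.trans h1
  have hs0P : s 0 ∣ P := by rw [hP3, mul_assoc]; exact dvd_mul_right _ _
  have hs1P : s 1 ∣ P := by rw [hP3]; exact ⟨s 0 * s 2, by ring⟩
  have hs2P : s 2 ∣ P := by rw [hP3]; exact dvd_mul_left _ _
  have hinj : Set.InjOn pt (Sel a b) := by
    intro d hd e he hde
    rw [hpt, hpt, Prod.mk.injEq, Prod.mk.injEq] at hde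
    obtain ⟨k1, k2, k3⟩ := hde
    have x1 : dv m (sp d.1 e.1) = false := by rw [(sp_dv hd.1 he.1 m hm).1, k1, Bool.xor_self]
    have x2 : dv n (sp d.1 e.1) = false := by rw [(sp_dv hd.1 he.1 n hn).1, k2, Bool.xor_self]
    have x3 : dv l (sp d.2 e.2) = false := by
      rw [(sp_dv hd.2.1 he.2.1 l hl).1, k3, Bool.xor_self]
    have x4 : dv m (sp d.2 e.2) = false := by
      have y1 := L0 d hd m hm hmA
      have y2 := L0 e he m hm hmA
      unfold LR at y1 y2
      rw [if_pos rfl] at y1 y2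
      rw [(sp_dv hd.2.1 he.2.1 m hm).1, ← y1.1, ← y2.1, k1, Bool.xor_self]
    unfold dv at x1 x2 x3 x4
    rw [decide_eq_false_iff_not] at x1 x2 x3 x4
    have hmem : sp2 d e ∈ V0 s (sgF a b P) := by
      refine ⟨sp_sqf hd.1 he.1, sp_sqf hd.2.1 he.2.1, ?_, ?_, ?_, ?_, ?_⟩
      · exact sp_pos hd.1 (sel_pos (by omega) (by omega) hd) (sel_pos (by omega) (by omega) he)
      · have h32 : (32 : ℤ) ∣ a - b := by rw [habC]; exact dvd_mul_right _ _
        exact sp_mod hd.1 (sel_two ha8 h32 hd) (sel_two ha8 h32 he)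
      · intro q hq h
        have h1 : q ∣ A ∨ q ∣ B := by
          rcases sp_dvd hd.1 hq h with h' | h'
          · exact hpf1 d hd q hq h'
          · exact hpf1 e he q hq h'
        rcases h1 with h1 | h1
        · rcases (hq.dvd_mul).1 h1 with h2 | h2
          · exact h2.trans hs0P
          · have : q = m := (Nat.prime_dvd_prime_iff_eq hq hm).1 h2
            subst this
            exact absurd h x1
        · rcases (hq.dvd_mul).1 h1 with h2 | h2
          · exact h2.trans hs1P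
          · have : q = n := (Nat.prime_dvd_prime_iff_eq hq hn).1 h2
            subst this
            exact absurd h x2
      · intro q hq h
        have h1 : q = 2 ∨ q ∣ A ∨ q ∣ C := by
          rcases sp_dvd hd.2.1 hq h with h' | h'
          · exact hpf2 d hd q hq h'
          · exact hpf2 e he q hq h'
        rcases h1 with h1 | h1 | h1
        · rw [h1]; exact dvd_mul_right _ _
        · rcases (hq.dvd_mul).1 h1 with h2 | h2
          · exact (h2.trans hs0P).mul_left _
          · have : q = m := (Nat.prime_dvd_prime_iff_eq hq hm).1 h2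
            subst this
            exact absurd h x4
        · rcases (hq.dvd_mul).1 h1 with h2 | h2
          · exact (h2.trans hs2P).mul_left _
          · have : q = l := (Nat.prime_dvd_prime_iff_eq hq hl).1 h2
            subst this
            exact absurd h x3
      · intro p hp
        have hpp := Nat.prime_of_mem_primeFactors hp
        show LF s (sgF a b P) p (dv p (sp d.1 e.1)) (dv p (sp d.2 e.2)) (sgn p (sp d.1 e.1))
          (sgn p (sp d.2 e.2))
        obtain ⟨a1, a2⟩ := sp_dv hd.1 he.1 p hpp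
        obtain ⟨a3, a4⟩ := sp_dv hd.2.1 he.2.1 p hpp
        rw [a1, a2, a3, a4]
        exact (xcLF s _ p).2 _ _ _ _ _ _ _ _ (hLF d hd p hp) (hLF e he p hp)
    rw [hV, Set.mem_singleton_iff] at hmem
    unfold sp2 at hmem
    rw [Prod.mk.injEq] at hmem
    exact Prod.ext (eq_of_sp_one hd.1 hmem.1) (eq_of_sp_one hd.2.1 hmem.2)
  have hfin : (Sel a b).Finite := by
    have : (pt '' Sel a b).Finite := Set.toFinite _
    exact Set.Finite.of_finite_image this hinj
  refine ⟨hfin, ?_⟩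
  rw [← hinj.ncard_image]
  refine (Set.ncard_le_ncard (Set.subset_univ _) Set.finite_univ).trans ?_
  rw [Set.ncard_univ, Nat.card_eq_fintype_card]
  decide

end Pool.Agent.Y667.RP
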