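import Pool.Agent.Y667.RP.Fin
import Pool.Agent.TH344.DS.Main
import Pool.Agent.W307.RS.MainD

/-!
# Project RP: from the ordering by height to the ordering by the minimal discriminant
-/

set_option autoImplicit false

namespace Pool.Agent.Y667.RP

open Finset Filter Pool.Agent.W262.RK Pool.Agent.W307.RT Pool.Agent.W307.RS Pool.Agent.W307.SE
  Pool.Agent.W307.FK Pool.Agent.TH344.DS

lemma dv_upper : ∃ C : ℝ, 0 ≤ C ∧ ∀ Z W : ℕ, 1 ≤ W → 6 ^ 12 * Z ≤ W ^ 6 →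
    ((Dv Z).card : ℝ) ≤ C * (W : ℝ) ^ 2 := by
  classical
  obtain ⟨C1, hC1, hb⟩ := Bd.region_all Pool.Agent.TH344.DS.cusp
  obtain ⟨F, hF1, hF2⟩ := Pool.Agent.W513.FK.parf
  have hF : Par F := ⟨hF1, hF2⟩
  have hfin : ∀ Z, (DvS 2 Z).Finite := Pool.Agent.TH344.DS.excd.1
  refine ⟨8 * C1, by positivity, ?_⟩
  intro Z W hW hZW
  have hSd : ∀ c ∈ Dv Z, c ∈ DvS 2 Z := fun c hc => (mem_Dv hfin).1 hc
  have hS' : ((Dv Z : Finset (ℤ × ℤ)) : Set (ℤ × ℤ)) ⊆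
      {c | 4 * c.1 ^ 3 + 27 * c.2 ^ 2 ≠ 0 ∧ HasT 2 (Sh c.1 c.2)} := fun c hc =>
    ⟨(hSd c hc).1, (hSd c hc).2.2.1⟩
  have hsize : ∀ c ∈ Dv Z, (F c).1 ^ 3 *
      ((F c).2.1 * (F c).2.2 * ((F c).2.1 - (F c).2.2)).natAbs ≤ W ^ 3 :=
    fun c hc => (par_key hF Pool.Agent.W554.RS.mdl hZW (hSd c hc)).2.2.2.2.2.1
  have hgW : ∀ c ∈ Dv Z, (F c).1 ∈ Icc 1 W := by
    intro c hc
    obtain ⟨k0, _, k3, k4, k5, _, _⟩ := par_key hF Pool.Agent.W554.RS.mdl hZW (hSd c hc)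
    rw [mem_Icc]
    refine ⟨k0, ?_⟩
    have k6 : 1 ≤ ((F c).2.1 * (F c).2.2 * ((F c).2.1 - (F c).2.2)).natAbs := by
      rw [Nat.one_le_iff_ne_zero, Ne, Int.natAbs_eq_zero]
      exact mul_ne_zero (mul_ne_zero k3 k4) (sub_ne_zero.2 k5)
    have k7 : (F c).1 ^ 3 ≤ W ^ 3 := (Nat.le_mul_of_pos_right _ k6).trans (hsize c hc)
    exact (Nat.pow_le_pow_iff_left (by norm_num)).1 k7
  have e0 : (Dv Z).card = ((Dv Z).image F).card := (card_image_of_injOn (hF.1.mono hS')).symm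
  have e1 : ((Dv Z).image F).card =
      ∑ g ∈ Icc 1 W, (((Dv Z).image F).filter (fun t => t.1 = g)).card := by
    apply card_eq_sum_card_fiberwise
    intro t ht
    obtain ⟨c, hc, rfl⟩ := mem_image.1 (mem_coe.1 ht)
    exact hgW c hc
  have e4 : ∀ g ∈ Icc 1 W, ((((Dv Z).image F).filter (fun t => t.1 = g)).card : ℝ) ≤
      (4 * C1 * (W : ℝ) ^ 2) * ((g : ℝ) ^ 2)⁻¹ := by
    intro g hg
    rw [mem_Icc] at hg
    have f1 : (((Dv Z).image F).filter (fun t => t.1 = g)).card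
        = ((((Dv Z).image F).filter (fun t => t.1 = g)).image Prod.snd).card := by
      rw [card_image_of_injOn]
      intro t ht t' ht' htt
      have q1 := (mem_filter.1 (mem_coe.1 ht)).2
      have q2 := (mem_filter.1 (mem_coe.1 ht')).2
      exact Prod.ext (q1.trans q2.symm) htt
    rw [f1]
    have f2 := hb (W / g + 1) (Nat.le_add_left 1 _)
      ((((Dv Z).image F).filter (fun t => t.1 = g)).image Prod.snd) (by
      intro t ht
      obtain ⟨t', ht', rfl⟩ := mem_image.1 ht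
      obtain ⟨ht1, ht2⟩ := mem_filter.1 ht'
      obtain ⟨c, hc, rfl⟩ := mem_image.1 ht1
      obtain ⟨k0, k1, k3, k4, k5, _, _⟩ := par_key hF Pool.Agent.W554.RS.mdl hZW (hSd c hc)
      refine ⟨k3, k4, k5, ?_⟩
      have q1 := hsize c hc
      rw [ht2] at q1
      have q2 : W < g * (W / g + 1) := Nat.lt_mul_div_succ W (by omega)
      have q3 : W ^ 3 < (g * (W / g + 1)) ^ 3 := Nat.pow_lt_pow_left q2 (by norm_num)
      rw [mul_pow] at q3
      exact (Nat.lt_of_mul_lt_mul_left (q1.trans_lt q3)).le)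
    refine f2.trans ?_
    have hgr : (0 : ℝ) < g := by
      have : 0 < g := by omega
      exact_mod_cast this
    have f3 : ((W / g + 1 : ℕ) : ℝ) ≤ 2 * W / g := by
      push_cast
      have r1 : ((W / g : ℕ) : ℝ) ≤ (W : ℝ) / g := Nat.cast_div_le
      have r2 : (1 : ℝ) ≤ (W : ℝ) / g := by
        rw [one_le_div hgr]
        exact_mod_cast hg.2
      have r3 : 2 * (W : ℝ) / g = (W : ℝ) / g + (W : ℝ) / g := by ring
      rw [r3]
      exact add_le_add r1 r2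
    have f4 : ((W / g + 1 : ℕ) : ℝ) ^ 2 ≤ (2 * W / g) ^ 2 :=
      pow_le_pow_left₀ (Nat.cast_nonneg _) f3 2
    calc C1 * ((W / g + 1 : ℕ) : ℝ) ^ 2
        ≤ C1 * (2 * W / g) ^ 2 := mul_le_mul_of_nonneg_left f4 hC1
      _ = _ := by
          field_simp
          ring
  rw [e0, e1]
  push_cast
  calc ∑ g ∈ Icc 1 W, ((((Dv Z).image F).filter (fun t => t.1 = g)).card : ℝ)
      ≤ ∑ g ∈ Icc 1 W, (4 * C1 * (W : ℝ) ^ 2) * ((g : ℝ) ^ 2)⁻¹ := sum_le_sum e4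
    _ = (4 * C1 * (W : ℝ) ^ 2) * ∑ g ∈ Icc 1 W, ((g : ℝ) ^ 2)⁻¹ := by rw [mul_sum]
    _ ≤ (4 * C1 * (W : ℝ) ^ 2) * 2 :=
        mul_le_mul_of_nonneg_left (Bd.sum_inv_sq W) (by positivity)
    _ = _ := by ring

/-- the number of the curves of minimal discriminant at most `Z` is at most a constant times the
number of the curves of height at most `Z / 32` -/
lemma dv_cv : ∃ C : ℝ, 0 < C ∧ ∃ Z0 : ℕ, ∀ Z : ℕ, Z0 ≤ Z →
    ((Dv Z).card : ℝ) ≤ C * ((Cv 2 (Z / 32)).card : ℝ) := by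
  classical
  obtain ⟨C2, hC2, hup⟩ := dv_upper
  obtain ⟨c, C1, T0, hc, hlow⟩ := Pool.Agent.W672.FK.lowf
  obtain ⟨K, hKd⟩ : ∃ K : ℕ, K = 6 ^ 12 * (2048 * (C1 + 1) + 64) := ⟨_, rfl⟩
  refine ⟨C2 * (K : ℝ) ^ 2 / c + 1, by positivity, 32 * ((C1 + 1) * (T0 + 1) ^ 6), fun Z hZ => ?_⟩
  obtain ⟨T, hT1, hT2⟩ : ∃ T : ℕ, (C1 + 1) * T ^ 6 ≤ Z / 32 ∧ Z / 32 < (C1 + 1) * (T + 1) ^ 6 := by
    refine ⟨Nat.findGreatest (fun t => (C1 + 1) * t ^ 6 ≤ Z / 32) (Z / 32), ?_, ?_⟩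
    · exact Nat.findGreatest_spec (P := fun t => (C1 + 1) * t ^ 6 ≤ Z / 32) (Nat.zero_le _)
        (by rw [zero_pow (by omega), mul_zero]; exact Nat.zero_le _)
    · by_contra hcon
      push Not at hcon
      have h1 : Nat.findGreatest (fun t => (C1 + 1) * t ^ 6 ≤ Z / 32) (Z / 32) + 1 ≤
          Nat.findGreatest (fun t => (C1 + 1) * t ^ 6 ≤ Z / 32) (Z / 32) := by
        apply Nat.le_findGreatest
        · refine le_trans ?_ hcon
          refine le_trans (Nat.le_self_pow (n := 6) (by omega) _) ?_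
          exact Nat.le_mul_of_pos_left _ (by omega)
        · exact hcon
      omega
  have hTT0 : T0 + 1 ≤ T := by
    by_contra hcon
    push Not at hcon
    have h1 : (C1 + 1) * (T + 1) ^ 6 ≤ (C1 + 1) * (T0 + 1) ^ 6 :=
      Nat.mul_le_mul_left _ (Nat.pow_le_pow_left (by omega) 6)
    have h2 : (C1 + 1) * (T0 + 1) ^ 6 ≤ Z / 32 := by
      rw [Nat.le_div_iff_mul_le (by norm_num)]
      omega
    omega
  have hlo := hlow T (Z / 32) (by omega) (le_trans (Nat.mul_le_mul_right _ (by omega)) hT1)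
  have hKT : 6 ^ 12 * Z ≤ (K * T) ^ 6 := by
    have h1 : Z < 32 * (Z / 32) + 32 := by omega
    have h2 : (T + 1) ^ 6 ≤ (2 * T) ^ 6 := Nat.pow_le_pow_left (by omega) 6
    have h3 : (2 * T) ^ 6 = 64 * T ^ 6 := by ring
    have h4 : 1 ≤ T ^ 6 := Nat.one_le_pow _ _ (by omega)
    have h5 : Z ≤ (2048 * (C1 + 1) + 64) * T ^ 6 := by
      have h6 : (C1 + 1) * (T + 1) ^ 6 ≤ (C1 + 1) * (64 * T ^ 6) :=
        Nat.mul_le_mul_left _ (h2.trans_eq h3)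
      have h7 : 32 * (Z / 32) ≤ 32 * ((C1 + 1) * (64 * T ^ 6)) := by omega
      have h8 : 32 * ((C1 + 1) * (64 * T ^ 6)) + 64 * T ^ 6 = (2048 * (C1 + 1) + 64) * T ^ 6 := by
        ring
      omega
    calc 6 ^ 12 * Z ≤ 6 ^ 12 * ((2048 * (C1 + 1) + 64) * T ^ 6) := Nat.mul_le_mul_left _ h5
      _ = K * T ^ 6 := by rw [hKd]; ring
      _ ≤ K ^ 6 * T ^ 6 := Nat.mul_le_mul_right _ (Nat.le_self_pow (by omega) K)
      _ = _ := by rw [mul_pow]
  have hK1 : 1 ≤ K * T := by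
    have : 1 ≤ K := by rw [hKd]; omega
    exact Nat.mul_pos this (by omega)
  have h1 := hup Z (K * T) hK1 hKT
  have h2 : (T : ℝ) ^ 2 ≤ ((Cv 2 (Z / 32)).card : ℝ) / c := by
    rw [le_div_iff₀ hc]
    linarith
  have h3 : (0 : ℝ) ≤ ((Cv 2 (Z / 32)).card : ℝ) := by positivity
  calc ((Dv Z).card : ℝ) ≤ C2 * ((K * T : ℕ) : ℝ) ^ 2 := h1
    _ = C2 * (K : ℝ) ^ 2 * (T : ℝ) ^ 2 := by push_cast; ring
    _ ≤ C2 * (K : ℝ) ^ 2 * (((Cv 2 (Z / 32)).card : ℝ) / c) :=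
        mul_le_mul_of_nonneg_left h2 (by positivity)
    _ = (C2 * (K : ℝ) ^ 2 / c) * ((Cv 2 (Z / 32)).card : ℝ) := by ring
    _ ≤ _ := by
        rw [add_mul]
        linarith

/-- a property with positive lower density for the height has positive lower density for the minimal
discriminant -/
theorem disc_of_height (P : ℤ × ℤ → Prop) [DecidablePred P] (h : ∃ c : ℝ, 0 < c ∧ ∃ H0 : ℕ, ∀ H : ℕ, H0 ≤ H →
      c * ((Cv 2 H).card : ℝ) ≤ (((Cv 2 H).filter P).card : ℝ)) :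
    ∃ c : ℝ, 0 < c ∧ ∃ Z0 : ℕ, ∀ Z : ℕ, Z0 ≤ Z →
      c * ((Dv Z).card : ℝ) ≤ (((Dv Z).filter P).card : ℝ) := by
  obtain ⟨c, hc, H0, h⟩ := h
  obtain ⟨C, hC, Z0, hZ⟩ := dv_cv
  have hfin : ∀ Z, (DvS 2 Z).Finite := Pool.Agent.TH344.DS.excd.1
  refine ⟨c / C, by positivity, max Z0 (32 * H0), fun Z hZ0 => ?_⟩
  have h1 := hZ Z (le_trans (le_max_left _ _) hZ0)
  have h2 := h (Z / 32) (by
    rw [Nat.le_div_iff_mul_le (by norm_num)]
    have := le_trans (le_max_right _ _) hZ0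
    omega)
  have h3 : ((Cv 2 (Z / 32)).filter P).card ≤ ((Dv Z).filter P).card := by
    apply card_le_card
    apply filter_subset_filter
    rw [← coe_subset, coe_Dv hfin]
    exact Cv_sub Pool.Agent.W554.RS.mdl 2 (Z / 32) Z (Nat.mul_div_le Z 32)
  have h3' : (((Cv 2 (Z / 32)).filter P).card : ℝ) ≤ (((Dv Z).filter P).card : ℝ) := by
    exact_mod_cast h3
  calc c / C * ((Dv Z).card : ℝ) ≤ c / C * (C * ((Cv 2 (Z / 32)).card : ℝ)) :=
        mul_le_mul_of_nonneg_left h1 (by positivity)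
    _ = c * ((Cv 2 (Z / 32)).card : ℝ) := by field_simp
    _ ≤ _ := h2.trans h3'

end Pool.Agent.Y667.RP
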