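import Pool.Agent.Y667.RP.Defs

/-!
# Project RP (helper667): statements of the parts

Every `St_X` is the statement of one part.
-/

set_option autoImplicit false

namespace Pool.Agent.Y667.RP

open Finset Filter Pool.Agent.W262.RK Pool.Agent.W307.RT Pool.Agent.W307.RS Pool.Agent.W307.SE
  Pool.Agent.W307.FK

/-- **EE** (weighted mean of the discrepancies). -/
def St_EE : Prop := ∀ (C U : ℕ) (δ : ℝ), 0 < δ → ∃ x0 : ℕ, ∀ x : ℕ, x0 ≤ x → ∀ D : ℕ,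
  (D : ℝ) ≤ (x : ℝ) ^ (1 - δ) →
  ∑ Q ∈ Icc 1 D, (Q.divisors.card : ℝ) ^ C / Q * ee x Q ≤ x / Real.log x ^ U

/-- **BC** (few bad quadratic characters). -/
def St_BC : Prop := ∃ c : ℝ, 0 < c ∧ ∀ η : ℝ, 0 < η → ∃ Y0 : ℕ, ∀ Y : ℕ, Y0 ≤ Y →
  ∀ S : Finset ℕ, (∀ f ∈ S, Odd f ∧ Squarefree f ∧ f ^ 4 ≤ Y ∧ Bad c Y f) →
    ∑ f ∈ S, (3 : ℝ) ^ f.primeFactors.card / f ≤ η

/-- **CNT** (the number of the pairs, pointwise in the modulus). -/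
def St_CNT : Prop := ∀ (X Q0 a0 b0 q : ℕ) (s : Fin 3 → ℕ) (E : Finset ℕ), 2 ∣ Q0 → Q0 ≠ 0 →
  a0.Coprime Q0 → b0.Coprime Q0 → (∀ j, (s j).Coprime Q0) → Squarefree (∏ j, s j) →
  E ⊆ (∏ j, s j).primeFactors → 1 ≤ q → q.Coprime (Q0 * (s 0 * s 1)) →
  8 * (s 0 * s 1) * (s 2 * q) ≤ X →
    |cA X Q0 a0 b0 s E q - mA X Q0 s * (((s 2).totient : ℝ) / ((s 2 * q).totient : ℝ))| ≤
      er X Q0 s q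

/-- **ERR** (the sum of the error terms). -/
def St_ERR : Prop := ∀ Q0 C U : ℕ, Q0 ≠ 0 → ∃ X0 : ℕ, ∀ X : ℕ, X0 ≤ X →
  ∑ s0 ∈ Icc 1 ⌊(X : ℝ) ^ (1 / 2000 : ℝ)⌋₊, ∑ s1 ∈ Icc 1 ⌊(X : ℝ) ^ (1 / 2000 : ℝ)⌋₊,
    ∑ r ∈ Icc 1 ⌊(X : ℝ) ^ (993 / 1000 : ℝ)⌋₊, ∑ s2 ∈ r.divisors,
      ((s0 * s1 * r).divisors.card : ℝ) ^ C * er X Q0 ![s0, s1, s2] (r / s2) ≤
    (X : ℝ) ^ 2 / Real.log X ^ U

open Classical in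
/-- **SV** (weighted linear sieve). -/
def St_SV : Prop := ∃ (A0 : ℝ) (C0 : ℕ), 0 < A0 ∧ ∀ z : ℕ, C0 ≤ z → ∀ η : ℝ, 0 < η →
  ∃ ε₁ : ℝ, 0 < ε₁ ∧ ε₁ ≤ 1 / 8 ∧ ∃ N0 : ℕ, ∀ N : ℕ, N0 ≤ N →
  ∀ (ι : Type) (Ω : Finset ι) (v : ι → ℕ) (g : ℕ → ℝ) (A : ℝ) (S : ℕ), 0 ≤ A → S ≠ 0 → S ≤ N →
  (∀ p : ℕ, p.Prime → z < p → 0 ≤ g p ∧ g p ≤ 1 / ((p : ℝ) - 1) ∧
    (¬ p ∣ S → g p = 1 / ((p : ℝ) - 1))) →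
  (ε₁ * (A * ∏ p ∈ (Ioc z N).filter (fun p : ℕ => p.Prime ∧ (p : ℝ) < (N : ℝ) ^ ε₁), (1 - g p)) *
      (A0 * (50 / 49 * (Real.log (73 / 25) - 13 / 25 * Real.log (97 / 25))) - η) -
      Real.log N * ∑ q ∈ Lev z ((N : ℝ) ^ (99 / 100 : ℝ)), Rq Ω v g A q ≤
    ∑ i ∈ Ω.filter (fun i => RR N z (v i)), Wt N (v i)) ∧
  ∀ τ : ℝ, 9 / 20 ≤ τ → τ ≤ 3 / 4 →
    ((Ω.filter (fun i => RR N z (v i))).card : ℝ) ≤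
      ε₁ * (A * ∏ p ∈ (Ioc z N).filter (fun p : ℕ => p.Prime ∧ (p : ℝ) < (N : ℝ) ^ ε₁), (1 - g p)) *
        (A0 / τ + η) +
      Real.log N * ∑ q ∈ Lev z ((N : ℝ) ^ (τ + 1 / 100)), Rq Ω v g A q

/-- **KILL** (a prime with a nontrivial symbol kills at least half of the classes). -/
def St_KILL : Prop := ∀ (s : Fin 3 → ℕ) (E E' : Finset ℕ) (w : ℤ × ℤ) (p : ℕ) (j : Fin 3),
  Squarefree (∏ j, s j) → Odd (∏ j, s j) → w ∈ V0 s E → p.Prime → p ≠ 2 → ¬ p ∣ ∏ j, s j →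
  E' ∩ (∏ j, s j).primeFactors = E ∩ (∏ j, s j).primeFactors →
  phi j (sgn p w.1) (sgn p w.2) = true →
    V0 (Function.update s j (s j * p)) E' ⊆ V0 s E ∧
    2 * (V0 (Function.update s j (s j * p)) E').ncard ≤ (V0 s E).ncard

/-- **ONE** (at most one of the two signs gives a new class). -/
def St_ONE : Prop := ∀ (s : Fin 3 → ℕ) (E E' : Finset ℕ) (p : ℕ) (j : Fin 3),
  Squarefree (∏ j, s j) → Odd (∏ j, s j) → p.Prime → p ≠ 2 → ¬ p ∣ ∏ j, s j →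
  E ∩ (∏ j, s j).primeFactors = E' ∩ (∏ j, s j).primeFactors → p ∈ E → p ∉ E' →
  V0 s E = {(1, 1)} →
    V0 (Function.update s j (s j * p)) E = {(1, 1)} ∨
    V0 (Function.update s j (s j * p)) E' = {(1, 1)}

/-- **V0N** (finite, and bounded by the local count). -/
def St_V0N : Prop := ∀ (s : Fin 3 → ℕ) (E : Finset ℕ), Squarefree (∏ j, s j) →
  Odd (∏ j, s j) → (V0 s E).Finite ∧ (V0 s E).ncard ≤ 4 * NL (∏ j, s j) (LF s E)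

/-- **SEL** (the Selmer group of the good pairs). -/
def St_SEL : Prop := ∀ (a b : ℤ) (s : Fin 3 → ℕ) (m n l : ℕ), m.Prime → n.Prime → l.Prime →
  m ≠ n → m ≠ l → n ≠ l → Squarefree (∏ j, s j) → Odd (∏ j, s j) →
  m ≠ 2 → n ≠ 2 → l ≠ 2 → ¬ m ∣ ∏ j, s j → ¬ n ∣ ∏ j, s j → ¬ l ∣ ∏ j, s j →
  a = s 0 * m → b = s 1 * n → a - b = 32 * (s 2 * l) → a % 8 = 1 → b % 8 = 1 →
  V0 s (sgF a b (∏ j, s j)) = {(1, 1)} → (Sel a b).Finite ∧ (Sel a b).ncard ≤ 8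

/-- **RK2** (rank and the order of the 2-Selmer group). -/
def St_RK2 : Prop := ∀ A B e1 e2 e3 : ℤ, 4 * A ^ 3 + 27 * B ^ 2 ≠ 0 →
  (∀ x : ℤ, x ^ 3 + A * x + B = (x - e1) * (x - e2) * (x - e3)) → (SelR A B).Finite →
    1 ≤ Module.finrank ℤ (Sh A B).toAffine.Point →
    2 ^ (Module.finrank ℤ (Sh A B).toAffine.Point + 2) ≤ (SelR A B).ncard

/-- **MS1** (the measure of the base data). -/
def St_MS1 : Prop := ∃ z0 : ℕ, ∀ z : ℕ, z0 ≤ z → ∃ c C : ℝ, 0 < c ∧ ∃ y0 : ℕ, ∀ y : ℕ, y0 ≤ y →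
  c * Real.log y ^ 3 ≤ ∑ s ∈ Tup (Fin 3) z y, ∏ j, 1 / (s j : ℝ) ∧
  ∑ s ∈ Tup (Fin 3) z y, ∏ j, 1 / (s j : ℝ) ≤ C * Real.log y ^ 3 ∧
  (∀ u : ℝ, 0 < u → ∑ s ∈ (Tup (Fin 3) z y).filter (fun s => ∃ j, (y : ℝ) ^ u < s j),
    ∏ j, 1 / (s j : ℝ) ≤ C * Real.exp (-u) * Real.log y ^ 3) ∧
  (∑ s ∈ Tup (Fin 3) z y, mu s * ∑ E ∈ (∏ j, s j).primeFactors.powerset,
    (NL (∏ j, s j) (LF s E) : ℝ) ≤ C * Real.log y ^ 3) ∧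
  (∀ f : ℕ, 1 ≤ f → ∑ s ∈ (Tup (Fin 3) z y).filter (fun s => f ∣ ∏ j, s j),
    ∏ j, 1 / (s j : ℝ) ≤ C * ((3 : ℝ) ^ f.primeFactors.card / f) * Real.log y ^ 3)

open Classical in
/-- **GD** (a positive proportion of the data has no class). -/
def St_GD : Prop := ∃ z0 : ℕ, ∀ z : ℕ, z0 ≤ z → ∀ κ : ℝ, 0 < κ → ∃ c : ℝ, 0 < c ∧
  ∃ X0 : ℕ, ∀ X : ℕ, X0 ≤ X →
    c * Real.log X ^ 3 ≤ ∑ s ∈ Trip z ((X : ℝ) ^ κ), mu s *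
      (((∏ j, s j).primeFactors.powerset.filter (fun E => V0 s E = {(1, 1)})).card : ℝ)

open Classical in
/-- The good pairs `(a, b)` of size `X`. -/
def GoodP (X : ℕ) (t : ℕ × ℕ) : Prop :=
  X < 2 * t.1 ∧ t.1 ≤ X ∧ X < 8 * t.2 ∧ 4 * t.2 ≤ X ∧ t.1 % 3 = 1 ∧ t.2 % 3 = 2 ∧
    Nat.Coprime t.1 t.2 ∧ (Sel (t.1 : ℤ) (t.2 : ℤ)).Finite ∧ (Sel (t.1 : ℤ) (t.2 : ℤ)).ncard ≤ 8

open Classical in
/-- **MAIN** (many good pairs). -/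
def St_MAIN : Prop := ∃ c : ℝ, 0 < c ∧ ∃ X0 : ℕ, ∀ X : ℕ, X0 ≤ X →
  c * (X : ℝ) ^ 2 ≤ (((Icc 1 X ×ˢ Icc 1 X).filter (GoodP X)).card : ℝ)

open Classical in
/-- **CV** (from pairs to curves). -/
def St_CV : Prop := (∃ c : ℝ, 0 < c ∧ ∃ X0 : ℕ, ∀ X : ℕ, X0 ≤ X →
    c * (X : ℝ) ^ 2 ≤ (((Icc 1 X ×ˢ Icc 1 X).filter (GoodP X)).card : ℝ)) →
  ∃ c : ℝ, 0 < c ∧ ∃ H0 : ℕ, ∀ H : ℕ, H0 ≤ H →
    c * ((Cv 2 H).card : ℝ) ≤ (((Cv 2 H).filter (fun k : ℤ × ℤ => (SelR k.1 k.2).Finite ∧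
      (SelR k.1 k.2).ncard ≤ 8)).card : ℝ)

end Pool.Agent.Y667.RP
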