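import Mathlib
import Pool.Agent.W307.FK.Stm
import Pool.Agent.H343R2.EH.Defs

/-!
# Project RP (helper667), problems MP_6073f3_nt and MP_157626_nt: definitions

A positive proportion of the elliptic curves with full rational 2-torsion has a 2-Selmer group of
order at most 8, hence rank at most one.

Data: `s = (s 0, s 1, s 2)` (products of the small primes of `A`, `B`, `A - B`) and the set `E` of the
primes of `∏ s` with negative sign. `V0 s E` is the group of the Selmer classes supported on `2` and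
the primes of `∏ s` which satisfy the local conditions at the primes of `∏ s`, at `2` and at
infinity.
-/

set_option autoImplicit false

namespace Pool.Agent.Y667.RP

open Finset Pool.Agent.W262.RK Pool.Agent.W307.RT Pool.Agent.W307.RS Pool.Agent.W307.SE
  Pool.Agent.W307.FK

/-- the discrepancy of the primes up to `x` modulo `Q`, summed over the reduced classes -/
noncomputable def ee (x Q : ℕ) : ℝ :=
  ∑ a ∈ (range Q).filter (fun a => a.Coprime Q),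
    |H343E.piAP x Q a - H343E.pi1 x / (Q.totient : ℝ)|

/-- one of the quadratic symbols `D = ± f, ± 2 f`, `D ≠ 1`, takes the value `-1` on too few of the
primes of `(Y, Y ^ 2]` -/
def Bad (c : ℝ) (Y f : ℕ) : Prop :=
  ∃ D : ℤ, (D = f ∨ D = -f ∨ D = 2 * f ∨ D = -(2 * f)) ∧ D ≠ 1 ∧
    ∑ p ∈ (Ioc Y (Y ^ 2)).filter (fun p : ℕ => p.Prime ∧ jacobiSym D p = -1), (1 : ℝ) / p < c

/-- the pairs of primes `(m, n)` with `X / 2 < a = s 0 m ≤ X`, `X / 8 < b = s 1 n ≤ X / 4`, `a`, `b` in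
the classes `a0`, `b0` modulo `Q0`, `s 2 ∣ a - b`, and with the signs `E` at the primes of `∏ s` -/
noncomputable def AA (X Q0 a0 b0 : ℕ) (s : Fin 3 → ℕ) (E : Finset ℕ) : Finset (ℕ × ℕ) :=
  (Icc 1 X ×ˢ Icc 1 X).filter (fun t => t.1.Prime ∧ t.2.Prime ∧
    X < 2 * (s 0 * t.1) ∧ s 0 * t.1 ≤ X ∧ X < 8 * (s 1 * t.2) ∧ 4 * (s 1 * t.2) ≤ X ∧
    s 0 * t.1 ≡ a0 [MOD Q0] ∧ s 1 * t.2 ≡ b0 [MOD Q0] ∧ s 2 ∣ s 0 * t.1 - s 1 * t.2 ∧
    sgF ((s 0 * t.1 : ℕ) : ℤ) ((s 1 * t.2 : ℕ) : ℤ) (∏ j, s j) = E)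

/-- the number of the pairs with `s 2 q ∣ a - b` -/
noncomputable def cA (X Q0 a0 b0 : ℕ) (s : Fin 3 → ℕ) (E : Finset ℕ) (q : ℕ) : ℝ :=
  (((AA X Q0 a0 b0 s E).filter (fun t => s 2 * q ∣ s 0 * t.1 - s 1 * t.2)).card : ℝ)

/-- the number of the primes `m` with `X / 2 < s0 m ≤ X` -/
noncomputable def pM (X s0 : ℕ) : ℝ := H343E.pi1 (X / s0) - H343E.pi1 (X / (2 * s0))

/-- the number of the primes `n` with `X / 8 < s1 n ≤ X / 4` -/
noncomputable def pN (X s1 : ℕ) : ℝ := H343E.pi1 (X / (4 * s1)) - H343E.pi1 (X / (8 * s1))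

/-- the main term is `mA * (φ(s 2) / φ(s 2 q))` -/
noncomputable def mA (X Q0 : ℕ) (s : Fin 3 → ℕ) : ℝ :=
  pM X (s 0) * pN X (s 1) / (2 ^ (∏ j, s j).primeFactors.card * (Q0.totient : ℝ) ^ 2 *
    ((s 2).totient : ℝ))

/-- the error term -/
noncomputable def er (X Q0 : ℕ) (s : Fin 3 → ℕ) (q : ℕ) : ℝ :=
  ((X : ℝ) / (s 1 * s 2 * q) + 1) *
      ∑ t ∈ (s 1).divisors, (ee (X / s 0) (Q0 * (s 2 * q) * t) + ee (X / (2 * s 0)) (Q0 * (s 2 * q) * t)) +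
    ((X : ℝ) / s 0) / ((s 2 * q).totient : ℝ) *
      ∑ t ∈ (s 0 * s 2).divisors, (ee (X / (4 * s 1)) (Q0 * t) + ee (X / (8 * s 1)) (Q0 * t))

/-- the Selmer classes supported on `2` and the primes of `∏ s` -/
def V0 (s : Fin 3 → ℕ) (E : Finset ℕ) : Set (ℤ × ℤ) :=
  {d | Squarefree d.1 ∧ Squarefree d.2 ∧ 0 < d.1 ∧ d.1 % 8 = 1 ∧
    (∀ q : ℕ, q.Prime → (q : ℤ) ∣ d.1 → q ∣ ∏ j, s j) ∧
    (∀ q : ℕ, q.Prime → (q : ℤ) ∣ d.2 → q ∣ 2 * ∏ j, s j) ∧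
    ∀ p ∈ (∏ j, s j).primeFactors, LF s E p (dv p d.1) (dv p d.2) (sgn p d.1) (sgn p d.2)}

/-- the triples of squarefree pairwise coprime integers `≤ B`, with all the prime factors in
`(z, B]` -/
noncomputable def Trip (z : ℕ) (B : ℝ) : Finset (Fin 3 → ℕ) :=
  (Tup (Fin 3) z ⌊B⌋₊).filter (fun s => ∀ j, (s j : ℝ) ≤ B)

/-- the measure -/
noncomputable def mu (s : Fin 3 → ℕ) : ℝ :=
  (1 / 2) ^ (∏ j, s j).primeFactors.card * ∏ j, 1 / (s j : ℝ)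

/-- no prime `p > z`, `p < N ^ (1/4)`, divides `n` -/
def RR (N z n : ℕ) : Prop := ∀ p : ℕ, p.Prime → z < p → (p : ℝ) < (N : ℝ) ^ (1 / 4 : ℝ) → ¬ p ∣ n

/-- squarefree moduli up to `D` with all the prime factors `> z` -/
noncomputable def Lev (z : ℕ) (D : ℝ) : Finset ℕ :=
  (Icc 1 ⌊D⌋₊).filter (fun q => Squarefree q ∧ ∀ p ∈ q.primeFactors, z < p)

/-- the remainder -/
noncomputable def Rq {ι : Type} (Ω : Finset ι) (v : ι → ℕ) (g : ℕ → ℝ) (A : ℝ) (q : ℕ) : ℝ :=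
  |((Ω.filter (fun i => q ∣ v i)).card : ℝ) - A * ∏ p ∈ q.primeFactors, g p|

open Classical in
/-- the Richert weight -/
noncomputable def Wt (N n : ℕ) : ℝ :=
  1 - 13 / 25 * ∑ q ∈ (Icc 1 N).filter (fun q : ℕ => q.Prime ∧ (N : ℝ) ^ (1 / 4 : ℝ) ≤ q ∧
    (q : ℝ) < (N : ℝ) ^ (97 / 100 : ℝ) ∧ q ∣ n), (1 - Real.log q / Real.log N / (97 / 100))

end Pool.Agent.Y667.RP
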