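import Pool.Agent.Y667.RP.Main
import Pool.Agent.Y660.RP.SV6
import Pool.Agent.Y153.RP.CNT
import Pool.Agent.Y678.RP.GD
import Pool.Agent.Y515.RP.EE
import Pool.Agent.Y515.RP.BC
import Pool.Agent.Y515.RP.ERR
import Pool.Agent.Y535.RP.MS1
import Pool.Agent.Y155.RP.RK2
import Pool.Agent.Y285.RP.CV

/-!
# Project RP: the positive proportion of the curves with small Selmer group
-/

set_option autoImplicit false

namespace Pool.Agent.Y667.RP

open Finset Filter Pool.Agent.W262.RK Pool.Agent.W307.RT Pool.Agent.W307.RS Pool.Agent.W307.SE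
  Pool.Agent.W307.FK

theorem main_pairs : St_MAIN :=
  MAIN Pool.Agent.Y660.RP.SV Pool.Agent.Y153.RP.CNT (Pool.Agent.Y515.RP.ERR Pool.Agent.Y515.RP.EE)
    (Pool.Agent.Y678.RP.GD Pool.Agent.Y535.RP.MS1 (Pool.Agent.Y515.RP.BC Pool.Agent.Y515.RP.EE)
      KILL V0N)

open Classical in
theorem curves : ∃ c : ℝ, 0 < c ∧ ∃ H0 : ℕ, ∀ H : ℕ, H0 ≤ H →
    c * ((Cv 2 H).card : ℝ) ≤ (((Cv 2 H).filter (fun k : ℤ × ℤ => (SelR k.1 k.2).Finite ∧
      (SelR k.1 k.2).ncard ≤ 8)).card : ℝ) :=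
  Pool.Agent.Y285.RP.CV main_pairs

end Pool.Agent.Y667.RP
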