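import Pool.Agent.Y667.RP.Stm
import Pool.Agent.W612.SE.Seld

/-!
# Project RP: the group law on the classes
-/

set_option autoImplicit false

namespace Pool.Agent.Y667.RP

open Finset Pool.Agent.W262.RK Pool.Agent.W307.RT Pool.Agent.W307.RS Pool.Agent.W307.SE
  Pool.Agent.W307.FK Pool.Agent.W214.RK2

/-- the product of two squarefree integers modulo squares -/
def sp (a b : ℤ) : ℤ := (a / (Int.gcd a b : ℤ)) * (b / (Int.gcd a b : ℤ))

lemma sp_dec (a b : ℤ) (ha : Squarefree a) : ∃ g a' b' : ℤ, 0 < g ∧ a = g * a' ∧ b = g * b' ∧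
    IsCoprime a' b' ∧ sp a b = a' * b' := by
  have hg : (Int.gcd a b : ℤ) ≠ 0 := by
    have : Int.gcd a b ≠ 0 := by
      rw [Ne, Int.gcd_eq_zero_iff]
      rintro ⟨h, -⟩
      exact ha.ne_zero h
    exact_mod_cast this
  have hgp : (0 : ℤ) < (Int.gcd a b : ℤ) := by
    have : (0 : ℤ) ≤ (Int.gcd a b : ℤ) := Int.natCast_nonneg _
    omega
  refine ⟨Int.gcd a b, a / Int.gcd a b, b / Int.gcd a b, hgp, ?_, ?_, ?_, rfl⟩
  · exact (Int.mul_ediv_cancel' (Int.gcd_dvd_left ..)).symm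
  · exact (Int.mul_ediv_cancel' (Int.gcd_dvd_right ..)).symm
  · rw [Int.isCoprime_iff_gcd_eq_one]
    have h1 : 0 < Int.gcd a b := by exact_mod_cast hgp
    exact Int.gcd_div_gcd_div_gcd h1

lemma sp_sqf {a b : ℤ} (ha : Squarefree a) (hb : Squarefree b) : Squarefree (sp a b) := by
  obtain ⟨g, a', b', hg, h1, h2, h3, h4⟩ := sp_dec a b ha
  rw [h4]
  have ha' : Squarefree a' := ha.squarefree_of_dvd (by rw [h1]; exact dvd_mul_left _ _)
  have hb' : Squarefree b' := hb.squarefree_of_dvd (by rw [h2]; exact dvd_mul_left _ _)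
  rw [squarefree_mul_iff]
  exact ⟨h3.isRelPrime, ha', hb'⟩

lemma sp_sq {a b : ℤ} (ha : Squarefree a) : IsSquare (a * b * sp a b) := by
  obtain ⟨g, a', b', hg, h1, h2, h3, h4⟩ := sp_dec a b ha
  refine ⟨g * a' * b', ?_⟩
  rw [h4, h1, h2]
  ring

lemma sp_pos {a b : ℤ} (ha : Squarefree a) (h1 : 0 < a) (h2 : 0 < b) : 0 < sp a b := by
  obtain ⟨g, a', b', hg, e1, e2, h3, h4⟩ := sp_dec a b ha
  rw [h4]
  rw [e1] at h1
  rw [e2] at h2
  have h5 : 0 < a' := (mul_pos_iff_of_pos_left hg).1 h1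
  have h6 : 0 < b' := (mul_pos_iff_of_pos_left hg).1 h2
  exact mul_pos h5 h6

lemma sp_dvd {a b : ℤ} (ha : Squarefree a) {q : ℕ} (hq : q.Prime) (h : (q : ℤ) ∣ sp a b) :
    (q : ℤ) ∣ a ∨ (q : ℤ) ∣ b := by
  obtain ⟨g, a', b', hg, e1, e2, h3, h4⟩ := sp_dec a b ha
  rw [h4] at h
  rcases (Nat.prime_iff_prime_int.mp hq).dvd_or_dvd h with h | h
  · left; rw [e1]; exact dvd_mul_of_dvd_right h _
  · right; rw [e2]; exact dvd_mul_of_dvd_right h _

lemma sp_mod {a b : ℤ} (ha : Squarefree a) (h1 : a % 8 = 1) (h2 : b % 8 = 1) :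
    sp a b % 8 = 1 := by
  obtain ⟨g, a', b', hg, e1, e2, h3, h4⟩ := sp_dec a b ha
  rw [h4]
  have h5 : (a * b) % 8 = 1 := by rw [Int.mul_emod, h1, h2]; norm_num
  have h6 : a * b = g ^ 2 * (a' * b') := by rw [e1, e2]; ring
  rw [h6, Int.mul_emod] at h5
  have h7 : g ^ 2 % 8 = 0 ∨ g ^ 2 % 8 = 1 ∨ g ^ 2 % 8 = 4 := by
    rw [pow_two, Int.mul_emod]
    have : g % 8 = 0 ∨ g % 8 = 1 ∨ g % 8 = 2 ∨ g % 8 = 3 ∨ g % 8 = 4 ∨ g % 8 = 5 ∨ g % 8 = 6 ∨
      g % 8 = 7 := by omega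
    rcases this with h | h | h | h | h | h | h | h <;> rw [h] <;> norm_num
  rcases h7 with h | h | h
  · rw [h] at h5; omega
  · rw [h] at h5; omega
  · rw [h] at h5; omega

lemma sp_dv {a b : ℤ} (ha : Squarefree a) (hb : Squarefree b) (p : ℕ) (hp : p.Prime) :
    dv p (sp a b) = xor (dv p a) (dv p b) ∧ sgn p (sp a b) = xor (sgn p a) (sgn p b) :=
  key p hp a b _ ha hb (sp_sqf ha hb) (sp_sq ha)

lemma eq_of_sp_one {a b : ℤ} (ha : Squarefree a) (h : sp a b = 1) : a = b := by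
  obtain ⟨g, a', b', hg, e1, e2, h3, h4⟩ := sp_dec a b ha
  rw [h4] at h
  rcases Int.mul_eq_one_iff_eq_one_or_neg_one.1 h with ⟨h5, h6⟩ | ⟨h5, h6⟩ <;> rw [e1, e2, h5, h6]

lemma sp_self {a : ℤ} (ha : Squarefree a) : sp a a = 1 := by
  unfold sp
  rw [Int.gcd_self]
  have h0 := ha.ne_zero
  rcases lt_or_gt_of_ne h0 with h | h
  · have : ((a.natAbs : ℕ) : ℤ) = -a := by omega
    rw [this, Int.ediv_neg, Int.ediv_self h0]
    norm_num
  · have : ((a.natAbs : ℕ) : ℤ) = a := by omega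
    rw [this, Int.ediv_self h0]
    norm_num

/-- cancellation -/
lemma sp_inj {a b c : ℤ} (ha : Squarefree a) (hb : Squarefree b) (hc : Squarefree c)
    (h : sp a b = sp a c) : b = c := by
  have h1 := sp_sq (b := b) ha
  have h2 := sp_sq (b := c) ha
  have hs := sp_sqf ha hb
  -- `b c` is a square up to squares
  have h3 : IsSquare (b * c) := by
    obtain ⟨r, hr⟩ := h1.mul h2
    rw [← h] at hr
    -- (a b s)(a c s) = r²
    have h0 : a * sp a b ≠ 0 := mul_ne_zero ha.ne_zero hs.ne_zero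
    have h4 : (a * sp a b) ^ 2 * (b * c) = r ^ 2 := by rw [pow_two r, ← hr]; ring
    have h5 : (a * sp a b) ∣ r := by
      have : (a * sp a b) ^ 2 ∣ r ^ 2 := ⟨_, h4.symm⟩
      exact (Int.pow_dvd_pow_iff (by norm_num)).1 this
    obtain ⟨t, rfl⟩ := h5
    refine ⟨t, ?_⟩
    have h6 : (a * sp a b) ^ 2 * (b * c) = (a * sp a b) ^ 2 * (t * t) := by rw [h4]; ring
    exact mul_left_cancel₀ (pow_ne_zero 2 h0) h6
  apply eq_of_sp_one hb
  obtain ⟨g, b', c', hg, e1, e2, h7, h8⟩ := sp_dec b c hb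
  rw [h8]
  have h9 : IsSquare (b' * c') := by
    obtain ⟨r, hr⟩ := h3
    rw [e1, e2] at hr
    have h10 : g ^ 2 * (b' * c') = r ^ 2 := by rw [pow_two r, ← hr]; ring
    have h11 : g ∣ r := by
      have : g ^ 2 ∣ r ^ 2 := ⟨_, h10.symm⟩
      exact (Int.pow_dvd_pow_iff (by norm_num)).1 this
    obtain ⟨t, rfl⟩ := h11
    refine ⟨t, ?_⟩
    have h12 : g ^ 2 * (b' * c') = g ^ 2 * (t * t) := by rw [h10]; ring
    exact mul_left_cancel₀ (pow_ne_zero 2 hg.ne') h12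
  have h13 : Squarefree (b' * c') := by
    have := sp_sqf hb hc
    rwa [h8] at this
  obtain ⟨t, ht⟩ := h9
  have h14 := h13 t (by rw [ht])
  rw [Int.isUnit_iff] at h14
  rw [ht]
  rcases h14 with h | h <;> rw [h] <;> norm_num

end Pool.Agent.Y667.RP
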