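import Pool.Agent.Y667.RP.Recip

/-!
# Project RP: a new prime with a nontrivial symbol kills half of the classes
-/

set_option autoImplicit false

namespace Pool.Agent.Y667.RP

open Finset Pool.Agent.W262.RK Pool.Agent.W307.RT Pool.Agent.W307.RS Pool.Agent.W307.SE
  Pool.Agent.W307.FK Pool.Agent.W214.RK2

lemma upd_prod (s : Fin 3 → ℕ) (j : Fin 3) (p : ℕ) :
    ∏ l, Function.update s j (s j * p) l = (∏ l, s l) * p := by
  rw [Finset.prod_update_of_mem (mem_univ j),
    Finset.prod_eq_mul_prod_sdiff_singleton_of_mem (mem_univ j) s]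
  ring

lemma upd_dvd {s : Fin 3 → ℕ} {j l : Fin 3} {p q : ℕ} (h : q ∣ s l) :
    q ∣ Function.update s j (s j * p) l := by
  by_cases hl : l = j
  · subst hl
    rw [Function.update_self]
    exact h.mul_right _
  · rw [Function.update_of_ne hl]
    exact h

lemma LF_down {s : Fin 3 → ℕ} {j : Fin 3} {p q : ℕ} {E : Finset ℕ} {v w h g : Bool}
    (hL : LF (Function.update s j (s j * p)) E q v w h g) : LF s E q v w h g :=
  fun l hl => hL l (upd_dvd hl)

lemma LF_new {s : Fin 3 → ℕ} {j : Fin 3} {p : ℕ} {E : Finset ℕ} {v w h g : Bool}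
    (hL : LF (Function.update s j (s j * p)) E p v w h g) : LR j (decide (p ∈ E)) v w h g :=
  hL j (by rw [Function.update_self]; exact dvd_mul_left _ _)

/-- the local symbol, Boolean part -/
def hb (e v h w g : Bool) : Bool := xor (v && g) (xor (w && h) (v && (w && e)))

lemma iso0 : ∀ e neg v h g v' h' g' : Bool, xor h g = (v && neg) → xor h' g' = (v' && neg) →
    xor (hb e v h v' g') (hb e v' h' v g) = false := by decide

lemma iso1 : ∀ e neg v h g v' h' g' : Bool, g = (v && neg) → g' = (v' && neg) →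
    xor (hb e v h false g') (hb e v' h' false g) = false := by decide

lemma iso2 : ∀ e neg w h g w' h' g' : Bool, h = (w && neg) → h' = (w' && neg) →
    xor (hb e false h w' g') (hb e false h' w g) = false := by decide

/-- the local conditions are isotropic -/
lemma iso {c : Fin 3} {e neg v w h g v' w' h' g' : Bool} (h1 : LR c neg v w h g)
    (h2 : LR c neg v' w' h' g') : xor (hb e v h w' g') (hb e v' h' w g) = false := by
  unfold LR at h1 h2
  split_ifs at h1 h2 with h3 h4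
  · obtain ⟨rfl, h1⟩ := h1
    obtain ⟨rfl, h2⟩ := h2
    exact iso0 _ _ _ _ _ _ _ _ h1 h2
  · obtain ⟨rfl, h1⟩ := h1
    obtain ⟨rfl, h2⟩ := h2
    exact iso1 _ _ _ _ _ _ _ _ h1 h2
  · obtain ⟨rfl, h1⟩ := h1
    obtain ⟨rfl, h2⟩ := h2
    exact iso2 _ _ _ _ _ _ _ _ h1 h2

lemma isoN {c : Fin 3} {e neg h g v' w' h' g' : Bool} (hp : phi c h g = true)
    (h2 : LR c neg v' w' h' g')
    (h3 : xor (hb e false h w' g') (hb e v' h' false g) = false) : v' = false ∧ w' = false := by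
  unfold LR at h2
  unfold phi at hp
  split_ifs at h2 hp with h4 h5
  · obtain ⟨rfl, h2⟩ := h2
    revert hp h2 h3
    revert e neg h g v' h' g'
    decide
  · obtain ⟨rfl, h2⟩ := h2
    revert hp h2 h3
    revert e neg h g v' h' g'
    decide
  · obtain ⟨rfl, h2⟩ := h2
    revert hp h2 h3
    revert e neg h g w' h' g'
    decide

lemma hsb_eq (q : ℕ) (x y : ℤ) :
    hsb q x y = hb (sg0 q (-1)) (dv q x) (sgn q x) (dv q y) (sgn q y) := rfl

lemma sg_one {b : Bool} (h : sg b = 1) : b = false := by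
  revert h b; decide

/-- the global pairing gives a relation at the new prime -/
lemma pair {s : Fin 3 → ℕ} {E E' : Finset ℕ} {w d : ℤ × ℤ} {p : ℕ} {j : Fin 3}
    (hs : Squarefree (∏ j, s j)) (hodd : Odd (∏ j, s j)) (hw : w ∈ V0 s E) (hp : p.Prime)
    (hp2 : p ≠ 2) (hps : ¬ p ∣ ∏ j, s j)
    (hE : E' ∩ (∏ j, s j).primeFactors = E ∩ (∏ j, s j).primeFactors)
    (hd : d ∈ V0 (Function.update s j (s j * p)) E') :
    xor (hsb p w.1 d.2) (hsb p d.1 w.2) = false := by
  classical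
  obtain ⟨w1, w2, w3, w4, w5, w6, w7⟩ := hw
  obtain ⟨d1, d2, d3, d4, d5, d6, d7⟩ := hd
  rw [upd_prod] at d5 d6 d7
  have hne : (∏ l, s l) ≠ 0 := hs.ne_zero
  set M := ((∏ l, s l) * p).primeFactors with hM
  have hMp : ∀ q ∈ M, q.Prime ∧ q ≠ 2 := by
    intro q hq
    have hqp := Nat.prime_of_mem_primeFactors hq
    refine ⟨hqp, ?_⟩
    rintro rfl
    rcases (Nat.prime_two.dvd_mul).1 (Nat.dvd_of_mem_primeFactors hq) with h | h
    · exact (Nat.not_even_iff_odd.2 hodd) (even_iff_two_dvd.2 h)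
    · exact hp2 ((Nat.prime_dvd_prime_iff_eq Nat.prime_two hp).1 h).symm
  have hin : ∀ q : ℕ, q.Prime → q ∣ (∏ l, s l) * p → q ∈ M := by
    intro q hq h
    rw [hM, Nat.mem_primeFactors]
    exact ⟨hq, h, mul_ne_zero hne hp.ne_zero⟩
  have h2q : ∀ q : ℕ, q.Prime → q ≠ 2 → ∀ m : ℕ, q ∣ 2 * m → q ∣ m := by
    intro q hq hq2 m h
    rcases (hq.dvd_mul).1 h with h | h
    · exact absurd ((Nat.prime_dvd_prime_iff_eq hq Nat.prime_two).1 h) hq2
    · exact h
  have P1 := prodf (y := d.2) w1 w3 w4 d2 M hMp (by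
    intro q hq hq2 h
    rcases h with h | h
    · exact hin q hq ((w5 q hq h).mul_right _)
    · exact hin q hq (h2q q hq hq2 _ (d6 q hq h)))
  have P2 := prodf (y := w.2) d1 d3 d4 w2 M hMp (by
    intro q hq hq2 h
    rcases h with h | h
    · exact hin q hq (d5 q hq h)
    · exact hin q hq ((h2q q hq hq2 _ (w6 q hq h)).mul_right _))
  have P3 : ∏ q ∈ M, sg (xor (hsb q w.1 d.2) (hsb q d.1 w.2)) = 1 := by
    simp only [sg_xor]
    rw [prod_mul_distrib, P1, P2, one_mul]
  have hpM : p ∈ M := hin p hp (dvd_mul_left _ _)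
  have hrest : ∀ q ∈ M, q ≠ p → sg (xor (hsb q w.1 d.2) (hsb q d.1 w.2)) = 1 := by
    intro q hq hqp
    obtain ⟨hqp', hq2⟩ := hMp q hq
    have hqs : q ∣ ∏ l, s l := by
      rcases (hqp'.dvd_mul).1 (Nat.dvd_of_mem_primeFactors hq) with h | h
      · exact h
      · exact absurd ((Nat.prime_dvd_prime_iff_eq hqp' hp).1 h) hqp
    obtain ⟨l, -, hl⟩ := (hqp'.prime.dvd_finsetProd_iff _).1 hqs
    have hqm : q ∈ (∏ l, s l).primeFactors := Nat.mem_primeFactors.2 ⟨hqp', hqs, hne⟩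
    have L1 := w7 q hqm l hl
    have L2 := (LF_down (d7 q hq)) l hl
    have he : decide (q ∈ E') = decide (q ∈ E) := by
      rw [decide_eq_decide]
      have : q ∈ E' ∩ (∏ j, s j).primeFactors ↔ q ∈ E ∩ (∏ j, s j).primeFactors := by rw [hE]
      rw [mem_inter, mem_inter] at this
      exact ⟨fun h => (this.1 ⟨h, hqm⟩).1, fun h => (this.2 ⟨h, hqm⟩).1⟩
    rw [he] at L2
    rw [hsb_eq, hsb_eq, iso L1 L2]
    rfl
  rw [← mul_prod_erase M _ hpM, prod_eq_one (fun q hq => hrest q (mem_of_mem_erase hq)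
    (ne_of_mem_erase hq)), mul_one] at P3
  exact sg_one P3

lemma V0_restrict {s : Fin 3 → ℕ} {E E' : Finset ℕ} {d : ℤ × ℤ} {p : ℕ} {j : Fin 3}
    (hs : Squarefree (∏ j, s j)) (hp : p.Prime) (hp2 : p ≠ 2)
    (hE : E' ∩ (∏ j, s j).primeFactors = E ∩ (∏ j, s j).primeFactors)
    (hd : d ∈ V0 (Function.update s j (s j * p)) E') (h1 : dv p d.1 = false)
    (h2 : dv p d.2 = false) : d ∈ V0 s E := by
  rw [← V0_congr hE]
  obtain ⟨d1, d2, d3, d4, d5, d6, d7⟩ := hd
  rw [upd_prod] at d5 d6 d7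
  unfold dv at h1 h2
  rw [decide_eq_false_iff_not] at h1 h2
  refine ⟨d1, d2, d3, d4, ?_, ?_, ?_⟩
  · intro q hq h
    rcases (hq.dvd_mul).1 (d5 q hq h) with h' | h'
    · exact h'
    · have : q = p := (Nat.prime_dvd_prime_iff_eq hq hp).1 h'
      subst this
      exact absurd h h1
  · intro q hq h
    have h3 := d6 q hq h
    rw [← mul_assoc] at h3
    rcases (hq.dvd_mul).1 h3 with h' | h'
    · exact h'
    · have : q = p := (Nat.prime_dvd_prime_iff_eq hq hp).1 h'
      subst this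
      exact absurd h h2
  · intro q hq
    refine LF_down (d7 q ?_)
    rw [Nat.mem_primeFactors] at hq ⊢
    exact ⟨hq.1, hq.2.1.mul_right _, mul_ne_zero hs.ne_zero hp.ne_zero⟩

lemma phi_sp {j : Fin 3} {a b c d : Bool} :
    phi j (xor a b) (xor c d) = xor (phi j a c) (phi j b d) := by
  revert j a b c d; decide

lemma LR_phi {c : Fin 3} {neg v w h g : Bool} (hL : LR c neg v w h g) :
    phi c h g = ((v || w) && neg) := by
  unfold LR at hL
  unfold phi
  split_ifs at hL ⊢ with h0 h1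
  · obtain ⟨rfl, hL⟩ := hL
    rw [hL]; simp
  · obtain ⟨rfl, hL⟩ := hL
    rw [hL]; simp
  · obtain ⟨rfl, hL⟩ := hL
    rw [hL]; simp

theorem KILL : St_KILL := by
  classical
  intro s E E' w p j hs hodd hw hp hp2 hps hE hphi
  have hmem : p ∈ ((∏ l, s l) * p).primeFactors :=
    Nat.mem_primeFactors.2 ⟨hp, dvd_mul_left _ _, mul_ne_zero hs.ne_zero hp.ne_zero⟩
  have hwp1 : dv p w.1 = false := by
    unfold dv
    rw [decide_eq_false_iff_not]
    exact fun h => hps (hw.2.2.2.2.1 p hp h)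
  have hwp2 : dv p w.2 = false := by
    unfold dv
    rw [decide_eq_false_iff_not]
    intro h
    rcases (hp.dvd_mul).1 (hw.2.2.2.2.2.1 p hp h) with h | h
    · exact hp2 ((Nat.prime_dvd_prime_iff_eq hp Nat.prime_two).1 h)
    · exact hps h
  have hnew : ∀ d ∈ V0 (Function.update s j (s j * p)) E',
      (dv p d.1 = false ∧ dv p d.2 = false) ∧ phi j (sgn p d.1) (sgn p d.2) = false := by
    intro d hd
    have h1 := pair hs hodd hw hp hp2 hps hE hd
    have h2 : LR j (decide (p ∈ E')) (dv p d.1) (dv p d.2) (sgn p d.1) (sgn p d.2) := by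
      have h3 := hd.2.2.2.2.2.2
      rw [upd_prod] at h3
      exact LF_new (h3 p hmem)
    rw [hsb_eq, hsb_eq, hwp1, hwp2] at h1
    have h4 := isoN hphi h2 h1
    refine ⟨h4, ?_⟩
    rw [LR_phi h2, h4.1, h4.2]
    rfl
  have hsub : V0 (Function.update s j (s j * p)) E' ⊆ V0 s E := by
    intro d hd
    exact V0_restrict hs hp hp2 hE hd (hnew d hd).1.1 (hnew d hd).1.2
  refine ⟨hsub, ?_⟩
  have hfin : (V0 s E).Finite := (V0N s E hs hodd).1
  have hfin' : (V0 (Function.update s j (s j * p)) E').Finite := hfin.subset hsub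
  set A' := V0 (Function.update s j (s j * p)) E' with hA'
  have hinj : Set.InjOn (sp2 w) A' := by
    intro d hd e he h
    have hd' := hsub hd
    have he' := hsub he
    unfold sp2 at h
    rw [Prod.mk.injEq] at h
    exact Prod.ext (sp_inj hw.1 hd'.1 he'.1 h.1) (sp_inj hw.2.1 hd'.2.1 he'.2.1 h.2)
  have hdisj : Disjoint A' (sp2 w '' A') := by
    rw [Set.disjoint_left]
    rintro x hx ⟨d, hd, rfl⟩
    have h1 := (hnew _ hx).2
    have hd' := hsub hd
    have e1 := (sp_dv hw.1 hd'.1 p hp).2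
    have e2 := (sp_dv hw.2.1 hd'.2.1 p hp).2
    unfold sp2 at h1
    simp only [e1, e2] at h1
    rw [phi_sp, hphi, (hnew d hd).2] at h1
    exact absurd h1 (by decide)
  have hunion : A' ∪ sp2 w '' A' ⊆ V0 s E := by
    rintro x (hx | ⟨d, hd, rfl⟩)
    · exact hsub hx
    · exact V0_mul hw (hsub hd)
  have h1 := Set.ncard_le_ncard hunion hfin
  rw [Set.ncard_union_eq hdisj hfin' (hfin'.image _), Set.ncard_image_of_injOn hinj] at h1
  omega

theorem ONE : St_ONE := by
  classical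
  intro s E E' p j hs hodd hp hp2 hps hE hpE hpE' hV
  by_contra hcon
  push Not at hcon
  obtain ⟨hc1, hc2⟩ := hcon
  have hmem : p ∈ ((∏ l, s l) * p).primeFactors :=
    Nat.mem_primeFactors.2 ⟨hp, dvd_mul_left _ _, mul_ne_zero hs.ne_zero hp.ne_zero⟩
  have hex : ∀ F : Finset ℕ, V0 (Function.update s j (s j * p)) F ≠ {(1, 1)} →
      ∃ d ∈ V0 (Function.update s j (s j * p)) F, d ≠ (1, 1) := by
    intro F hF
    by_contra h
    push Not at h
    apply hF
    ext d
    rw [Set.mem_singleton_iff]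
    constructor
    · exact h d
    · rintro rfl
      exact V0_one _ _
  obtain ⟨d, hd, hd1⟩ := hex E hc1
  obtain ⟨e, he, he1⟩ := hex E' hc2
  have hLR : ∀ (F : Finset ℕ) (x : ℤ × ℤ), x ∈ V0 (Function.update s j (s j * p)) F →
      LR j (decide (p ∈ F)) (dv p x.1) (dv p x.2) (sgn p x.1) (sgn p x.2) := by
    intro F x hx
    have h3 := hx.2.2.2.2.2.2
    rw [upd_prod] at h3
    exact LF_new (h3 p hmem)
  have Ld := hLR E d hd
  have Le := hLR E' e he
  have hdp : ¬ (dv p d.1 = false ∧ dv p d.2 = false) := by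
    intro h
    have := V0_restrict hs hp hp2 rfl hd h.1 h.2
    rw [hV, Set.mem_singleton_iff] at this
    exact hd1 this
  have hep : ¬ (dv p e.1 = false ∧ dv p e.2 = false) := by
    intro h
    have := V0_restrict hs hp hp2 hE.symm he h.1 h.2
    rw [hV, Set.mem_singleton_iff] at this
    exact he1 this
  -- the patterns agree
  have hpat : dv p d.1 = dv p e.1 ∧ dv p d.2 = dv p e.2 := by
    unfold LR at Ld Le
    split_ifs at Ld Le with h0 h1
    · obtain ⟨x1, -⟩ := Ld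
      obtain ⟨x2, -⟩ := Le
      rw [x1] at hdp ⊢
      rw [x2] at hep ⊢
      cases h3 : dv p d.2 <;> cases h4 : dv p e.2 <;> simp [h3, h4] at hdp hep ⊢
    · obtain ⟨x1, -⟩ := Ld
      obtain ⟨x2, -⟩ := Le
      rw [x1] at hdp ⊢
      rw [x2] at hep ⊢
      cases h3 : dv p d.1 <;> cases h4 : dv p e.1 <;> simp [h3, h4] at hdp hep ⊢
    · obtain ⟨x1, -⟩ := Ld
      obtain ⟨x2, -⟩ := Le
      rw [x1] at hdp ⊢
      rw [x2] at hep ⊢
      cases h3 : dv p d.2 <;> cases h4 : dv p e.2 <;> simp [h3, h4] at hdp hep ⊢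
  have hd7 := hd.2.2.2.2.2.2
  have he7 := he.2.2.2.2.2.2
  rw [upd_prod] at hd7 he7
  have hd5 := hd.2.2.2.2.1
  have he5 := he.2.2.2.2.1
  have hd6 := hd.2.2.2.2.2.1
  have he6 := he.2.2.2.2.2.1
  rw [upd_prod] at hd5 he5 hd6 he6
  have hprod : sp2 d e ∈ V0 s E := by
    have n1 : dv p (sp d.1 e.1) = false := by
      rw [(sp_dv hd.1 he.1 p hp).1, hpat.1, Bool.xor_self]
    have n2 : dv p (sp d.2 e.2) = false := by
      rw [(sp_dv hd.2.1 he.2.1 p hp).1, hpat.2, Bool.xor_self]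
    unfold dv at n1 n2
    rw [decide_eq_false_iff_not] at n1 n2
    refine ⟨sp_sqf hd.1 he.1, sp_sqf hd.2.1 he.2.1, sp_pos hd.1 hd.2.2.1 he.2.2.1,
      sp_mod hd.1 hd.2.2.2.1 he.2.2.2.1, ?_, ?_, ?_⟩
    · intro q hq h
      have h3 : q ∣ (∏ l, s l) * p := by
        rcases sp_dvd hd.1 hq h with h' | h'
        · exact hd5 q hq h'
        · exact he5 q hq h'
      rcases (hq.dvd_mul).1 h3 with h' | h'
      · exact h'
      · have : q = p := (Nat.prime_dvd_prime_iff_eq hq hp).1 h'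
        subst this
        exact absurd h n1
    · intro q hq h
      have h3 : q ∣ 2 * ((∏ l, s l) * p) := by
        rcases sp_dvd hd.2.1 hq h with h' | h'
        · exact hd6 q hq h'
        · exact he6 q hq h'
      rw [← mul_assoc] at h3
      rcases (hq.dvd_mul).1 h3 with h' | h'
      · exact h'
      · have : q = p := (Nat.prime_dvd_prime_iff_eq hq hp).1 h'
        subst this
        exact absurd h n2
    · intro q hq
      have hqp := Nat.prime_of_mem_primeFactors hq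
      have hq' : q ∈ ((∏ l, s l) * p).primeFactors := by
        rw [Nat.mem_primeFactors] at hq ⊢
        exact ⟨hq.1, hq.2.1.mul_right _, mul_ne_zero hs.ne_zero hp.ne_zero⟩
      have hqE : q ∈ E' ↔ q ∈ E := by
        have : q ∈ E ∩ (∏ j, s j).primeFactors ↔ q ∈ E' ∩ (∏ j, s j).primeFactors := by rw [hE]
        rw [mem_inter, mem_inter] at this
        exact ⟨fun h => (this.2 ⟨h, hq⟩).1, fun h => (this.1 ⟨h, hq⟩).1⟩
      show LF s E q (dv q (sp d.1 e.1)) (dv q (sp d.2 e.2)) (sgn q (sp d.1 e.1))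
        (sgn q (sp d.2 e.2))
      obtain ⟨a1, a2⟩ := sp_dv hd.1 he.1 q hqp
      obtain ⟨a3, a4⟩ := sp_dv hd.2.1 he.2.1 q hqp
      rw [a1, a2, a3, a4]
      exact (xcLF s E q).2 _ _ _ _ _ _ _ _ (LF_down (hd7 q hq'))
        (LF_congr hqE (LF_down (he7 q hq')))
  rw [hV, Set.mem_singleton_iff] at hprod
  unfold sp2 at hprod
  rw [Prod.mk.injEq] at hprod
  have hde1 : d.1 = e.1 := eq_of_sp_one hd.1 hprod.1
  have hde2 : d.2 = e.2 := eq_of_sp_one hd.2.1 hprod.2
  have p1 := LR_phi Ld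
  have p2 := LR_phi Le
  rw [hde1, hde2] at p1
  rw [p1] at p2
  have hor : (dv p e.1 || dv p e.2) = true := by
    cases h3 : dv p e.1 <;> cases h4 : dv p e.2 <;> simp [h3, h4] at hep ⊢
  rw [hor] at p2
  simp [hpE, hpE'] at p2

end Pool.Agent.Y667.RP
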