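import Pool.Agent.Y667.RP.Sel

/-!
# Project RP, the main argument, part 1: the weights
-/

set_option autoImplicit false

namespace Pool.Agent.Y667.RP

open Finset Pool.Agent.W262.RK Pool.Agent.W307.RT Pool.Agent.W307.RS Pool.Agent.W307.SE
  Pool.Agent.W307.FK

open Classical in
lemma Wt_le_one {X l : ℕ} (hX : 2 ≤ X) : Wt X l ≤ 1 := by
  unfold Wt
  have hL : 0 < Real.log X := Real.log_pos (by exact_mod_cast (by omega : 1 < X))
  have : 0 ≤ ∑ q ∈ (Icc 1 X).filter (fun q : ℕ => q.Prime ∧ (X : ℝ) ^ (1 / 4 : ℝ) ≤ q ∧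
    (q : ℝ) < (X : ℝ) ^ (97 / 100 : ℝ) ∧ q ∣ l), (1 - Real.log q / Real.log X / (97 / 100)) := by
    apply sum_nonneg
    intro q hq
    rw [mem_filter] at hq
    obtain ⟨-, hqp, -, h1, -⟩ := hq
    have hq0 : (0 : ℝ) < q := by exact_mod_cast hqp.pos
    have h2 : Real.log q ≤ 97 / 100 * Real.log X := by
      rw [← Real.log_rpow (by positivity)]
      exact Real.log_le_log hq0 h1.le
    have h3 : Real.log q / Real.log X ≤ 97 / 100 := by
      rw [div_le_iff₀ hL]; exact h2
    have h4 : Real.log q / Real.log X / (97 / 100) ≤ 1 := by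
      rw [div_le_one (by norm_num)]; exact h3
    linarith
  linarith

/-- the logarithm of a squarefree number -/
lemma log_sqf {l : ℕ} (hl : Squarefree l) : Real.log l = ∑ p ∈ l.primeFactors, Real.log p := by
  conv_lhs => rw [← Nat.prod_primeFactors_of_squarefree hl]
  rw [Nat.cast_prod, Real.log_prod]
  intro p hp
  exact_mod_cast (Nat.prime_of_mem_primeFactors hp).ne_zero

open Classical in
lemma Wt_sqf {X l : ℕ} (hX : 2 ≤ X) (hl : Squarefree l) (hlX : l < X)
    (hr : ∀ p : ℕ, p.Prime → p ∣ l → (X : ℝ) ^ (1 / 4 : ℝ) ≤ p)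
    (hc : 2 ≤ l.primeFactors.card) :
    l.primeFactors.card ≤ 3 ∧
      Wt X l = 1 - 13 / 25 * (l.primeFactors.card - Real.log l / Real.log X / (97 / 100)) := by
  have hX0 : (0 : ℝ) < X := by positivity
  have hL : 0 < Real.log X := Real.log_pos (by exact_mod_cast (by omega : 1 < X))
  have hl0 : 0 < l := Nat.pos_of_ne_zero hl.ne_zero
  have hlL : Real.log l < Real.log X :=
    Real.log_lt_log (by exact_mod_cast hl0) (by exact_mod_cast hlX)
  have hp4 : ∀ p ∈ l.primeFactors, Real.log X / 4 ≤ Real.log p := by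
    intro p hp
    have h1 := hr p (Nat.prime_of_mem_primeFactors hp) (Nat.dvd_of_mem_primeFactors hp)
    have h2 := Real.log_le_log (by positivity) h1
    rw [Real.log_rpow hX0] at h2
    linarith
  have hsum := log_sqf hl
  constructor
  · by_contra hcon
    push Not at hcon
    have h1 : (l.primeFactors.card : ℝ) * (Real.log X / 4) ≤ Real.log l := by
      rw [hsum]
      have := card_nsmul_le_sum _ _ _ hp4
      rwa [nsmul_eq_mul] at this
    have h2 : (4 : ℝ) ≤ l.primeFactors.card := by exact_mod_cast hcon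
    nlinarith
  · unfold Wt
    congr 2
    have hset : (Icc 1 X).filter (fun q : ℕ => q.Prime ∧ (X : ℝ) ^ (1 / 4 : ℝ) ≤ q ∧
        (q : ℝ) < (X : ℝ) ^ (97 / 100 : ℝ) ∧ q ∣ l) = l.primeFactors := by
      ext q
      rw [mem_filter, mem_Icc, Nat.mem_primeFactors]
      constructor
      · rintro ⟨-, h1, -, -, h2⟩
        exact ⟨h1, h2, hl0.ne'⟩
      · rintro ⟨h1, h2, -⟩
        have hqm : q ∈ l.primeFactors := Nat.mem_primeFactors.2 ⟨h1, h2, hl0.ne'⟩
        have hq0 : (0 : ℝ) < q := by exact_mod_cast h1.pos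
        refine ⟨⟨h1.one_lt.le, (Nat.le_of_dvd hl0 h2).trans hlX.le⟩, h1, hr q h1 h2, ?_, h2⟩
        -- another prime
        obtain ⟨p, hp, hpq⟩ : ∃ p ∈ l.primeFactors, p ≠ q := by
          by_contra hcon
          push Not at hcon
          have : l.primeFactors ⊆ {q} := fun p hp => mem_singleton.2 (hcon p hp)
          have := card_le_card this
          rw [card_singleton] at this
          omega
        have h3 : Real.log q + Real.log p ≤ Real.log l := by
          rw [hsum]
          have h4 : ({q, p} : Finset ℕ) ⊆ l.primeFactors := by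
            intro x hx
            rw [mem_insert, mem_singleton] at hx
            rcases hx with rfl | rfl
            · exact hqm
            · exact hp
          rw [← sum_pair (f := fun x : ℕ => Real.log x) hpq.symm]
          apply sum_le_sum_of_subset_of_nonneg h4
          intro i hi _
          exact Real.log_natCast_nonneg i
        have h5 := hp4 p hp
        have h6 : Real.log q < 97 / 100 * Real.log X := by linarith
        rw [← Real.log_rpow hX0] at h6
        exact (Real.log_lt_log_iff hq0 (by positivity)).1 h6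
    rw [hset, sum_sub_distrib, ← sum_div, ← sum_div, ← hsum, sum_const, nsmul_eq_mul, mul_one]

/-- classification of the rough numbers -/
theorem Wt_class {X l : ℕ} (hX : 2 ≤ X) (h1 : 1 < l) (hlX : l < X)
    (hr : ∀ p : ℕ, p.Prime → p ∣ l → (X : ℝ) ^ (1 / 4 : ℝ) ≤ p) :
    l.Prime ∨ (∃ q : ℕ, q.Prime ∧ (X : ℝ) ^ (1 / 4 : ℝ) ≤ q ∧ q ^ 2 ∣ l) ∨
      (∃ q1 q2 : ℕ, q1.Prime ∧ q2.Prime ∧ q1 < q2 ∧ l = q1 * q2 ∧ (X : ℝ) ^ (1 / 4 : ℝ) ≤ q1 ∧
        (q1 : ℝ) ≤ (X : ℝ) ^ (1 / 2 : ℝ) ∧ Wt X l ≤ 4961 / 10000) ∨ Wt X l ≤ 0 := by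
  have hX0 : (0 : ℝ) < X := by positivity
  have hL : 0 < Real.log X := Real.log_pos (by exact_mod_cast (by omega : 1 < X))
  by_cases hsq : Squarefree l
  swap
  · right; left
    rw [Nat.squarefree_iff_prime_squarefree] at hsq
    push Not at hsq
    obtain ⟨q, hq, hqq⟩ := hsq
    exact ⟨q, hq, hr q hq ((dvd_mul_left _ _).trans hqq), by rw [sq]; exact hqq⟩
  have hcpos : 0 < l.primeFactors.card := by
    rw [card_pos]
    exact Nat.nonempty_primeFactors.2 h1
  have hlL : Real.log l / Real.log X ≤ 1 := by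
    rw [div_le_one hL]
    exact Real.log_le_log (by exact_mod_cast (by omega : 0 < l)) (by exact_mod_cast hlX.le)
  rcases Nat.lt_or_ge l.primeFactors.card 2 with hc | hc
  · left
    have hc1 : l.primeFactors.card = 1 := by omega
    obtain ⟨p, hp⟩ := card_eq_one.1 hc1
    have h2 : l = p := by
      have := Nat.prod_primeFactors_of_squarefree hsq
      rw [hp, prod_singleton] at this
      exact this.symm
    have h3 : p ∈ l.primeFactors := by rw [hp]; exact mem_singleton_self p
    rw [h2]
    exact Nat.prime_of_mem_primeFactors h3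
  obtain ⟨h2, h3⟩ := Wt_sqf hX hsq hlX hr hc
  right; right
  rcases Nat.lt_or_ge l.primeFactors.card 3 with hc3 | hc3
  · left
    have hc2 : l.primeFactors.card = 2 := by omega
    obtain ⟨p, q, hpq, hS⟩ := card_eq_two.1 hc2
    have hp : p ∈ l.primeFactors := by rw [hS]; simp
    have hq : q ∈ l.primeFactors := by rw [hS]; simp
    have hpp := Nat.prime_of_mem_primeFactors hp
    have hqp := Nat.prime_of_mem_primeFactors hq
    have hl : l = p * q := by
      have := Nat.prod_primeFactors_of_squarefree hsq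
      rw [hS, prod_pair hpq] at this
      exact this.symm
    have hW : Wt X l ≤ 4961 / 10000 := by
      rw [h3, hc2]
      push_cast
      have : Real.log l / Real.log X / (97 / 100) ≤ 1 / (97 / 100) := by
        gcongr
      linarith
    have hhalf : ∀ u w : ℕ, 0 < u → u < w → l = u * w → (u : ℝ) ≤ (X : ℝ) ^ (1 / 2 : ℝ) := by
      intro u w hu huw hl
      have h4 : u * u ≤ X := by
        have : u * u ≤ u * w := Nat.mul_le_mul_left u huw.le
        omega
      have h5 : ((u : ℝ)) ^ 2 ≤ X := by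
        rw [sq]; exact_mod_cast h4
      rw [← Real.sqrt_eq_rpow]
      exact Real.le_sqrt_of_sq_le h5
    rcases lt_or_gt_of_ne hpq with h | h
    · exact ⟨p, q, hpp, hqp, h, hl, hr p hpp (Nat.dvd_of_mem_primeFactors hp),
        hhalf p q hpp.pos h hl, hW⟩
    · exact ⟨q, p, hqp, hpp, h, by rw [hl, mul_comm], hr q hqp (Nat.dvd_of_mem_primeFactors hq),
        hhalf q p hqp.pos h (by rw [hl, mul_comm]), hW⟩
  · right
    have hc4 : l.primeFactors.card = 3 := by omega
    rw [h3, hc4]
    push_cast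
    have : Real.log l / Real.log X / (97 / 100) ≤ 1 / (97 / 100) := by
      gcongr
    linarith

end Pool.Agent.Y667.RP
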