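import Pool.Agent.Y667.RP.Stm
import Pool.Agent.H305R2.MertensM
import Pool.Agent.H305R2.MertensE
import Pool.Agent.H357R2.SI.Common

/-!
# Project RP, the main argument, part 2: the analytic constants
-/

set_option autoImplicit false

namespace Pool.Agent.Y667.RP

open Finset Filter Topology

/-- the numerical inequality -/
lemma c1_pos : (1 : ℝ) / 100 ≤ 50 / 49 * (Real.log (73 / 25) - 13 / 25 * Real.log (97 / 25)) -
    4961 / 20000 * (Real.log 2 / (12 / 25)) := by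
  have h2l := Real.log_two_gt_d9
  have h2u := Real.log_two_lt_d9
  have h1 : 2 * Real.log (73 / 25) = 3 * Real.log 2 + Real.log (5329 / 5000) := by
    have e1 : 2 * Real.log (73 / 25) = Real.log ((73 / 25) ^ 2) := by
      rw [Real.log_pow]; norm_num
    have e2 : 3 * Real.log 2 = Real.log (2 ^ 3) := by
      rw [Real.log_pow]; norm_num
    rw [e1, e2, ← Real.log_mul (by norm_num) (by norm_num)]
    norm_num
  have h3 : 1 - (5329 / 5000 : ℝ)⁻¹ ≤ Real.log (5329 / 5000) :=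
    Real.one_sub_inv_le_log_of_pos (by norm_num)
  have h4 : Real.log (97 / 25) = 2 * Real.log 2 + Real.log (97 / 100) := by
    have e2 : 2 * Real.log 2 = Real.log (2 ^ 2) := by
      rw [Real.log_pow]; norm_num
    rw [e2, ← Real.log_mul (by norm_num) (by norm_num)]
    norm_num
  have h5 : Real.log (97 / 100) ≤ 97 / 100 - 1 := Real.log_le_sub_one_of_pos (by norm_num)
  norm_num at h3
  rw [h4]
  linarith

lemma log_tendsto : Tendsto (fun X : ℕ => Real.log (X : ℝ)) atTop atTop :=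
  Real.tendsto_log_atTop.comp tendsto_natCast_atTop_atTop

/-- Mertens over `[X ^ (1/4), X ^ (1/2)]` -/
theorem mert_half (δ : ℝ) (hδ : 0 < δ) : ∃ X0 : ℕ, ∀ X : ℕ, X0 ≤ X →
    ∑ q ∈ (Icc 1 X).filter (fun q : ℕ => q.Prime ∧ (X : ℝ) ^ (1 / 4 : ℝ) ≤ q ∧
      (q : ℝ) ≤ (X : ℝ) ^ (1 / 2 : ℝ)), 1 / ((q : ℝ) - 1) ≤ Real.log 2 + δ := by
  obtain ⟨M, hM⟩ := Pool.Agent.H305R2.mertens_inv_tendsto
  set S : ℕ → ℝ := fun N => ∑ p ∈ (Icc 1 N).filter Nat.Prime, (1 : ℝ) / p with hS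
  -- a small parameter
  set θ : ℝ := min (δ / 8) (1 / 8) with hθ
  have hθ0 : 0 < θ := lt_min (by linarith) (by norm_num)
  have hθ1 : θ ≤ δ / 8 := min_le_left _ _
  have hθ2 : θ ≤ 1 / 8 := min_le_right _ _
  obtain ⟨N0, hN0⟩ := (Metric.tendsto_nhds.mp hM θ hθ0).exists_forall_of_atTop
  have hN : ∀ N : ℕ, N0 ≤ N → |S N - Real.log (Real.log N) - M| < θ := by
    intro N h
    have := hN0 N h
    rwa [Real.dist_eq] at this
  -- eventually
  have hq : Tendsto (fun X : ℕ => (X : ℝ) ^ (1 / 4 : ℝ)) atTop atTop :=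
    (tendsto_rpow_atTop (by norm_num)).comp tendsto_natCast_atTop_atTop
  have e1 : ∀ᶠ X : ℕ in atTop, (N0 : ℝ) + 8 + 4 / θ ≤ (X : ℝ) ^ (1 / 4 : ℝ) :=
    hq.eventually_ge_atTop _
  have e2 : ∀ᶠ X : ℕ in atTop, (8 / θ : ℝ) ≤ Real.log X := log_tendsto.eventually_ge_atTop _
  obtain ⟨X0, hX0⟩ := (e1.and e2).exists_forall_of_atTop
  refine ⟨max X0 2, fun X hX => ?_⟩
  obtain ⟨h1, h2⟩ := hX0 X ((le_max_left _ _).trans hX)
  have hX2 : 2 ≤ X := (le_max_right _ _).trans hX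
  have hXr : (0 : ℝ) < X := by positivity
  set Q : ℝ := (X : ℝ) ^ (1 / 4 : ℝ) with hQ
  set R : ℝ := (X : ℝ) ^ (1 / 2 : ℝ) with hR
  have h4θ : 0 < 4 / θ := by positivity
  have hQ8 : 8 ≤ Q := by
    have : (0 : ℝ) ≤ N0 := Nat.cast_nonneg _
    linarith
  have hQR : R = Q ^ 2 := by
    rw [hQ, hR, ← Real.rpow_natCast, ← Real.rpow_mul hXr.le]; norm_num
  set N1 : ℕ := ⌈Q⌉₊ - 1 with hN1
  set N2 : ℕ := ⌊R⌋₊ with hN2
  have hc1 : 1 ≤ ⌈Q⌉₊ := Nat.one_le_ceil_iff.2 (by linarith)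
  have hN1r : (N1 : ℝ) = (⌈Q⌉₊ : ℝ) - 1 := by rw [hN1, Nat.cast_sub hc1]; simp
  have hN1a : Q - 1 ≤ N1 := by
    rw [hN1r]
    have := Nat.le_ceil Q
    linarith
  have hN1b : (N1 : ℝ) < Q := by
    rw [hN1r]
    have := Nat.ceil_lt_add_one (by linarith : 0 ≤ Q)
    linarith
  have hN2a : (N2 : ℝ) ≤ R := Nat.floor_le (by positivity)
  have hN2b : R - 1 < N2 := by
    have := Nat.lt_floor_add_one R
    linarith
  have hN1N0 : N0 ≤ N1 := by
    have : (N0 : ℝ) ≤ N1 := by linarith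
    exact_mod_cast this
  have hN2N0 : N0 ≤ N2 := by
    have h3 : Q + 1 ≤ R := by rw [hQR]; nlinarith
    have : (N0 : ℝ) ≤ N2 := by linarith
    exact_mod_cast this
  have hN12 : N1 ≤ N2 := by
    have h3 : Q + 1 ≤ R := by rw [hQR]; nlinarith
    have : (N1 : ℝ) ≤ N2 := by linarith
    exact_mod_cast this
  -- the sum of 1/q
  have hsum : ∑ q ∈ (Icc 1 X).filter (fun q : ℕ => q.Prime ∧ Q ≤ q ∧ (q : ℝ) ≤ R), (1 : ℝ) / q ≤
      S N2 - S N1 := by
    have h3 : S N2 - S N1 = ∑ q ∈ (Ioc N1 N2).filter Nat.Prime, (1 : ℝ) / q := by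
      rw [hS]
      simp only
      rw [sub_eq_iff_eq_add, ← sum_union]
      · apply sum_congr _ (fun _ _ => rfl)
        ext q
        simp only [mem_union, mem_filter, mem_Ioc, mem_Icc]
        constructor
        · rintro ⟨⟨a1, a2⟩, a3⟩
          rcases Nat.lt_or_ge N1 q with h | h
          · exact Or.inl ⟨⟨h, a2⟩, a3⟩
          · exact Or.inr ⟨⟨a1, h⟩, a3⟩
        · rintro (⟨⟨a1, a2⟩, a3⟩ | ⟨⟨a1, a2⟩, a3⟩)
          · exact ⟨⟨by omega, a2⟩, a3⟩
          · exact ⟨⟨a1, by omega⟩, a3⟩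
      · rw [disjoint_left]
        intro q hq1 hq2
        rw [mem_filter, mem_Ioc] at hq1
        rw [mem_filter, mem_Icc] at hq2
        omega
    rw [h3]
    apply sum_le_sum_of_subset_of_nonneg
    · intro q hq
      rw [mem_filter] at hq ⊢
      rw [mem_Ioc]
      obtain ⟨-, a1, a2, a3⟩ := hq
      refine ⟨⟨?_, Nat.le_floor a3⟩, a1⟩
      have : (N1 : ℝ) < q := by linarith
      exact_mod_cast this
    · intro q _ _
      positivity
  have hdiff : S N2 - S N1 ≤ Real.log (Real.log N2) - Real.log (Real.log N1) + 2 * θ := by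
    have a1 := abs_lt.1 (hN N2 hN2N0)
    have a2 := abs_lt.1 (hN N1 hN1N0)
    linarith [a1.1, a1.2, a2.1, a2.2]
  -- the logarithms
  have hL : 0 < Real.log X := Real.log_pos (by exact_mod_cast (by omega : 1 < X))
  have hlogN2 : Real.log N2 ≤ Real.log X / 2 := by
    have hN2pos : (0 : ℝ) < N2 := by
      have h3 : Q + 1 ≤ R := by rw [hQR]; nlinarith
      linarith
    have := Real.log_le_log hN2pos hN2a
    rw [hR, Real.log_rpow hXr] at this
    linarith
  have hlogN1 : Real.log X / 4 - 1 ≤ Real.log N1 := by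
    have h3 : Q / 2 ≤ N1 := by linarith
    have h4 := Real.log_le_log (by positivity) h3
    rw [Real.log_div (by positivity) (by norm_num), hQ, Real.log_rpow hXr] at h4
    have := Real.log_two_lt_d9
    linarith
  have hL8 : 64 ≤ Real.log X := by
    have : 64 ≤ 8 / θ := by
      rw [le_div_iff₀ hθ0]
      linarith
    linarith
  have hpos1 : 0 < Real.log X / 4 - 1 := by linarith
  have hpos2 : 0 < Real.log (N2 : ℝ) := by
    have h3 : (1 : ℝ) < N2 := by
      have h3 : Q + 1 ≤ R := by rw [hQR]; nlinarith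
      linarith
    exact Real.log_pos h3
  have hll : Real.log (Real.log N2) - Real.log (Real.log N1) ≤ Real.log 2 + θ := by
    have a1 : Real.log (Real.log N2) ≤ Real.log (Real.log X / 2) := Real.log_le_log hpos2 hlogN2
    have a2 : Real.log (Real.log X / 4 - 1) ≤ Real.log (Real.log N1) :=
      Real.log_le_log hpos1 hlogN1
    have a3 : Real.log (Real.log X / 2) - Real.log (Real.log X / 4 - 1) =
        Real.log 2 - Real.log (1 - 4 / Real.log X) := by
      rw [← Real.log_div (by positivity) (by positivity), ← Real.log_div (by norm_num)]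
      · congr 1
        have hne : Real.log X ≠ 0 := hL.ne'
        have hne2 : Real.log X / 4 - 1 ≠ 0 := hpos1.ne'
        have hne3 : 1 - 4 / Real.log X ≠ 0 := by
          have : 1 - 4 / Real.log X = (Real.log X / 4 - 1) * (4 / Real.log X) := by
            field_simp
          rw [this]
          positivity
        have hne4 : Real.log X - 4 ≠ 0 := by linarith
        field_simp
        ring
      · have : 4 / Real.log X < 1 := by
          rw [div_lt_one hL]; linarith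
        linarith
    have a4 : -Real.log (1 - 4 / Real.log X) ≤ θ := by
      have h4 : 4 / Real.log X ≤ θ / 2 := by
        rw [div_le_iff₀ hL]
        have : 8 ≤ θ * Real.log X := by
          rw [div_le_iff₀ hθ0] at h2
          linarith
        linarith
      have h5 : 1 - θ / 2 ≤ 1 - 4 / Real.log X := by linarith
      have h6 : Real.log (1 - θ / 2) ≤ Real.log (1 - 4 / Real.log X) :=
        Real.log_le_log (by linarith) h5
      have h7 : 1 - (1 - θ / 2)⁻¹ ≤ Real.log (1 - θ / 2) :=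
        Real.one_sub_inv_le_log_of_pos (by linarith)
      have h8 : (1 - θ / 2)⁻¹ ≤ 1 + θ := by
        rw [inv_le_iff_one_le_mul₀ (by linarith)]
        nlinarith
      linarith
    linarith
  have hfin : ∑ q ∈ (Icc 1 X).filter (fun q : ℕ => q.Prime ∧ Q ≤ q ∧ (q : ℝ) ≤ R),
      1 / ((q : ℝ) - 1) ≤ (1 + θ) * (Real.log 2 + 3 * θ) := by
    calc _ ≤ ∑ q ∈ (Icc 1 X).filter (fun q : ℕ => q.Prime ∧ Q ≤ q ∧ (q : ℝ) ≤ R),
          (1 + θ) * ((1 : ℝ) / q) := by
          apply sum_le_sum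
          intro q hq
          rw [mem_filter] at hq
          have hqQ := hq.2.2.1
          have hq1 : (0 : ℝ) < (q : ℝ) - 1 := by linarith
          have hq0 : (0 : ℝ) < (q : ℝ) := by linarith
          rw [mul_one_div, div_le_div_iff₀ hq1 hq0]
          have h3 : 4 / θ ≤ q := by
            have : (0 : ℝ) ≤ N0 := Nat.cast_nonneg _
            linarith
          rw [div_le_iff₀ hθ0] at h3
          nlinarith
      _ = (1 + θ) * ∑ q ∈ (Icc 1 X).filter (fun q : ℕ => q.Prime ∧ Q ≤ q ∧ (q : ℝ) ≤ R),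
          (1 : ℝ) / q := by rw [mul_sum]
      _ ≤ (1 + θ) * (Real.log 2 + 3 * θ) := by
          apply mul_le_mul_of_nonneg_left _ (by linarith)
          linarith
  refine hfin.trans ?_
  have := Real.log_two_lt_d9
  nlinarith

/-- a lower bound for the product over the primes -/
theorem prod_low : ∃ c : ℝ, 0 < c ∧ ∃ X0 : ℕ, 2 ≤ X0 ∧ ∀ X : ℕ, X0 ≤ X → ∀ (z : ℕ) (y : ℝ)
    (g : ℕ → ℝ), 2 ≤ z → (∀ p : ℕ, p.Prime → z < p → 0 ≤ g p ∧ g p ≤ 1 / ((p : ℝ) - 1)) →
    c / Real.log X ≤ ∏ p ∈ (Ioc z X).filter (fun p : ℕ => p.Prime ∧ (p : ℝ) < y), (1 - g p) := by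
  have h3 := Pool.Agent.H305R2.mertens_three
  set K : ℝ := Real.exp Real.eulerMascheroniConstant + 1 with hK
  have hK0 : 0 < K := by positivity
  obtain ⟨X0, hX0⟩ := (h3.eventually_lt_const (by rw [hK]; linarith :
    Real.exp Real.eulerMascheroniConstant < K)).exists_forall_of_atTop
  refine ⟨1 / (2 * K), by positivity, max X0 3, by omega, fun X hX z y g hz hg => ?_⟩
  have hX0' := hX0 X ((le_max_left _ _).trans hX)
  have hX3 : 3 ≤ X := (le_max_right _ _).trans hX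
  have hL : 0 < Real.log X := Real.log_pos (by exact_mod_cast (by omega : 1 < X))
  rw [div_lt_iff₀ hL] at hX0'
  have hpr : ∀ p ∈ (Icc 1 X).filter Nat.Prime, (0 : ℝ) < 1 - (p : ℝ)⁻¹ := by
    intro p hp
    have hp2 : (2 : ℝ) ≤ p := by exact_mod_cast ((mem_filter.1 hp).2).two_le
    have : (p : ℝ)⁻¹ ≤ 1 / 2 := by
      rw [inv_le_comm₀ (by linarith) (by norm_num)]; norm_num; exact_mod_cast hp2
    linarith
  have h4 : 1 / (K * Real.log X) ≤ ∏ p ∈ (Icc 1 X).filter Nat.Prime, (1 - (p : ℝ)⁻¹) := by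
    rw [prod_inv_distrib] at hX0'
    have h5 : 0 < ∏ p ∈ (Icc 1 X).filter Nat.Prime, (1 - (p : ℝ)⁻¹) := prod_pos hpr
    rw [div_le_iff₀ (by positivity)]
    rw [inv_lt_iff_one_lt_mul₀ h5] at hX0'
    linarith
  -- the telescoping product
  have htel : ∀ n : ℕ, 2 ≤ n → (1 : ℝ) / 2 ≤ ∏ k ∈ Icc 2 n, (1 - 1 / (k : ℝ) ^ 2) := by
    have : ∀ n : ℕ, 2 ≤ n → ∏ k ∈ Icc 2 n, (1 - 1 / (k : ℝ) ^ 2) = ((n : ℝ) + 1) / (2 * n) := by
      intro n hn
      induction n, hn using Nat.le_induction with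
      | base => norm_num
      | succ n hn ih =>
        rw [Finset.prod_Icc_succ_top (by omega), ih]
        have hn0 : (0 : ℝ) < n := by positivity
        push_cast
        field_simp
        ring
    intro n hn
    rw [this n hn]
    have hn0 : (0 : ℝ) < n := by positivity
    rw [div_le_div_iff₀ (by norm_num) (by positivity)]
    linarith
  have hfac : ∀ p : ℕ, 3 ≤ p → (1 : ℝ) - 1 / ((p : ℝ) - 1) =
      (1 - (p : ℝ)⁻¹) * (1 - 1 / ((p : ℝ) - 1) ^ 2) := by
    intro p hp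
    have hp3 : (3 : ℝ) ≤ p := by exact_mod_cast hp
    have h1 : (p : ℝ) ≠ 0 := by positivity
    have h2 : (p : ℝ) - 1 ≠ 0 := by linarith
    field_simp
    ring
  have hmain : 1 / (K * Real.log X) * (1 / 2) ≤
      ∏ p ∈ (Ioc 2 X).filter Nat.Prime, (1 - 1 / ((p : ℝ) - 1)) := by
    have e1 : ∏ p ∈ (Ioc 2 X).filter Nat.Prime, ((1 : ℝ) - 1 / ((p : ℝ) - 1)) =
        (∏ p ∈ (Ioc 2 X).filter Nat.Prime, (1 - (p : ℝ)⁻¹)) *
          ∏ p ∈ (Ioc 2 X).filter Nat.Prime, (1 - 1 / ((p : ℝ) - 1) ^ 2) := by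
      rw [← prod_mul_distrib]
      apply prod_congr rfl
      intro p hp
      rw [mem_filter, mem_Ioc] at hp
      exact hfac p hp.1.1
    rw [e1]
    have e2 : 1 / (K * Real.log X) ≤ ∏ p ∈ (Ioc 2 X).filter Nat.Prime, (1 - (p : ℝ)⁻¹) := by
      refine h4.trans ?_
      rw [← prod_sdiff (s₁ := (Ioc 2 X).filter Nat.Prime) (s₂ := (Icc 1 X).filter Nat.Prime)]
      · apply mul_le_of_le_one_left
        · apply prod_nonneg
          intro p hp
          rw [mem_filter, mem_Ioc] at hp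
          exact (hpr p (mem_filter.2 ⟨mem_Icc.2 ⟨by omega, hp.1.2⟩, hp.2⟩)).le
        · apply prod_le_one
          · intro p hp
            exact (hpr p (mem_sdiff.1 hp).1).le
          · intro p hp
            have : (0 : ℝ) ≤ (p : ℝ)⁻¹ := by positivity
            linarith
      · intro p hp
        rw [mem_filter, mem_Ioc] at hp
        exact mem_filter.2 ⟨mem_Icc.2 ⟨by omega, hp.1.2⟩, hp.2⟩
    have e3 : (1 : ℝ) / 2 ≤ ∏ p ∈ (Ioc 2 X).filter Nat.Prime, (1 - 1 / ((p : ℝ) - 1) ^ 2) := by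
      have hterm : ∀ k : ℕ, 2 ≤ k → (0 : ℝ) ≤ 1 - 1 / (k : ℝ) ^ 2 ∧ 1 - 1 / (k : ℝ) ^ 2 ≤ 1 := by
        intro k hk
        have hk2 : (2 : ℝ) ≤ k := by exact_mod_cast hk
        constructor
        · have : 1 / (k : ℝ) ^ 2 ≤ 1 := by
            rw [div_le_one (by positivity)]
            nlinarith
          linarith
        · have : 0 ≤ 1 / (k : ℝ) ^ 2 := by positivity
          linarith
      have e4 : ∏ p ∈ (Ioc 2 X).filter Nat.Prime, (1 - 1 / ((p : ℝ) - 1) ^ 2) =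
          ∏ k ∈ ((Ioc 2 X).filter Nat.Prime).image (fun p : ℕ => p - 1),
            (1 - 1 / ((k : ℕ) : ℝ) ^ 2) := by
        rw [prod_image]
        · apply prod_congr rfl
          intro p hp
          rw [mem_filter, mem_Ioc] at hp
          rw [Nat.cast_sub (by omega)]
          simp
        · intro a ha b hb hab
          rw [mem_coe, mem_filter, mem_Ioc] at ha hb
          simp only at hab
          omega
      rw [e4]
      refine (htel X (by omega)).trans ?_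
      rw [← prod_sdiff (s₁ := ((Ioc 2 X).filter Nat.Prime).image (fun p : ℕ => p - 1))
        (s₂ := Icc 2 X)]
      · apply mul_le_of_le_one_left
        · apply prod_nonneg
          intro k hk
          rw [mem_image] at hk
          obtain ⟨p, hp, rfl⟩ := hk
          rw [mem_filter, mem_Ioc] at hp
          exact (hterm _ (by omega)).1
        · apply prod_le_one
          · intro k hk
            exact (hterm k (mem_Icc.1 (mem_sdiff.1 hk).1).1).1
          · intro k hk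
            exact (hterm k (mem_Icc.1 (mem_sdiff.1 hk).1).1).2
      · intro k hk
        rw [mem_image] at hk
        obtain ⟨p, hp, rfl⟩ := hk
        rw [mem_filter, mem_Ioc] at hp
        exact mem_Icc.2 ⟨by omega, by omega⟩
    exact mul_le_mul e2 e3 (by norm_num) (prod_nonneg fun p hp => by
      rw [mem_filter, mem_Ioc] at hp
      exact (hpr p (mem_filter.2 ⟨mem_Icc.2 ⟨by omega, hp.1.2⟩, hp.2⟩)).le)
  have hle : 1 / (2 * K) / Real.log X = 1 / (K * Real.log X) * (1 / 2) := by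
    field_simp
  rw [hle]
  refine hmain.trans ?_
  have hfp : ∀ p : ℕ, 3 ≤ p → (0 : ℝ) ≤ 1 - 1 / ((p : ℝ) - 1) ∧ (1 : ℝ) - 1 / ((p : ℝ) - 1) ≤ 1 := by
    intro p hp
    have hp3 : (3 : ℝ) ≤ p := by exact_mod_cast hp
    constructor
    · have : 1 / ((p : ℝ) - 1) ≤ 1 := by
        rw [div_le_one (by linarith)]
        linarith
      linarith
    · have : 0 ≤ 1 / ((p : ℝ) - 1) := div_nonneg (by norm_num) (by linarith)
      linarith
  have hsub : (Ioc z X).filter (fun p : ℕ => p.Prime ∧ (p : ℝ) < y) ⊆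
      (Ioc 2 X).filter Nat.Prime := by
    intro p hp
    rw [mem_filter, mem_Ioc] at hp ⊢
    exact ⟨⟨by omega, hp.1.2⟩, hp.2.1⟩
  rw [← prod_sdiff hsub]
  refine (mul_le_of_le_one_left (prod_nonneg ?_) (prod_le_one ?_ ?_)).trans ?_
  · intro p hp
    have := mem_filter.1 (hsub hp)
    exact (hfp p (mem_Ioc.1 this.1).1).1
  · intro p hp
    have := mem_filter.1 (mem_sdiff.1 hp).1
    exact (hfp p (mem_Ioc.1 this.1).1).1
  · intro p hp
    have := mem_filter.1 (mem_sdiff.1 hp).1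
    exact (hfp p (mem_Ioc.1 this.1).1).2
  · apply Finset.prod_le_prod
    · intro p hp
      have := mem_filter.1 (hsub hp)
      exact (hfp p (mem_Ioc.1 this.1).1).1
    · intro p hp
      rw [mem_filter, mem_Ioc] at hp
      have := (hg p hp.2.1 hp.1.1).2
      linarith

lemma pi1_eq (n : ℕ) : H343E.pi1 n = Nat.primeCounting n := by
  unfold H343E.pi1 Nat.primeCounting Nat.primeCounting'
  rw [Nat.count_eq_card_filter_range]
  congr 2
  ext m
  simp only [mem_filter, mem_Icc, mem_range]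
  constructor
  · rintro ⟨h1, h2⟩
    exact ⟨by omega, h2⟩
  · rintro ⟨h1, h2⟩
    exact ⟨⟨h2.one_lt.le, by omega⟩, h2⟩

lemma pdiff : ∃ y0 : ℕ, 2 ≤ y0 ∧ ∀ y : ℕ, y0 ≤ y →
    (y : ℝ) / (4 * Real.log y) ≤ H343E.pi1 y - H343E.pi1 (y / 2) := by
  obtain ⟨X₀, h3, hX⟩ := Pool.Agent.H357R2.SI.pnt (1 / 16) (by norm_num)
  obtain ⟨Y0, hY⟩ := (log_tendsto.eventually_ge_atTop (32 : ℝ)).exists_forall_of_atTop
  refine ⟨max (2 * X₀ + 4) Y0, by omega, fun y hy => ?_⟩
  have hy1 : 2 * X₀ + 4 ≤ y := (le_max_left _ _).trans hy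
  have hL32 := hY y ((le_max_right _ _).trans hy)
  have a1 := (hX y (by omega)).1
  have a2 := (hX (y / 2) (by omega)).2
  rw [pi1_eq, pi1_eq]
  have hyr : (10 : ℝ) ≤ y := by exact_mod_cast (by omega : 10 ≤ y)
  have hh : (((y / 2 : ℕ)) : ℝ) ≤ y / 2 := Nat.cast_div_le
  have hh2 : (y : ℝ) / 3 ≤ ((y / 2 : ℕ) : ℝ) := by
    have : y ≤ 3 * (y / 2) := by omega
    have : (y : ℝ) ≤ 3 * ((y / 2 : ℕ) : ℝ) := by exact_mod_cast this
    linarith
  have hlog : 15 / 16 * Real.log y ≤ Real.log ((y / 2 : ℕ) : ℝ) := by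
    have b1 := Real.log_le_log (by positivity) hh2
    rw [Real.log_div (by positivity) (by norm_num)] at b1
    have b2 : Real.log 3 ≤ 2 := by
      have := Real.log_le_sub_one_of_pos (by norm_num : (0 : ℝ) < 3)
      linarith
    linarith
  have hL : 0 < Real.log y := by linarith
  have a3 : (1 + 1 / 16) * ((y / 2 : ℕ) : ℝ) / Real.log ((y / 2 : ℕ) : ℝ) ≤
      (1 + 1 / 16) * (y / 2) / (15 / 16 * Real.log y) := by
    gcongr
  have a4 : (1 + 1 / 16) * ((y : ℝ) / 2) / (15 / 16 * Real.log y) = 17 / 30 * (y / Real.log y) := by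
    field_simp
    ring
  have a5 : (1 - 1 / 16) * (y : ℝ) / Real.log y = 15 / 16 * (y / Real.log y) := by ring
  have a6 : (y : ℝ) / (4 * Real.log y) = 1 / 4 * (y / Real.log y) := by
    field_simp
  have a7 : 0 ≤ (y : ℝ) / Real.log y := by positivity
  rw [a6]
  rw [a5] at a1
  rw [a4] at a3
  linarith

/-- the numbers of the primes -/
theorem pMN : ∃ X0 : ℕ, 2 ≤ X0 ∧ ∀ X : ℕ, X0 ≤ X → ∀ s0 s1 : ℕ, 1 ≤ s0 → 1 ≤ s1 →
    (s0 : ℝ) ≤ (X : ℝ) ^ (1 / 2 : ℝ) → (s1 : ℝ) ≤ (X : ℝ) ^ (1 / 2 : ℝ) →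
    (X : ℝ) / (8 * s0 * Real.log X) ≤ pM X s0 ∧ (X : ℝ) / (32 * s1 * Real.log X) ≤ pN X s1 := by
  obtain ⟨y0, hy0, hy⟩ := pdiff
  have hq : Tendsto (fun X : ℕ => (X : ℝ) ^ (1 / 2 : ℝ)) atTop atTop :=
    (tendsto_rpow_atTop (by norm_num)).comp tendsto_natCast_atTop_atTop
  obtain ⟨X0, hX0⟩ := (hq.eventually_ge_atTop (4 * ((y0 : ℝ) + 2))).exists_forall_of_atTop
  refine ⟨max X0 2, le_max_right _ _, fun X hX s0 s1 h0 h1 hs0 hs1 => ?_⟩
  have hXq := hX0 X ((le_max_left _ _).trans hX)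
  have hX2 : 2 ≤ X := (le_max_right _ _).trans hX
  have hXr : (0 : ℝ) < X := by positivity
  have hLX : 0 < Real.log X := Real.log_pos (by exact_mod_cast (by omega : 1 < X))
  have hsq : (X : ℝ) ^ (1 / 2 : ℝ) * (X : ℝ) ^ (1 / 2 : ℝ) = X := by
    rw [← Real.rpow_add hXr]; norm_num
  have key : ∀ d : ℕ, 1 ≤ d → 4 * ((y0 : ℝ) + 2) ≤ 4 * ((X : ℝ) / d) →
      (X : ℝ) / (8 * d * Real.log X) ≤ H343E.pi1 (X / d) - H343E.pi1 (X / d / 2) := by
    intro d hd hXd
    have hdr : (1 : ℝ) ≤ d := by exact_mod_cast hd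
    have hfl : (X : ℝ) / d - 1 < ((X / d : ℕ) : ℝ) := by
      have := Nat.lt_floor_add_one ((X : ℝ) / d)
      rw [Nat.floor_div_eq_div] at this
      linarith
    have h2 : y0 ≤ X / d := by
      have : (y0 : ℝ) ≤ ((X / d : ℕ) : ℝ) := by linarith
      exact_mod_cast this
    refine le_trans ?_ (hy (X / d) h2)
    have h3 : (X : ℝ) / d / 2 ≤ ((X / d : ℕ) : ℝ) := by
      have : (0 : ℝ) ≤ y0 := Nat.cast_nonneg _
      linarith
    have h4 : ((X / d : ℕ) : ℝ) ≤ X := by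
      exact_mod_cast Nat.div_le_self X d
    have h5 : (2 : ℝ) ≤ ((X / d : ℕ) : ℝ) := by
      exact_mod_cast (hy0.trans h2)
    have h6 : 0 < Real.log ((X / d : ℕ) : ℝ) := Real.log_pos (by linarith)
    have h7 : Real.log ((X / d : ℕ) : ℝ) ≤ Real.log X := Real.log_le_log (by linarith) h4
    calc (X : ℝ) / (8 * d * Real.log X) = (X : ℝ) / d / 2 / (4 * Real.log X) := by
          field_simp
          ring
      _ ≤ ((X / d : ℕ) : ℝ) / (4 * Real.log ((X / d : ℕ) : ℝ)) := by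
          gcongr
  constructor
  · unfold pM
    have := key s0 h0 (by
      have hs0r : (0 : ℝ) < s0 := by exact_mod_cast h0
      have : (X : ℝ) ^ (1 / 2 : ℝ) ≤ (X : ℝ) / s0 := by
        rw [le_div_iff₀ hs0r]
        calc (X : ℝ) ^ (1 / 2 : ℝ) * s0 ≤ (X : ℝ) ^ (1 / 2 : ℝ) * (X : ℝ) ^ (1 / 2 : ℝ) := by gcongr
          _ = X := hsq
      have hy0' : (0 : ℝ) ≤ y0 := Nat.cast_nonneg _
      linarith)
    rwa [Nat.div_div_eq_div_mul, mul_comm s0 2] at this
  · unfold pN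
    have := key (4 * s1) (by omega) (by
      have hs0r : (0 : ℝ) < s1 := by exact_mod_cast h1
      have : (X : ℝ) ^ (1 / 2 : ℝ) ≤ (X : ℝ) / s1 := by
        rw [le_div_iff₀ hs0r]
        calc (X : ℝ) ^ (1 / 2 : ℝ) * s1 ≤ (X : ℝ) ^ (1 / 2 : ℝ) * (X : ℝ) ^ (1 / 2 : ℝ) := by gcongr
          _ = X := hsq
      push_cast
      have h9 : 4 * ((X : ℝ) / (4 * s1)) = X / s1 := by field_simp
      rw [h9]
      linarith)
    rw [Nat.div_div_eq_div_mul] at this
    have e : 4 * s1 * 2 = 8 * s1 := by ring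
    rw [e] at this
    refine le_trans (le_of_eq ?_) this
    push_cast
    congr 1
    ring

end Pool.Agent.Y667.RP
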