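import Pool.Agent.Y667.RP.M1

/-!
# Project RP, the main argument, part 3: the pairs of primes
-/

set_option autoImplicit false

namespace Pool.Agent.Y667.RP

open Finset Pool.Agent.W262.RK Pool.Agent.W307.RT Pool.Agent.W307.RS Pool.Agent.W307.SE
  Pool.Agent.W307.FK

/-- the residue classes -/
structure Mod (z Q0 a0 b0 : ℕ) : Prop where
  two : 64 ∣ Q0
  ne : Q0 ≠ 0
  le : ∀ p : ℕ, p.Prime → p ∣ Q0 → p ≤ z
  dvd : ∀ p : ℕ, p.Prime → p ≤ z → p ∣ Q0
  a64 : a0 % 64 = 33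
  b64 : b0 % 64 = 1
  ap : ∀ p : ℕ, p.Prime → 3 ≤ p → p ≤ z → a0 % p = 1
  bp : ∀ p : ℕ, p.Prime → 3 ≤ p → p ≤ z → (b0 + 1) % p = 0
  ca : a0.Coprime Q0
  cb : b0.Coprime Q0

theorem exists_mod (z : ℕ) (hz : 2 ≤ z) : ∃ Q0 a0 b0 : ℕ, Mod z Q0 a0 b0 := by
  set P0 : ℕ := ∏ p ∈ (Icc 3 z).filter Nat.Prime, p with hP0
  have hP0ne : P0 ≠ 0 := prod_ne_zero_iff.2 fun p hp => (mem_filter.1 hp).2.ne_zero
  have hdvd : ∀ p : ℕ, p.Prime → 3 ≤ p → p ≤ z → p ∣ P0 := fun p hp h3 hpz =>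
    dvd_prod_of_mem _ (mem_filter.2 ⟨mem_Icc.2 ⟨h3, hpz⟩, hp⟩)
  have hdvd' : ∀ p : ℕ, p.Prime → p ∣ P0 → 3 ≤ p ∧ p ≤ z := by
    intro p hp h
    obtain ⟨q, hq, hpq⟩ := (hp.prime.dvd_finsetProd_iff _).1 h
    rw [mem_filter, mem_Icc] at hq
    have := (Nat.prime_dvd_prime_iff_eq hp hq.2).1 hpq
    rw [this]
    exact hq.1
  have hcop : Nat.Coprime 64 P0 := by
    have : Nat.Coprime 2 P0 := by
      rw [Nat.Prime.coprime_iff_not_dvd Nat.prime_two]
      intro h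
      have := (hdvd' 2 Nat.prime_two h).1
      omega
    exact Nat.Coprime.pow_left 6 this
  obtain ⟨a0, ha1, ha2⟩ := Nat.chineseRemainder hcop 33 1
  obtain ⟨b0, hb1, hb2⟩ := Nat.chineseRemainder hcop 1 (P0 - 1)
  have a64 : a0 % 64 = 33 := ha1
  have b64 : b0 % 64 = 1 := hb1
  have ap : ∀ p : ℕ, p.Prime → 3 ≤ p → p ≤ z → a0 % p = 1 := by
    intro p hp h3 hpz
    have h1 : a0 ≡ 1 [MOD p] := ha2.of_dvd (hdvd p hp h3 hpz)
    rw [Nat.ModEq, Nat.mod_eq_of_lt (by omega : 1 < p)] at h1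
    exact h1
  have bp : ∀ p : ℕ, p.Prime → 3 ≤ p → p ≤ z → (b0 + 1) % p = 0 := by
    intro p hp h3 hpz
    have h1 : b0 ≡ P0 - 1 [MOD p] := hb2.of_dvd (hdvd p hp h3 hpz)
    have h2 : b0 + 1 ≡ P0 - 1 + 1 [MOD p] := h1.add_right 1
    rw [Nat.sub_add_cancel (Nat.pos_of_ne_zero hP0ne)] at h2
    rw [h2]
    exact Nat.mod_eq_zero_of_dvd (hdvd p hp h3 hpz)
  have hpr : ∀ p : ℕ, p.Prime → p ∣ 64 * P0 → p = 2 ∨ (3 ≤ p ∧ p ≤ z) := by
    intro p hp h
    rcases (hp.dvd_mul).1 h with h | h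
    · left
      have : p ∣ 2 ^ 6 := by norm_num; exact h
      exact (Nat.prime_dvd_prime_iff_eq hp Nat.prime_two).1 (hp.dvd_of_dvd_pow this)
    · right
      exact hdvd' p hp h
  refine ⟨64 * P0, a0, b0, dvd_mul_right _ _, mul_ne_zero (by norm_num) hP0ne, ?_, ?_, a64, b64,
    ap, bp, ?_, ?_⟩
  · intro p hp h
    rcases hpr p hp h with h | h
    · omega
    · exact h.2
  · intro p hp h
    rcases Nat.lt_or_ge p 3 with h3 | h3
    · have := hp.two_le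
      have h2 : p = 2 := by omega
      subst h2
      exact dvd_mul_of_dvd_left (by norm_num) _
    · exact (hdvd p hp h3 h).mul_left _
  · apply Nat.Coprime.symm
    apply Nat.coprime_of_dvd
    intro p hp h1 h2
    rcases hpr p hp h1 with h | h
    · subst h; omega
    · have := ap p hp h.1 h.2
      rw [Nat.mod_eq_zero_of_dvd h2] at this
      omega
  · apply Nat.Coprime.symm
    apply Nat.coprime_of_dvd
    intro p hp h1 h2
    rcases hpr p hp h1 with h | h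
    · subst h; omega
    · have := bp p hp h.1 h.2
      have h3 : p ∣ b0 + 1 := Nat.dvd_of_mod_eq_zero this
      have h4 : p ∣ 1 := (Nat.dvd_add_right h2).1 h3
      have := Nat.dvd_one.1 h4
      omega

/-- the data -/
structure Dat (z : ℕ) (s : Fin 3 → ℕ) : Prop where
  sqf : Squarefree (∏ j, s j)
  gt : ∀ p : ℕ, p.Prime → p ∣ ∏ j, s j → z < p

/-- the third part -/
def vv (s : Fin 3 → ℕ) (t : ℕ × ℕ) : ℕ := (s 0 * t.1 - s 1 * t.2) / (32 * s 2)

/-- the density -/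
noncomputable def gg (s : Fin 3 → ℕ) (p : ℕ) : ℝ :=
  if p ∣ s 0 * s 1 then 0 else if p ∣ s 2 then 1 / (p : ℝ) else 1 / ((p : ℝ) - 1)

lemma Dat.dvd {s : Fin 3 → ℕ} (j : Fin 3) : s j ∣ ∏ j, s j := dvd_prod_of_mem _ (mem_univ j)

lemma Dat.ne {z : ℕ} {s : Fin 3 → ℕ} (h : Dat z s) (j : Fin 3) : s j ≠ 0 := by
  intro h0
  have := Dat.dvd (s := s) j
  rw [h0, zero_dvd_iff] at this
  exact h.sqf.ne_zero this

lemma Dat.odd {z : ℕ} {s : Fin 3 → ℕ} (h : Dat z s) (hz : 2 ≤ z) : Odd (∏ j, s j) := by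
  by_contra hcon
  rw [Nat.not_odd_iff_even, even_iff_two_dvd] at hcon
  have := h.gt 2 Nat.prime_two hcon
  omega

lemma Dat.cop {z : ℕ} {s : Fin 3 → ℕ} (h : Dat z s) :
    (s 0).Coprime (s 1) ∧ (s 0 * s 1).Coprime (s 2) := by
  have h1 := h.sqf
  rw [Fin.prod_univ_three] at h1
  exact ⟨Nat.coprime_of_squarefree_mul (h1.squarefree_of_dvd (dvd_mul_right _ _)),
    Nat.coprime_of_squarefree_mul h1⟩

section facts

variable {z Q0 a0 b0 X : ℕ} {s : Fin 3 → ℕ} {E : Finset ℕ} {t : ℕ × ℕ}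

lemma AA_lt (ht : t ∈ AA X Q0 a0 b0 s E) : s 1 * t.2 < s 0 * t.1 := by
  unfold AA at ht
  rw [mem_filter] at ht
  obtain ⟨-, -, -, h1, h2, h3, h4, -⟩ := ht
  omega

lemma AA_mod64 (hM : Mod z Q0 a0 b0) (ht : t ∈ AA X Q0 a0 b0 s E) :
    (s 0 * t.1) % 64 = 33 ∧ (s 1 * t.2) % 64 = 1 := by
  unfold AA at ht
  rw [mem_filter] at ht
  obtain ⟨-, -, -, -, -, -, -, h1, h2, -⟩ := ht
  have h3 : s 0 * t.1 ≡ a0 [MOD 64] := h1.of_dvd hM.two
  have h4 : s 1 * t.2 ≡ b0 [MOD 64] := h2.of_dvd hM.two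
  have h5 := hM.a64
  have h6 := hM.b64
  rw [Nat.ModEq] at h3 h4
  exact ⟨by omega, by omega⟩

lemma AA_eq (hz : 2 ≤ z) (hD : Dat z s) (hM : Mod z Q0 a0 b0) (ht : t ∈ AA X Q0 a0 b0 s E) :
    s 0 * t.1 - s 1 * t.2 = 32 * (s 2 * vv s t) := by
  have hlt := AA_lt ht
  obtain ⟨h1, h2⟩ := AA_mod64 hM ht
  have h32 : 32 ∣ s 0 * t.1 - s 1 * t.2 := by omega
  unfold AA at ht
  rw [mem_filter] at ht
  obtain ⟨-, -, -, -, -, -, -, -, -, h3, -⟩ := ht
  have hodd : Odd (s 2) := by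
    have := hD.odd hz
    rw [Fin.prod_univ_three] at this
    exact (Nat.odd_mul.1 this).2
  have hcop : Nat.Coprime 32 (s 2) := by
    have : Nat.Coprime 2 (s 2) := (Nat.coprime_two_left).2 hodd
    exact Nat.Coprime.pow_left 5 this
  have h4 : 32 * s 2 ∣ s 0 * t.1 - s 1 * t.2 := hcop.mul_dvd_of_dvd_of_dvd h32 h3
  unfold vv
  rw [← mul_assoc]
  exact (Nat.mul_div_cancel' h4).symm

lemma AA_odd (hz : 2 ≤ z) (hD : Dat z s) (hM : Mod z Q0 a0 b0) (ht : t ∈ AA X Q0 a0 b0 s E) :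
    Odd (vv s t) := by
  have h1 := AA_eq hz hD hM ht
  have hlt := AA_lt ht
  obtain ⟨h2, h3⟩ := AA_mod64 hM ht
  have h4 : Odd (s 2 * vv s t) := by
    rw [Nat.odd_iff]
    omega
  exact (Nat.odd_mul.1 h4).2

lemma AA_small (hz : 2 ≤ z) (hD : Dat z s) (hM : Mod z Q0 a0 b0) (ht : t ∈ AA X Q0 a0 b0 s E)
    {p : ℕ} (hp : p.Prime) (hpz : p ≤ z) : ¬ p ∣ vv s t := by
  intro hpv
  have h1 := AA_eq hz hD hM ht
  have hlt := AA_lt ht
  rcases Nat.lt_or_ge p 3 with h3 | h3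
  · have := hp.two_le
    have h2 : p = 2 := by omega
    subst h2
    exact (Nat.not_even_iff_odd.2 (AA_odd hz hD hM ht)) (even_iff_two_dvd.2 hpv)
  · have h4 : p ∣ s 0 * t.1 - s 1 * t.2 := by
      rw [h1]
      exact (hpv.mul_left _).mul_left _
    unfold AA at ht
    rw [mem_filter] at ht
    obtain ⟨-, -, -, -, -, -, -, h5, h6, -⟩ := ht
    have hpQ := hM.dvd p hp hpz
    have h7 : s 0 * t.1 ≡ a0 [MOD p] := h5.of_dvd hpQ
    have h8 : s 1 * t.2 ≡ b0 [MOD p] := h6.of_dvd hpQ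
    have h9 : s 1 * t.2 ≡ s 0 * t.1 [MOD p] := (Nat.modEq_iff_dvd' hlt.le).2 h4
    have h10 : b0 ≡ a0 [MOD p] := h8.symm.trans (h9.trans h7)
    have h11 := hM.ap p hp h3 hpz
    have h12 := hM.bp p hp h3 hpz
    rw [Nat.ModEq, h11] at h10
    rw [Nat.add_mod, h10, Nat.mod_eq_of_lt (by omega : 1 < p)] at h12
    have h13 : p ∣ 1 + 1 := Nat.dvd_of_mod_eq_zero h12
    have := Nat.le_of_dvd (by norm_num) h13
    omega

lemma AA_size (hz : 2 ≤ z) (hD : Dat z s) (hM : Mod z Q0 a0 b0) (ht : t ∈ AA X Q0 a0 b0 s E) :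
    X < 128 * (s 2 * vv s t) ∧ 32 * (s 2 * vv s t) < X := by
  have h1 := AA_eq hz hD hM ht
  have hlt := AA_lt ht
  unfold AA at ht
  rw [mem_filter] at ht
  obtain ⟨-, h0, h00, h2, h3, h4, h5, -⟩ := ht
  have : 0 < s 1 * t.2 := by
    rcases Nat.eq_zero_or_pos (s 1 * t.2) with h | h
    · omega
    · exact h
  omega

end facts

lemma gg_prod {s : Fin 3 → ℕ} {q : ℕ} (hs2 : s 2 ≠ 0) (hq : Squarefree q)
    (hc : q.Coprime (s 0 * s 1)) :
    ∏ p ∈ q.primeFactors, gg s p = ((s 2).totient : ℝ) / ((s 2 * q).totient : ℝ) := by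
  have hq0 := hq.ne_zero
  have e1 : ∀ n : ℕ, ((n.totient : ℕ) : ℝ) = n * ∏ p ∈ n.primeFactors, (1 - (p : ℝ)⁻¹) := by
    intro n
    have := Nat.totient_eq_mul_prod_factors n
    have h2 : (((n.totient : ℚ)) : ℝ) = ((n * ∏ p ∈ n.primeFactors, (1 - (p : ℚ)⁻¹) : ℚ) : ℝ) := by
      rw [this]
    push_cast at h2
    exact h2
  have hpos : ∀ n : ℕ, ∀ p ∈ n.primeFactors, (0 : ℝ) < 1 - (p : ℝ)⁻¹ := by
    intro n p hp
    have hp2 : (2 : ℝ) ≤ p := by exact_mod_cast (Nat.prime_of_mem_primeFactors hp).two_le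
    have : (p : ℝ)⁻¹ ≤ 1 / 2 := by
      rw [inv_le_comm₀ (by linarith) (by norm_num)]; norm_num
      exact_mod_cast (Nat.prime_of_mem_primeFactors hp).two_le
    linarith
  have hs2r : (0 : ℝ) < s 2 := by exact_mod_cast Nat.pos_of_ne_zero hs2
  have hqr : (0 : ℝ) < q := by exact_mod_cast Nat.pos_of_ne_zero hq0
  rw [e1, e1, Nat.primeFactors_mul hs2 hq0]
  have e2 : ∏ p ∈ (s 2).primeFactors ∪ q.primeFactors, (1 - (p : ℝ)⁻¹) =
      (∏ p ∈ (s 2).primeFactors, (1 - (p : ℝ)⁻¹)) *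
        ∏ p ∈ q.primeFactors, (if p ∣ s 2 then (1 : ℝ) else 1 - (p : ℝ)⁻¹) := by
    rw [← union_sdiff_self_eq_union, prod_union disjoint_sdiff]
    congr 1
    rw [← prod_sdiff (inter_subset_left : q.primeFactors ∩ (s 2).primeFactors ⊆ q.primeFactors)]
    have e3 : ∏ p ∈ q.primeFactors ∩ (s 2).primeFactors,
        (if p ∣ s 2 then (1 : ℝ) else 1 - (p : ℝ)⁻¹) = 1 := by
      apply prod_eq_one
      intro p hp
      rw [if_pos (Nat.dvd_of_mem_primeFactors (mem_inter.1 hp).2)]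
    rw [e3, mul_one]
    apply prod_congr
    · ext p
      rw [mem_sdiff, mem_sdiff, mem_inter]
      tauto
    · intro p hp
      rw [mem_sdiff, mem_inter] at hp
      rw [if_neg]
      intro h
      exact hp.2 ⟨hp.1, Nat.mem_primeFactors.2 ⟨Nat.prime_of_mem_primeFactors hp.1, h, hs2⟩⟩
  rw [e2]
  have e4 : ((s 2 * q : ℕ) : ℝ) = s 2 * ∏ p ∈ q.primeFactors, (p : ℝ) := by
    push_cast
    congr 1
    conv_lhs => rw [← Nat.prod_primeFactors_of_squarefree hq]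
    push_cast
    rfl
  rw [e4]
  have h1 : 0 < ∏ p ∈ (s 2).primeFactors, (1 - (p : ℝ)⁻¹) := prod_pos (hpos _)
  have e5 : (s 2 : ℝ) * (∏ p ∈ (s 2).primeFactors, (1 - (p : ℝ)⁻¹)) /
      (s 2 * (∏ p ∈ q.primeFactors, (p : ℝ)) * ((∏ p ∈ (s 2).primeFactors, (1 - (p : ℝ)⁻¹)) *
        ∏ p ∈ q.primeFactors, (if p ∣ s 2 then (1 : ℝ) else 1 - (p : ℝ)⁻¹))) =
      1 / ((∏ p ∈ q.primeFactors, (p : ℝ)) *
        ∏ p ∈ q.primeFactors, (if p ∣ s 2 then (1 : ℝ) else 1 - (p : ℝ)⁻¹)) := by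
    have h2 : s 2 * (∏ p ∈ q.primeFactors, (p : ℝ)) * ((∏ p ∈ (s 2).primeFactors, (1 - (p : ℝ)⁻¹)) *
        ∏ p ∈ q.primeFactors, (if p ∣ s 2 then (1 : ℝ) else 1 - (p : ℝ)⁻¹)) =
        (s 2 * ∏ p ∈ (s 2).primeFactors, (1 - (p : ℝ)⁻¹)) * ((∏ p ∈ q.primeFactors, (p : ℝ)) *
        ∏ p ∈ q.primeFactors, (if p ∣ s 2 then (1 : ℝ) else 1 - (p : ℝ)⁻¹)) := by ring
    rw [h2, div_mul_cancel_left₀ (by positivity), one_div]
  rw [e5, ← prod_mul_distrib, one_div, ← prod_inv_distrib]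
  apply prod_congr rfl
  intro p hp
  have hpp := Nat.prime_of_mem_primeFactors hp
  have hp2 : (2 : ℝ) ≤ p := by exact_mod_cast hpp.two_le
  have hn : ¬ p ∣ s 0 * s 1 := by
    intro h
    have := Nat.dvd_gcd (Nat.dvd_of_mem_primeFactors hp) h
    rw [hc] at this
    exact hpp.one_lt.ne' (Nat.dvd_one.1 this)
  unfold gg
  rw [if_neg hn]
  split_ifs with h
  · rw [mul_one, one_div]
  · have hp0 : (p : ℝ) ≠ 0 := by positivity
    have : (p : ℝ) * (1 - (p : ℝ)⁻¹) = p - 1 := by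
      field_simp
    rw [this, one_div]

lemma ee_nonneg (x Q : ℕ) : 0 ≤ ee x Q := sum_nonneg fun _ _ => abs_nonneg _

lemma er_nonneg (X Q0 : ℕ) (s : Fin 3 → ℕ) (q : ℕ) : 0 ≤ er X Q0 s q := by
  unfold er
  apply add_nonneg
  · apply mul_nonneg
    · positivity
    · exact sum_nonneg fun _ _ => add_nonneg (ee_nonneg _ _) (ee_nonneg _ _)
  · apply mul_nonneg
    · positivity
    · exact sum_nonneg fun _ _ => add_nonneg (ee_nonneg _ _) (ee_nonneg _ _)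

/-- the remainders -/
theorem Rq_le (hCNT : St_CNT) {z Q0 a0 b0 X : ℕ} {s : Fin 3 → ℕ} {E : Finset ℕ} (hz : 2 ≤ z)
    (hM : Mod z Q0 a0 b0) (hD : Dat z s) (hE : E ⊆ (∏ j, s j).primeFactors) {q : ℕ}
    (hq : Squarefree q) (hqz : ∀ p ∈ q.primeFactors, z < p)
    (hX : 8 * (s 0 * s 1) * (s 2 * q) ≤ X) :
    Rq (AA X Q0 a0 b0 s E) (vv s) (gg s) (mA X Q0 s) q ≤ er X Q0 s q := by
  classical
  have hq0 : q ≠ 0 := hq.ne_zero
  have hq1 : 1 ≤ q := Nat.pos_of_ne_zero hq0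
  have hcopQ : ∀ n : ℕ, (∀ p : ℕ, p.Prime → p ∣ n → z < p) → n.Coprime Q0 := by
    intro n hn
    apply Nat.coprime_of_dvd
    intro p hp h1 h2
    have h3 := hM.le p hp h2
    have h4 := hn p hp h1
    omega
  have hqQ : q.Coprime Q0 := hcopQ q fun p hp h =>
    hqz p (Nat.mem_primeFactors.2 ⟨hp, h, hq0⟩)
  have hsQ : ∀ j, (s j).Coprime Q0 := fun j => hcopQ (s j) fun p hp h =>
    hD.gt p hp (h.trans (Dat.dvd j))
  by_cases hc : q.Coprime (s 0 * s 1)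
  · have h1 := hCNT X Q0 a0 b0 q s E ((by norm_num : 2 ∣ 64).trans hM.two) hM.ne hM.ca hM.cb hsQ
      hD.sqf hE hq1 (Nat.Coprime.mul_right hqQ hc) hX
    unfold Rq
    rw [gg_prod (hD.ne 2) hq hc]
    have h2 : ((AA X Q0 a0 b0 s E).filter (fun i => q ∣ vv s i)) =
        (AA X Q0 a0 b0 s E).filter (fun t => s 2 * q ∣ s 0 * t.1 - s 1 * t.2) := by
      apply filter_congr
      intro t ht
      rw [AA_eq hz hD hM ht]
      have hcop : Nat.Coprime q 32 := by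
        have : Nat.Coprime q 2 := by
          rw [Nat.coprime_comm, Nat.Prime.coprime_iff_not_dvd Nat.prime_two]
          intro h
          have := hqz 2 (Nat.mem_primeFactors.2 ⟨Nat.prime_two, h, hq0⟩)
          omega
        exact Nat.Coprime.pow_right 5 this
      have hs2 : 0 < s 2 := Nat.pos_of_ne_zero (hD.ne 2)
      have e : 32 * (s 2 * vv s t) = s 2 * (32 * vv s t) := by ring
      rw [e, Nat.mul_dvd_mul_iff_left hs2]
      constructor
      · intro h; exact h.mul_left _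
      · intro h; exact hcop.dvd_of_dvd_mul_left h
    rw [h2]
    exact h1
  · -- both sides vanish
    obtain ⟨p, hp, hpq, hps⟩ := Nat.Prime.not_coprime_iff_dvd.1 hc
    have hprod : ∏ p ∈ q.primeFactors, gg s p = 0 := by
      apply prod_eq_zero (Nat.mem_primeFactors.2 ⟨hp, hpq, hq0⟩)
      unfold gg
      rw [if_pos hps]
    have hcop := hD.cop
    have hempty : ((AA X Q0 a0 b0 s E).filter (fun i => q ∣ vv s i)) = ∅ := by
      rw [filter_eq_empty_iff]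
      intro t ht hqv
      have hlt := AA_lt ht
      have h1 := AA_eq hz hD hM ht
      have hpd : p ∣ s 0 * t.1 - s 1 * t.2 := by
        rw [h1]
        exact ((hpq.trans hqv).mul_left _).mul_left _
      unfold AA at ht
      rw [mem_filter] at ht
      obtain ⟨-, hm, hn, k1, k2, k3, k4, -⟩ := ht
      have hs01 : 8 * (s 0 * s 1) ≤ X := by
        refine le_trans ?_ hX
        apply Nat.le_mul_of_pos_right
        exact Nat.mul_pos (Nat.pos_of_ne_zero (hD.ne 2)) hq1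
      have hs0p : 0 < s 0 := Nat.pos_of_ne_zero (hD.ne 0)
      have hs1p : 0 < s 1 := Nat.pos_of_ne_zero (hD.ne 1)
      have n1 : s 0 < t.2 := by
        have : s 1 * s 0 < s 1 * t.2 := by
          have e : s 1 * s 0 = s 0 * s 1 := mul_comm _ _
          omega
        exact Nat.lt_of_mul_lt_mul_left this
      have n2 : s 1 < t.1 := by
        have : s 0 * s 1 < s 0 * t.1 := by omega
        exact Nat.lt_of_mul_lt_mul_left this
      have hsub : ∀ a b : ℕ, b ≤ a → p ∣ a - b → (p ∣ a ↔ p ∣ b) := by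
        intro a b hab h
        obtain ⟨c, hc⟩ : ∃ c, a = b + c := ⟨a - b, by omega⟩
        subst hc
        rw [Nat.add_sub_cancel_left] at h
        exact (Nat.dvd_add_iff_left h).symm
      have hiff := hsub _ _ hlt.le hpd
      rcases (hp.dvd_mul).1 hps with h | h
      · have h2 : p ∣ s 1 * t.2 := hiff.1 (h.mul_right _)
        rcases (hp.dvd_mul).1 h2 with h3 | h3
        · have := Nat.dvd_gcd h h3
          rw [hcop.1] at this
          exact hp.one_lt.ne' (Nat.dvd_one.1 this)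
        · have h4 : p = t.2 := (Nat.prime_dvd_prime_iff_eq hp hn).1 h3
          have := Nat.le_of_dvd hs0p h
          omega
      · have h2 : p ∣ s 0 * t.1 := hiff.2 (h.mul_right _)
        rcases (hp.dvd_mul).1 h2 with h3 | h3
        · have := Nat.dvd_gcd h3 h
          rw [hcop.1] at this
          exact hp.one_lt.ne' (Nat.dvd_one.1 this)
        · have h4 : p = t.1 := (Nat.prime_dvd_prime_iff_eq hp hm).1 h3
          have := Nat.le_of_dvd hs1p h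
          omega
    unfold Rq
    rw [hempty, hprod]
    simpa using er_nonneg X Q0 s q

end Pool.Agent.Y667.RP
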