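import Pool.Agent.Y667.RP.M3

/-!
# Project RP, the main argument, part 4: the good pairs
-/

set_option autoImplicit false

namespace Pool.Agent.Y667.RP

open Finset Pool.Agent.W262.RK Pool.Agent.W307.RT Pool.Agent.W307.RS Pool.Agent.W307.SE
  Pool.Agent.W307.FK

/-- one more prime in the third class -/
def up (s : Fin 3 → ℕ) (q : ℕ) : Fin 3 → ℕ := Function.update s 2 (s 2 * q)

lemma up_zero (s : Fin 3 → ℕ) (q : ℕ) : up s q 0 = s 0 := Function.update_of_ne (by decide) _ _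

lemma up_one (s : Fin 3 → ℕ) (q : ℕ) : up s q 1 = s 1 := Function.update_of_ne (by decide) _ _

lemma up_two (s : Fin 3 → ℕ) (q : ℕ) : up s q 2 = s 2 * q := Function.update_self _ _ _

lemma up_prod (s : Fin 3 → ℕ) (q : ℕ) : ∏ j, up s q j = (∏ j, s j) * q := upd_prod s 2 q

open Classical in
/-- the bad sign -/
noncomputable def Eb (s : Fin 3 → ℕ) (E : Finset ℕ) (q : ℕ) : Finset ℕ :=
  if V0 (up s q) E = {(1, 1)} then insert q E else E

/-- no prime factor `< X ^ (1/4)` -/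
def Rg (X l : ℕ) : Prop := ∀ p : ℕ, p.Prime → p ∣ l → (X : ℝ) ^ (1 / 4 : ℝ) ≤ p

/-- the primes in `[X ^ (1/4), X ^ (1/2)]` -/
noncomputable def Pr (X : ℕ) : Finset ℕ := (Icc 1 X).filter (fun q : ℕ => q.Prime ∧
  (X : ℝ) ^ (1 / 4 : ℝ) ≤ q ∧ (q : ℝ) ≤ (X : ℝ) ^ (1 / 2 : ℝ))

lemma sgF_up (a b : ℤ) (m q : ℕ) (hm : m ≠ 0) (hq : q.Prime) :
    sgF a b (m * q) = sgF a b m ∨ sgF a b (m * q) = insert q (sgF a b m) := by
  classical
  unfold sgF
  rw [Nat.primeFactors_mul hm hq.ne_zero, Nat.Prime.primeFactors hq, filter_union, filter_singleton]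
  split_ifs with h
  · right
    rw [union_comm]
    rfl
  · left
    rw [union_empty]

lemma Dat_up {z : ℕ} {s : Fin 3 → ℕ} (hD : Dat z s) {q : ℕ} (hq : q.Prime) (hqz : z < q)
    (hqs : ¬ q ∣ ∏ j, s j) : Dat z (up s q) := by
  constructor
  · rw [up_prod, Nat.squarefree_mul_iff]
    exact ⟨((Nat.Prime.coprime_iff_not_dvd hq).2 hqs).symm, hD.sqf, hq.squarefree⟩
  · intro p hp h
    rw [up_prod] at h
    rcases (hp.dvd_mul).1 h with h | h
    · exact hD.gt p hp h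
    · rw [(Nat.prime_dvd_prime_iff_eq hp hq).1 h]
      exact hqz

/-- the Selmer group is small -/
lemma sel_small {z : ℕ} {s : Fin 3 → ℕ} (hz : 2 ≤ z) (hD : Dat z s) {m n l : ℕ} (hm : m.Prime)
    (hn : n.Prime) (hl : l.Prime) (hmn : m ≠ n) (hms : ¬ m ∣ ∏ j, s j) (hns : ¬ n ∣ ∏ j, s j)
    (hls : ¬ l ∣ ∏ j, s j) (hlt : s 1 * n < s 0 * m)
    (he : s 0 * m - s 1 * n = 32 * (s 2 * l)) (ha : (s 0 * m) % 64 = 33) (hb : (s 1 * n) % 64 = 1)
    (hV : V0 s (sgF ((s 0 * m : ℕ) : ℤ) ((s 1 * n : ℕ) : ℤ) (∏ j, s j)) = {(1, 1)}) :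
    (Sel ((s 0 * m : ℕ) : ℤ) ((s 1 * n : ℕ) : ℤ)).Finite ∧
      (Sel ((s 0 * m : ℕ) : ℤ) ((s 1 * n : ℕ) : ℤ)).ncard ≤ 8 := by
  have he' : s 0 * m = s 1 * n + 32 * (s 2 * l) := by omega
  have h2 : ∀ p : ℕ, p.Prime → p ∣ s 0 * m → p ≠ 2 := by
    rintro p hp h rfl
    omega
  have hodd2 : ∀ x : ℕ, x % 64 = 33 ∨ x % 64 = 1 → ¬ 2 ∣ x := by
    intro x hx h
    omega
  have hm2 : m ≠ 2 := by
    rintro rfl
    exact hodd2 _ (Or.inl ha) (dvd_mul_left _ _)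
  have hn2 : n ≠ 2 := by
    rintro rfl
    exact hodd2 _ (Or.inr hb) (dvd_mul_left _ _)
  have hl2 : l ≠ 2 := by
    rintro rfl
    omega
  have hs0P : s 0 ∣ ∏ j, s j := Dat.dvd 0
  have hs1P : s 1 ∣ ∏ j, s j := Dat.dvd 1
  have hml : m ≠ l := by
    rintro rfl
    have h1 : m ∣ s 1 * n := by
      have h3 : m ∣ s 0 * m := dvd_mul_left _ _
      rw [he'] at h3
      exact (Nat.dvd_add_left (dvd_mul_of_dvd_right (dvd_mul_left _ _) _)).1 h3
    rcases (hm.dvd_mul).1 h1 with h | h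
    · exact hms (h.trans hs1P)
    · exact hmn ((Nat.prime_dvd_prime_iff_eq hm hn).1 h)
  have hnl : n ≠ l := by
    rintro rfl
    have h1 : n ∣ s 0 * m := by
      rw [he']
      exact dvd_add (dvd_mul_left _ _) (dvd_mul_of_dvd_right (dvd_mul_left _ _) _)
    rcases (hn.dvd_mul).1 h1 with h | h
    · exact hns (h.trans hs0P)
    · exact hmn ((Nat.prime_dvd_prime_iff_eq hn hm).1 h).symm
  refine SEL _ _ s m n l hm hn hl hmn hml hnl hD.sqf (hD.odd hz) hm2 hn2 hl2 hms hns hls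
    (by push_cast; ring) (by push_cast; ring) ?_ ?_ ?_ hV
  · rw [he']
    push_cast
    ring
  · omega
  · omega

/-- the conditions for a good pair -/
lemma goodP_of {z Q0 a0 b0 X : ℕ} {s : Fin 3 → ℕ} {E : Finset ℕ} {t : ℕ × ℕ} (hz : 3 ≤ z)
    (hM : Mod z Q0 a0 b0) (hD : Dat z s) (ht : t ∈ AA X Q0 a0 b0 s E) (hne : t.1 ≠ t.2)
    (h1 : ¬ t.1 ∣ ∏ j, s j) (h2 : ¬ t.2 ∣ ∏ j, s j)
    (hS : (Sel ((s 0 * t.1 : ℕ) : ℤ) ((s 1 * t.2 : ℕ) : ℤ)).Finite ∧
      (Sel ((s 0 * t.1 : ℕ) : ℤ) ((s 1 * t.2 : ℕ) : ℤ)).ncard ≤ 8) :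
    GoodP X (s 0 * t.1, s 1 * t.2) := by
  unfold AA at ht
  rw [mem_filter] at ht
  obtain ⟨-, hm, hn, k1, k2, k3, k4, k5, k6, -⟩ := ht
  have hQ3 : 3 ∣ Q0 := hM.dvd 3 Nat.prime_three hz
  refine ⟨k1, k2, k3, k4, ?_, ?_, ?_, hS.1, hS.2⟩
  · have h3 : s 0 * t.1 ≡ a0 [MOD 3] := k5.of_dvd hQ3
    have h4 := hM.ap 3 Nat.prime_three le_rfl hz
    rw [Nat.ModEq] at h3
    show (s 0 * t.1) % 3 = 1
    omega
  · have h3 : s 1 * t.2 ≡ b0 [MOD 3] := k6.of_dvd hQ3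
    have h4 := hM.bp 3 Nat.prime_three le_rfl hz
    rw [Nat.ModEq] at h3
    show (s 1 * t.2) % 3 = 2
    omega
  · show Nat.Coprime (s 0 * t.1) (s 1 * t.2)
    have c1 := hD.cop.1
    have c2 : (s 0).Coprime t.2 := by
      rw [Nat.coprime_comm, Nat.Prime.coprime_iff_not_dvd hn]
      exact fun h => h2 (h.trans (Dat.dvd 0))
    have c3 : t.1.Coprime (s 1) := by
      rw [Nat.Prime.coprime_iff_not_dvd hm]
      exact fun h => h1 (h.trans (Dat.dvd 1))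
    have c4 : t.1.Coprime t.2 := (Nat.coprime_primes hm hn).2 hne
    exact Nat.Coprime.mul_left (Nat.Coprime.mul_right c1 c2) (Nat.Coprime.mul_right c3 c4)

/-- the exceptional pairs -/
def Exc (X : ℕ) (s : Fin 3 → ℕ) (t : ℕ × ℕ) : Prop :=
  t.1 = t.2 ∨ ∃ q : ℕ, q.Prime ∧ (X : ℝ) ^ (1 / 4 : ℝ) ≤ q ∧ q ^ 2 ∣ vv s t

/-- the numerical conditions on `X` -/
structure Big (z X : ℕ) : Prop where
  two : 2 ≤ X
  r4 : (z : ℝ) < (X : ℝ) ^ (1 / 4 : ℝ)
  k4 : (X : ℝ) ^ (1 / 2000 : ℝ) < (X : ℝ) ^ (1 / 4 : ℝ)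
  k8 : 128 * (X : ℝ) ^ (1 / 2000 : ℝ) < (X : ℝ) ^ (1 / 4 : ℝ)

lemma Big.le {z X : ℕ} (hB : Big z X) {u v : ℕ} (hu : (u : ℝ) ≤ (X : ℝ) ^ (1 / 2000 : ℝ))
    (hv : (v : ℝ) ≤ (X : ℝ) ^ (1 / 2 : ℝ)) : 128 * (u * v) < X := by
  have hX0 : (0 : ℝ) < X := by have := hB.two; positivity
  have h1 : (1 : ℝ) ≤ X := by exact_mod_cast (by have := hB.two; omega : 1 ≤ X)
  have h2 : (X : ℝ) ^ (1 / 4 : ℝ) * (X : ℝ) ^ (1 / 2 : ℝ) ≤ X := by
    rw [← Real.rpow_add hX0]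
    calc (X : ℝ) ^ ((1 / 4 : ℝ) + 1 / 2) ≤ (X : ℝ) ^ (1 : ℝ) :=
          Real.rpow_le_rpow_of_exponent_le h1 (by norm_num)
      _ = X := Real.rpow_one _
  have h3 : 128 * ((u : ℝ) * v) < X := by
    have h5 : 0 < (X : ℝ) ^ (1 / 2 : ℝ) := by positivity
    calc 128 * ((u : ℝ) * v) ≤ 128 * ((X : ℝ) ^ (1 / 2000 : ℝ) * (X : ℝ) ^ (1 / 2 : ℝ)) := by gcongr
      _ = (128 * (X : ℝ) ^ (1 / 2000 : ℝ)) * (X : ℝ) ^ (1 / 2 : ℝ) := by ring
      _ < (X : ℝ) ^ (1 / 4 : ℝ) * (X : ℝ) ^ (1 / 2 : ℝ) := mul_lt_mul_of_pos_right hB.k8 h5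
      _ ≤ X := h2
  exact_mod_cast h3

lemma Big.half {z X : ℕ} (hB : Big z X) :
    (X : ℝ) ^ (1 / 2000 : ℝ) ≤ (X : ℝ) ^ (1 / 2 : ℝ) :=
  Real.rpow_le_rpow_of_exponent_le (by exact_mod_cast (by have := hB.two; omega : 1 ≤ X))
    (by norm_num)

/-- small data -/
def Sml (X : ℕ) (s : Fin 3 → ℕ) : Prop := ∀ j, (s j : ℝ) ≤ (X : ℝ) ^ (1 / 2000 : ℝ)

section cls

variable {z Q0 a0 b0 X : ℕ} {s : Fin 3 → ℕ} {E : Finset ℕ} {t : ℕ × ℕ}

/-- a prime bigger than the three parts -/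
lemma nd_of_gt {p : ℕ} (hp : p.Prime) (h : ∀ j, s j < p) (hD : Dat z s) : ¬ p ∣ ∏ j, s j := by
  intro hd
  obtain ⟨j, -, hj⟩ := (hp.prime.dvd_finsetProd_iff _).1 hd
  have h1 := Nat.le_of_dvd (Nat.pos_of_ne_zero (hD.ne j)) hj
  have h2 := h j
  omega

lemma AA_big (hB : Big z X) (hS : Sml X s) (ht : t ∈ AA X Q0 a0 b0 s E) :
    (∀ j, s j < t.1) ∧ (∀ j, s j < t.2) ∧ (∀ u : ℕ, (u : ℝ) ≤ (X : ℝ) ^ (1 / 2 : ℝ) → u < t.1 ∧
      u < t.2) := by
  unfold AA at ht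
  rw [mem_filter] at ht
  obtain ⟨-, hm, hn, k1, k2, k3, k4, -⟩ := ht
  have key : ∀ u : ℕ, (u : ℝ) ≤ (X : ℝ) ^ (1 / 2 : ℝ) → u < t.1 ∧ u < t.2 := by
    intro u hu
    have h1 := hB.le (hS 0) hu
    have h2 := hB.le (hS 1) hu
    constructor
    · have : s 0 * u < s 0 * t.1 := by omega
      exact Nat.lt_of_mul_lt_mul_left this
    · have : s 1 * u < s 1 * t.2 := by omega
      exact Nat.lt_of_mul_lt_mul_left this
  exact ⟨fun j => (key (s j) ((hS j).trans hB.half)).1, fun j =>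
    (key (s j) ((hS j).trans hB.half)).2, key⟩

/-- classification -/
theorem cls (hz : 3 ≤ z) (hB : Big z X) (hM : Mod z Q0 a0 b0) (hD : Dat z s) (hS : Sml X s)
    (hE : E ⊆ (∏ j, s j).primeFactors) (hV : V0 s E = {(1, 1)}) (ht : t ∈ AA X Q0 a0 b0 s E)
    (hr : Rg X (vv s t)) :
    GoodP X (s 0 * t.1, s 1 * t.2) ∨ Exc X s t ∨ (Wt X (vv s t) ≤ 4961 / 10000 ∧
      ∃ q ∈ Pr X, t ∈ AA X Q0 a0 b0 (up s q) (Eb s E q) ∧ Rg X (vv (up s q) t)) ∨
      Wt X (vv s t) ≤ 0 := by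
  classical
  have hz2 : 2 ≤ z := by omega
  by_cases hexc : Exc X s t
  · exact Or.inr (Or.inl hexc)
  have hne : t.1 ≠ t.2 := fun h => hexc (Or.inl h)
  have hns : ¬ ∃ q : ℕ, q.Prime ∧ (X : ℝ) ^ (1 / 4 : ℝ) ≤ q ∧ q ^ 2 ∣ vv s t :=
    fun h => hexc (Or.inr h)
  have hsize := AA_size hz2 hD hM ht
  have heq := AA_eq hz2 hD hM ht
  have hlt := AA_lt ht
  have hmod := AA_mod64 hM ht
  obtain ⟨hb1, hb2, hb3⟩ := AA_big hB hS ht
  have hmem := ht
  unfold AA at hmem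
  rw [mem_filter] at hmem
  obtain ⟨hI, hm, hn, k1, k2, k3, k4, k5, k6, k7, k8⟩ := hmem
  have hs2 : 0 < s 2 := Nat.pos_of_ne_zero (hD.ne 2)
  have hv1 : 1 < vv s t := by
    by_contra hcon
    push Not at hcon
    have h1 := hB.le (hS 2) (v := 1) (by
      rw [Nat.cast_one]
      exact Real.one_le_rpow (by exact_mod_cast (by have := hB.two; omega : 1 ≤ X)) (by norm_num))
    have h2 : s 2 * vv s t ≤ s 2 * 1 := Nat.mul_le_mul_left _ hcon
    omega
  have hvX : vv s t < X := by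
    have : vv s t ≤ s 2 * vv s t := Nat.le_mul_of_pos_left _ hs2
    omega
  have hgt : ∀ p : ℕ, p.Prime → p ∣ vv s t → ∀ j, s j < p := by
    intro p hp h j
    have h1 := hr p hp h
    have h2 := hS j
    have h3 := hB.k4
    have : (s j : ℝ) < p := by linarith
    exact_mod_cast this
  rcases Wt_class hB.two hv1 hvX hr with h | h | h | h
  · left
    refine goodP_of hz hM hD ht hne (nd_of_gt hm hb1 hD) (nd_of_gt hn hb2 hD) ?_
    refine sel_small hz2 hD hm hn h hne (nd_of_gt hm hb1 hD) (nd_of_gt hn hb2 hD)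
      (nd_of_gt h (hgt _ h dvd_rfl) hD) hlt heq hmod.1 hmod.2 ?_
    rw [k8]
    exact hV
  · exact absurd h hns
  · obtain ⟨q1, q2, hq1, hq2, hq12, hl, hr1, hr2, hW⟩ := h
    have hq1X : q1 < X := by
      have : q1 ≤ vv s t := Nat.le_of_dvd (by omega) (by rw [hl]; exact dvd_mul_right _ _)
      omega
    have hPr : q1 ∈ Pr X := by
      unfold Pr
      rw [mem_filter, mem_Icc]
      exact ⟨⟨hq1.one_lt.le, hq1X.le⟩, hq1, hr1, hr2⟩
    have hq1s : ¬ q1 ∣ ∏ j, s j :=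
      nd_of_gt hq1 (hgt q1 hq1 (by rw [hl]; exact dvd_mul_right _ _)) hD
    have hq2s : ¬ q2 ∣ ∏ j, s j :=
      nd_of_gt hq2 (hgt q2 hq2 (by rw [hl]; exact dvd_mul_left _ _)) hD
    have hq1z : z < q1 := by
      have h1 := hB.r4
      have : (z : ℝ) < q1 := by linarith
      exact_mod_cast this
    have hD' := Dat_up hD hq1 hq1z hq1s
    set F := sgF ((s 0 * t.1 : ℕ) : ℤ) ((s 1 * t.2 : ℕ) : ℤ) (∏ j, up s q1 j) with hF
    have heq' : s 0 * t.1 - s 1 * t.2 = 32 * ((s 2 * q1) * q2) := by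
      rw [heq, hl]; ring
    have htF : t ∈ AA X Q0 a0 b0 (up s q1) F := by
      unfold AA
      rw [mem_filter, up_zero, up_one, up_two]
      refine ⟨hI, hm, hn, k1, k2, k3, k4, k5, k6, ?_, rfl⟩
      rw [heq']
      exact (dvd_mul_right _ _).mul_left _
    have hFE : F = E ∨ F = insert q1 E := by
      rw [hF, up_prod]
      have := sgF_up ((s 0 * t.1 : ℕ) : ℤ) ((s 1 * t.2 : ℕ) : ℤ) (∏ j, s j) q1 hD.sqf.ne_zero hq1
      rw [k8] at this
      exact this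
    by_cases hFb : F = Eb s E q1
    · right; right; left
      refine ⟨hW, q1, hPr, ?_, ?_⟩
      · rw [← hFb]; exact htF
      · have hvv : vv (up s q1) t = q2 := by
          have h1 := AA_eq hz2 hD' hM htF
          rw [up_zero, up_one, up_two, heq'] at h1
          have h2 : 0 < 32 * (s 2 * q1) := by have := hq1.pos; positivity
          have h3 : 32 * (s 2 * q1) * q2 = 32 * (s 2 * q1) * vv (up s q1) t := by
            rw [mul_assoc, h1, ← mul_assoc]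
          exact (Nat.eq_of_mul_eq_mul_left h2 h3).symm
        rw [hvv]
        intro p hp hpq
        rw [(Nat.prime_dvd_prime_iff_eq hp hq2).1 hpq]
        have : (q1 : ℝ) ≤ q2 := by exact_mod_cast hq12.le
        linarith
    · left
      have hq1E : q1 ∉ E := by
        intro h
        exact hq1s (Nat.dvd_of_mem_primeFactors (hE h))
      have hVF : V0 (up s q1) F = {(1, 1)} := by
        unfold Eb at hFb
        by_cases hVE : V0 (up s q1) E = {(1, 1)}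
        · rw [if_pos hVE] at hFb
          rw [hFE.resolve_right hFb]
          exact hVE
        · rw [if_neg hVE] at hFb
          rw [hFE.resolve_left hFb]
          have hinter : (insert q1 E) ∩ (∏ j, s j).primeFactors =
              E ∩ (∏ j, s j).primeFactors := by
            rw [insert_inter_of_notMem]
            intro h
            exact hq1s (Nat.dvd_of_mem_primeFactors h)
          have h1 := ONE s (insert q1 E) E q1 2 hD.sqf (hD.odd hz2) hq1 (by omega) hq1s hinter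
            (mem_insert_self _ _) hq1E (by rw [V0_congr hinter]; exact hV)
          rcases h1 with h1 | h1
          · exact h1
          · exact absurd h1 hVE
      refine goodP_of hz hM hD ht hne (nd_of_gt hm hb1 hD) (nd_of_gt hn hb2 hD) ?_
      have hq1m : ¬ t.1 ∣ ∏ j, up s q1 j := by
        rw [up_prod]
        intro h
        rcases (hm.dvd_mul).1 h with h | h
        · exact nd_of_gt hm hb1 hD h
        · have h1 := (Nat.prime_dvd_prime_iff_eq hm hq1).1 h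
          have := (hb3 q1 hr2).1
          omega
      have hq1n : ¬ t.2 ∣ ∏ j, up s q1 j := by
        rw [up_prod]
        intro h
        rcases (hn.dvd_mul).1 h with h | h
        · exact nd_of_gt hn hb2 hD h
        · have h1 := (Nat.prime_dvd_prime_iff_eq hn hq1).1 h
          have := (hb3 q1 hr2).2
          omega
      have hq12' : ¬ q2 ∣ ∏ j, up s q1 j := by
        rw [up_prod]
        intro h
        rcases (hq2.dvd_mul).1 h with h | h
        · exact hq2s h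
        · have h1 := (Nat.prime_dvd_prime_iff_eq hq2 hq1).1 h
          omega
      have h5 := sel_small hz2 hD' (m := t.1) (n := t.2) (l := q2) hm hn hq2 hne hq1m hq1n hq12'
      rw [up_zero, up_one, up_two] at h5
      exact h5 hlt heq' hmod.1 hmod.2 hVF
  · exact Or.inr (Or.inr (Or.inr h))

end cls

end Pool.Agent.Y667.RP
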