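import Pool.Agent.Y667.RP.M4
import Pool.Agent.Y667.RP.M2

/-!
# Project RP, the main argument, part 5: the inequality for one datum
-/

set_option autoImplicit false

namespace Pool.Agent.Y667.RP

open Finset Filter Pool.Agent.W262.RK Pool.Agent.W307.RT Pool.Agent.W307.RS Pool.Agent.W307.SE
  Pool.Agent.W307.FK

/-- the product over the small primes -/
noncomputable def VP (ε : ℝ) (X z : ℕ) (s : Fin 3 → ℕ) : ℝ :=
  ∏ p ∈ (Ioc z X).filter (fun p : ℕ => p.Prime ∧ (p : ℝ) < (X : ℝ) ^ ε), (1 - gg s p)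

/-- the error of one datum -/
noncomputable def Er (X Q0 z : ℕ) (s : Fin 3 → ℕ) : ℝ :=
  ∑ q ∈ Lev z ((X : ℝ) ^ (99 / 100 : ℝ)), er X Q0 s q +
    ∑ q1 ∈ Pr X, ∑ q ∈ Lev z ((X : ℝ) ^ (49 / 100 : ℝ)), er X Q0 (up s q1) q

lemma gg_bd {s : Fin 3 → ℕ} {p : ℕ} (hp : p.Prime) :
    0 ≤ gg s p ∧ gg s p ≤ 1 / ((p : ℝ) - 1) ∧ (¬ p ∣ ∏ j, s j → gg s p = 1 / ((p : ℝ) - 1)) := by
  have hp2 : (2 : ℝ) ≤ p := by exact_mod_cast hp.two_le
  have h1 : (0 : ℝ) < (p : ℝ) - 1 := by linarith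
  unfold gg
  split_ifs with h2 h3
  · refine ⟨le_rfl, by positivity, fun h => ?_⟩
    exfalso
    apply h
    rw [Fin.prod_univ_three]
    exact h2.mul_right _
  · refine ⟨by positivity, ?_, fun h => ?_⟩
    · exact one_div_le_one_div_of_le h1 (by linarith)
    · exfalso
      apply h
      rw [Fin.prod_univ_three]
      exact h3.mul_left _
  · exact ⟨by positivity, le_rfl, fun _ => rfl⟩

lemma gg_up {s : Fin 3 → ℕ} {p q : ℕ} (hp : p.Prime) (hq : q.Prime) (hpq : p ≠ q) :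
    gg (up s q) p = gg s p := by
  unfold gg
  rw [up_zero, up_one, up_two]
  have : p ∣ s 2 * q ↔ p ∣ s 2 := by
    constructor
    · intro h
      rcases (hp.dvd_mul).1 h with h | h
      · exact h
      · exact absurd ((Nat.prime_dvd_prime_iff_eq hp hq).1 h) hpq
    · exact fun h => h.mul_right _
  simp only [this]

lemma VP_up {ε : ℝ} {X z : ℕ} {s : Fin 3 → ℕ} {q : ℕ} (hX : 2 ≤ X) (hε : ε ≤ 1 / 4) (hq : q.Prime)
    (hqX : (X : ℝ) ^ (1 / 4 : ℝ) ≤ q) : VP ε X z (up s q) = VP ε X z s := by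
  unfold VP
  apply prod_congr rfl
  intro p hp
  rw [mem_filter] at hp
  rw [gg_up hp.2.1 hq]
  rintro rfl
  have h1 : (X : ℝ) ^ ε ≤ (X : ℝ) ^ (1 / 4 : ℝ) :=
    Real.rpow_le_rpow_of_exponent_le (by exact_mod_cast (by omega : 1 ≤ X)) hε
  linarith [hp.2.2]

lemma VP_nonneg {ε : ℝ} {X z : ℕ} {s : Fin 3 → ℕ} (hz : 2 ≤ z) : 0 ≤ VP ε X z s := by
  unfold VP
  apply prod_nonneg
  intro p hp
  rw [mem_filter, mem_Ioc] at hp
  have h1 := (gg_bd (s := s) hp.2.1).2.1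
  have hp3 : (3 : ℝ) ≤ p := by exact_mod_cast (by omega : 3 ≤ p)
  have h2 : 1 / ((p : ℝ) - 1) ≤ 1 := by
    rw [div_le_one (by linarith)]
    linarith
  linarith

lemma mA_up {X Q0 : ℕ} {s : Fin 3 → ℕ} {q z : ℕ} (hD : Dat z s) (hq : q.Prime)
    (hqs : ¬ q ∣ ∏ j, s j) : mA X Q0 (up s q) = mA X Q0 s * (1 / 2 * (1 / ((q : ℝ) - 1))) := by
  unfold mA
  have h1 : (∏ j, up s q j).primeFactors.card = (∏ j, s j).primeFactors.card + 1 := by
    rw [up_prod, Nat.primeFactors_mul hD.sqf.ne_zero hq.ne_zero, Nat.Prime.primeFactors hq,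
      card_union_of_disjoint, card_singleton]
    rw [disjoint_singleton_right]
    exact fun h => hqs (Nat.dvd_of_mem_primeFactors h)
  have h2 : (up s q 2).totient = (s 2).totient * (q - 1) := by
    rw [up_two, Nat.totient_mul, Nat.totient_prime hq]
    rw [Nat.coprime_comm, Nat.Prime.coprime_iff_not_dvd hq]
    exact fun h => hqs (h.trans (Dat.dvd 2))
  rw [h1, h2, up_zero, up_one, Nat.cast_mul, Nat.cast_sub hq.one_lt.le, Nat.cast_one, pow_succ]
  have hq1 : (0 : ℝ) < (q : ℝ) - 1 := by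
    have : (2 : ℝ) ≤ q := by exact_mod_cast hq.two_le
    linarith
  have h3 : (1 : ℝ) / 2 * (1 / ((q : ℝ) - 1)) = 1 / (2 * ((q : ℝ) - 1)) := by
    rw [div_mul_div_comm, one_mul]
  rw [h3, div_mul_div_comm, mul_one]
  congr 1
  ring

open Classical in
/-- the sum of the weights -/
lemma Wt_sum {z Q0 a0 b0 X : ℕ} {s : Fin 3 → ℕ} {E : Finset ℕ} (hz : 3 ≤ z) (hB : Big z X)
    (hM : Mod z Q0 a0 b0) (hD : Dat z s) (hS : Sml X s) (hE : E ⊆ (∏ j, s j).primeFactors)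
    (hV : V0 s E = {(1, 1)}) :
    ∑ t ∈ (AA X Q0 a0 b0 s E).filter (fun t => RR X z (vv s t)), Wt X (vv s t) ≤
      (((AA X Q0 a0 b0 s E).filter (fun t => Rg X (vv s t) ∧
        GoodP X (s 0 * t.1, s 1 * t.2))).card : ℝ) +
      (((AA X Q0 a0 b0 s E).filter (fun t => Rg X (vv s t) ∧ Exc X s t)).card : ℝ) +
      4961 / 10000 * ∑ q ∈ Pr X, (((AA X Q0 a0 b0 (up s q) (Eb s E q)).filter
        (fun t => RR X z (vv (up s q) t))).card : ℝ) := by
  have hz2 : 2 ≤ z := by omega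
  have hrg : ∀ t ∈ AA X Q0 a0 b0 s E, RR X z (vv s t) → Rg X (vv s t) := by
    intro t ht h p hp hpv
    by_contra hcon
    push Not at hcon
    rcases Nat.lt_or_ge z p with h1 | h1
    · exact h p hp h1 hcon hpv
    · exact AA_small hz2 hD hM ht hp h1 hpv
  have hrr : ∀ l : ℕ, Rg X l → RR X z l := by
    intro l h p hp _ h2 h3
    have := h p hp h3
    linarith
  set Ω := AA X Q0 a0 b0 s E with hΩ
  set BB : ℕ → Finset (ℕ × ℕ) := fun q => (AA X Q0 a0 b0 (up s q) (Eb s E q)).filter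
        (fun t => RR X z (vv (up s q) t)) with hBB
  have hpt : ∀ t ∈ Ω.filter (fun t => RR X z (vv s t)), Wt X (vv s t) ≤
      (if Rg X (vv s t) ∧ GoodP X (s 0 * t.1, s 1 * t.2) then (1 : ℝ) else 0) +
      (if Rg X (vv s t) ∧ Exc X s t then (1 : ℝ) else 0) +
      4961 / 10000 * ∑ q ∈ Pr X, (if t ∈ BB q then (1 : ℝ) else 0) := by
    intro t ht
    rw [mem_filter] at ht
    obtain ⟨ht, hR⟩ := ht
    have hr := hrg t ht hR
    have hW1 : Wt X (vv s t) ≤ 1 := Wt_le_one hB.two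
    have n1 : (0 : ℝ) ≤ (if Rg X (vv s t) ∧ GoodP X (s 0 * t.1, s 1 * t.2) then (1 : ℝ) else 0) := by
      split_ifs <;> norm_num
    have n2 : (0 : ℝ) ≤ (if Rg X (vv s t) ∧ Exc X s t then (1 : ℝ) else 0) := by
      split_ifs <;> norm_num
    have n3 : (0 : ℝ) ≤ ∑ q ∈ Pr X, (if t ∈ BB q then (1 : ℝ) else 0) :=
      sum_nonneg fun q _ => by split_ifs <;> norm_num
    rcases cls hz hB hM hD hS hE hV ht hr with h | h | ⟨h, q, hq, h1, h2⟩ | h
    · have e : (if Rg X (vv s t) ∧ GoodP X (s 0 * t.1, s 1 * t.2) then (1 : ℝ) else 0) = 1 :=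
        if_pos ⟨hr, h⟩
      linarith
    · have e : (if Rg X (vv s t) ∧ Exc X s t then (1 : ℝ) else 0) = 1 := if_pos ⟨hr, h⟩
      linarith
    · have h3 : (1 : ℝ) ≤ ∑ q ∈ Pr X, (if t ∈ BB q then (1 : ℝ) else 0) := by
        have h4 : (if t ∈ BB q then (1 : ℝ) else 0) = 1 := by
          rw [if_pos]
          rw [hBB]
          simp only [mem_filter]
          exact ⟨h1, hrr _ h2⟩
        exact h4.symm.le.trans (single_le_sum (f := fun q => if t ∈ BB q then (1 : ℝ) else 0)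
          (fun q _ => by split_ifs <;> norm_num) hq)
      linarith
    · linarith
  refine (sum_le_sum hpt).trans ?_
  rw [sum_add_distrib, sum_add_distrib, ← mul_sum, sum_comm]
  have hcard : ∀ (P : ℕ × ℕ → Prop), ∑ t ∈ Ω.filter (fun t => RR X z (vv s t)),
      (if P t then (1 : ℝ) else 0) ≤ ((Ω.filter P).card : ℝ) := by
    intro P
    rw [← sum_filter, sum_const, nsmul_eq_mul, mul_one]
    exact_mod_cast card_le_card (by
      intro t ht
      rw [mem_filter, mem_filter] at ht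
      exact mem_filter.2 ⟨ht.1.1, ht.2⟩)
  have hcard2 : ∀ q ∈ Pr X, ∑ t ∈ Ω.filter (fun t => RR X z (vv s t)),
      (if t ∈ BB q then (1 : ℝ) else 0) ≤ ((BB q).card : ℝ) := by
    intro q _
    rw [← sum_filter, sum_const, nsmul_eq_mul, mul_one]
    exact_mod_cast card_le_card (by
      intro t ht
      exact (mem_filter.1 ht).2)
  have h5 := sum_le_sum hcard2
  have h6 := hcard (fun t => Rg X (vv s t) ∧ GoodP X (s 0 * t.1, s 1 * t.2))
  have h7 := hcard (fun t => Rg X (vv s t) ∧ Exc X s t)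
  refine add_le_add (add_le_add ?_ ?_) (mul_le_mul_of_nonneg_left h5 (by norm_num))
  · refine (le_of_eq ?_).trans (h6.trans (le_of_eq ?_)) <;> congr!
  · refine (le_of_eq ?_).trans (h7.trans (le_of_eq ?_)) <;> congr!

end Pool.Agent.Y667.RP
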