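import Pool.Agent.Y667.RP.M5

/-!
# Project RP, the main argument, part 6: the inequality for one datum
-/

set_option autoImplicit false

namespace Pool.Agent.Y667.RP

open Finset Filter Pool.Agent.W262.RK Pool.Agent.W307.RT Pool.Agent.W307.RS Pool.Agent.W307.SE
  Pool.Agent.W307.FK

lemma pi1_mono {m n : ℕ} (h : m ≤ n) : H343E.pi1 m ≤ H343E.pi1 n := by
  unfold H343E.pi1
  exact_mod_cast card_le_card (filter_subset_filter _ (Icc_subset_Icc_right h))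

lemma pM_nonneg (X s0 : ℕ) : 0 ≤ pM X s0 := by
  unfold pM
  have : X / (2 * s0) ≤ X / s0 := by
    rw [mul_comm, ← Nat.div_div_eq_div_mul]
    exact Nat.div_le_self _ _
  linarith [pi1_mono this]

lemma pN_nonneg (X s1 : ℕ) : 0 ≤ pN X s1 := by
  unfold pN
  have : X / (8 * s1) ≤ X / (4 * s1) := by
    have e : 8 * s1 = 4 * s1 * 2 := by ring
    rw [e, ← Nat.div_div_eq_div_mul]
    exact Nat.div_le_self _ _
  linarith [pi1_mono this]

lemma mA_nonneg (X Q0 : ℕ) (s : Fin 3 → ℕ) : 0 ≤ mA X Q0 s := by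
  unfold mA
  have := pM_nonneg X (s 0)
  have := pN_nonneg X (s 1)
  positivity

lemma pow_tendsto {e : ℝ} (he : 0 < e) : Tendsto (fun X : ℕ => (X : ℝ) ^ e) atTop atTop :=
  (tendsto_rpow_atTop he).comp tendsto_natCast_atTop_atTop

lemma big_eventually (z : ℕ) : ∃ X0 : ℕ, ∀ X : ℕ, X0 ≤ X → Big z X ∧
    8 * ((X : ℝ) ^ (1 / 2000 : ℝ)) ^ 3 * (X : ℝ) ^ (99 / 100 : ℝ) ≤ X := by
  have e1 := (pow_tendsto (e := 1 / 4) (by norm_num)).eventually_gt_atTop (z : ℝ)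
  have e2 := (pow_tendsto (e := 1 / 4 - 1 / 2000) (by norm_num)).eventually_gt_atTop (128 : ℝ)
  have e3 := (pow_tendsto (e := 1 / 100 - 3 / 2000) (by norm_num)).eventually_ge_atTop (8 : ℝ)
  obtain ⟨X0, hX0⟩ := ((e1.and e2).and e3).exists_forall_of_atTop
  refine ⟨max X0 2, fun X hX => ?_⟩
  obtain ⟨⟨h1, h2⟩, h3⟩ := hX0 X ((le_max_left _ _).trans hX)
  have hX2 : 2 ≤ X := (le_max_right _ _).trans hX
  have hXr : (0 : ℝ) < X := by positivity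
  have hκ : 0 < (X : ℝ) ^ (1 / 2000 : ℝ) := by positivity
  have h4 : (X : ℝ) ^ (1 / 4 : ℝ) = (X : ℝ) ^ (1 / 4 - 1 / 2000 : ℝ) * (X : ℝ) ^ (1 / 2000 : ℝ) := by
    rw [← Real.rpow_add hXr]; norm_num
  have h5 : 128 * (X : ℝ) ^ (1 / 2000 : ℝ) < (X : ℝ) ^ (1 / 4 : ℝ) := by
    rw [h4]
    exact mul_lt_mul_of_pos_right h2 hκ
  refine ⟨⟨hX2, h1, by linarith, h5⟩, ?_⟩
  have h6 : ((X : ℝ) ^ (1 / 2000 : ℝ)) ^ 3 * (X : ℝ) ^ (99 / 100 : ℝ) *
      (X : ℝ) ^ (1 / 100 - 3 / 2000 : ℝ) = X := by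
    rw [← Real.rpow_natCast ((X : ℝ) ^ (1 / 2000 : ℝ)) 3, ← Real.rpow_mul hXr.le,
      ← Real.rpow_add hXr, ← Real.rpow_add hXr]
    norm_num
  have h7 : 0 ≤ ((X : ℝ) ^ (1 / 2000 : ℝ)) ^ 3 * (X : ℝ) ^ (99 / 100 : ℝ) := by positivity
  nlinarith

/-- the numerical core -/
lemma bracket {A0 Λ : ℝ} (hA0 : 0 < A0) (hΛ : Λ ≤ Real.log 2 + 1 / 1000) (hΛ0 : 0 ≤ Λ) :
    A0 / 200 ≤ A0 * (50 / 49 * (Real.log (73 / 25) - 13 / 25 * Real.log (97 / 25))) - A0 / 1000 -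
      4961 / 20000 * ((A0 / (12 / 25) + A0 / 1000) * Λ) := by
  have h1 := c1_pos
  have h2 := Real.log_two_lt_d9
  have h3 := Real.log_two_gt_d9
  have h4 : (A0 / (12 / 25) + A0 / 1000) * Λ ≤
      (A0 / (12 / 25) + A0 / 1000) * (Real.log 2 + 1 / 1000) :=
    mul_le_mul_of_nonneg_left hΛ (by positivity)
  have h5 : A0 * (1 / 100) ≤ A0 * (50 / 49 * (Real.log (73 / 25) - 13 / 25 * Real.log (97 / 25)) -
    4961 / 20000 * (Real.log 2 / (12 / 25))) := mul_le_mul_of_nonneg_left h1 hA0.le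
  nlinarith

lemma mem_Lev {z q : ℕ} {D : ℝ} (hD : 0 ≤ D) (hq : q ∈ Lev z D) :
    (q : ℝ) ≤ D ∧ Squarefree q ∧ ∀ p ∈ q.primeFactors, z < p := by
  unfold Lev at hq
  rw [mem_filter, mem_Icc] at hq
  refine ⟨?_, hq.2⟩
  have h1 : (q : ℝ) ≤ (⌊D⌋₊ : ℝ) := by exact_mod_cast hq.1.2
  exact h1.trans (Nat.floor_le hD)

open Classical in
/-- the inequality for one datum -/
theorem DATA (hSV : St_SV) (hCNT : St_CNT) : ∃ z1 : ℕ, 3 ≤ z1 ∧ ∀ z : ℕ, z1 ≤ z →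
    ∃ c : ℝ, 0 < c ∧ ∃ X0 : ℕ, ∀ X : ℕ, X0 ≤ X → Big z X ∧ ∀ (Q0 a0 b0 : ℕ) (s : Fin 3 → ℕ)
      (E : Finset ℕ), Mod z Q0 a0 b0 → Dat z s → Sml X s → E ⊆ (∏ j, s j).primeFactors →
      V0 s E = {(1, 1)} →
      c * (mA X Q0 s / Real.log X) ≤
        (((AA X Q0 a0 b0 s E).filter (fun t => Rg X (vv s t) ∧
          GoodP X (s 0 * t.1, s 1 * t.2))).card : ℝ) +
        (((AA X Q0 a0 b0 s E).filter (fun t => Rg X (vv s t) ∧ Exc X s t)).card : ℝ) +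
        Real.log X * Er X Q0 z s := by
  obtain ⟨A0, C0, hA0, hSV⟩ := hSV
  refine ⟨max C0 3, le_max_right _ _, fun z hz => ?_⟩
  have hz3 : 3 ≤ z := (le_max_right _ _).trans hz
  have hz2 : 2 ≤ z := by omega
  obtain ⟨ε, hε, hε8, N0, hSV⟩ := hSV z ((le_max_left _ _).trans hz) (A0 / 1000) (by positivity)
  obtain ⟨cV, hcV, X1, hX1, hprod⟩ := prod_low
  obtain ⟨X2, hX2⟩ := big_eventually z
  obtain ⟨X3, hX3⟩ := mert_half (1 / 1000) (by norm_num)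
  refine ⟨ε * (A0 / 200) * cV, by positivity, max (max N0 X1) (max X2 X3), fun X hX => ?_⟩
  have hN0 : N0 ≤ X := ((le_max_left _ _).trans (le_max_left _ _)).trans hX
  have hX1' : X1 ≤ X := ((le_max_right _ _).trans (le_max_left _ _)).trans hX
  have hX2' : X2 ≤ X := ((le_max_left _ _).trans (le_max_right _ _)).trans hX
  have hX3' : X3 ≤ X := ((le_max_right _ _).trans (le_max_right _ _)).trans hX
  obtain ⟨hB, hk9⟩ := hX2 X hX2'
  refine ⟨hB, fun Q0 a0 b0 s E hM hD hS hE hV => ?_⟩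
  have hX2n : 2 ≤ X := hB.two
  have hXr : (0 : ℝ) < X := by positivity
  have hL : 0 < Real.log X := Real.log_pos (by exact_mod_cast (by omega : 1 < X))
  have hκ : 0 < (X : ℝ) ^ (1 / 2000 : ℝ) := by positivity
  have h1X : (1 : ℝ) ≤ X := by exact_mod_cast (by omega : 1 ≤ X)
  set κ : ℝ := (X : ℝ) ^ (1 / 2000 : ℝ) with hκdef
  have hs012 : ((s 0 : ℝ)) * s 1 * s 2 ≤ κ ^ 3 := by
    have h0 := hS 0
    have h1 := hS 1
    have h2 := hS 2
    calc ((s 0 : ℝ)) * s 1 * s 2 ≤ κ * κ * κ := by gcongr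
      _ = κ ^ 3 := by ring
  have hSX : (∏ j, s j) ≤ X := by
    have h3 : (((∏ j, s j : ℕ)) : ℝ) ≤ X := by
      rw [Fin.prod_univ_three]
      push_cast
      refine hs012.trans ?_
      have h99 : (1 : ℝ) ≤ (X : ℝ) ^ (99 / 100 : ℝ) := Real.one_le_rpow h1X (by norm_num)
      have h5 : 0 ≤ κ ^ 3 := by positivity
      nlinarith
    exact_mod_cast h3
  set A : ℝ := mA X Q0 s with hA
  have hA_nn : 0 ≤ A := mA_nonneg X Q0 s
  -- the lower bound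
  have hlow := (hSV X hN0 (ℕ × ℕ) (AA X Q0 a0 b0 s E) (vv s) (gg s) A (∏ j, s j) hA_nn
    hD.sqf.ne_zero hSX (fun p hp _ => gg_bd hp)).1
  -- the upper bounds
  have hupfacts : ∀ q ∈ Pr X, q.Prime ∧ (X : ℝ) ^ (1 / 4 : ℝ) ≤ q ∧
      (q : ℝ) ≤ (X : ℝ) ^ (1 / 2 : ℝ) ∧ z < q ∧ (∀ j, s j < q) ∧ ¬ q ∣ ∏ j, s j := by
    intro q hq
    unfold Pr at hq
    rw [mem_filter] at hq
    obtain ⟨-, hqp, h1, h2⟩ := hq
    have h3 : z < q := by
      have := hB.r4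
      have : (z : ℝ) < q := by linarith
      exact_mod_cast this
    have h4 : ∀ j, s j < q := by
      intro j
      have h5 := hS j
      have h6 := hB.k4
      have : (s j : ℝ) < q := by linarith
      exact_mod_cast this
    exact ⟨hqp, h1, h2, h3, h4, nd_of_gt hqp h4 hD⟩
  have hup : ∀ q ∈ Pr X, (((AA X Q0 a0 b0 (up s q) (Eb s E q)).filter
        (fun t => RR X z (vv (up s q) t))).card : ℝ) ≤
      ε * (A * (1 / 2 * (1 / ((q : ℝ) - 1))) * VP ε X z s) * (A0 / (12 / 25) + A0 / 1000) +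
      Real.log X * ∑ r ∈ Lev z ((X : ℝ) ^ (49 / 100 : ℝ)), er X Q0 (up s q) r := by
    intro q hq
    obtain ⟨hqp, h1, h2, h3, h4, h5⟩ := hupfacts q hq
    have hD' := Dat_up hD hqp h3 h5
    have hSX' : (∏ j, up s q j) ≤ X := by
      have h6 : (((∏ j, up s q j : ℕ)) : ℝ) ≤ X := by
        rw [up_prod, Fin.prod_univ_three]
        push_cast
        have h7 : (X : ℝ) ^ (1 / 2 : ℝ) ≤ (X : ℝ) ^ (99 / 100 : ℝ) :=
          Real.rpow_le_rpow_of_exponent_le h1X (by norm_num)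
        calc (s 0 : ℝ) * s 1 * s 2 * q ≤ κ ^ 3 * (X : ℝ) ^ (99 / 100 : ℝ) := by
              gcongr
              exact h2.trans h7
          _ ≤ 8 * κ ^ 3 * (X : ℝ) ^ (99 / 100 : ℝ) := by
              have : 0 ≤ κ ^ 3 * (X : ℝ) ^ (99 / 100 : ℝ) := by positivity
              linarith
          _ ≤ X := hk9
      exact_mod_cast h6
    have h8 := (hSV X hN0 (ℕ × ℕ) (AA X Q0 a0 b0 (up s q) (Eb s E q)) (vv (up s q))
      (gg (up s q)) (mA X Q0 (up s q)) (∏ j, up s q j) (mA_nonneg _ _ _)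
      hD'.sqf.ne_zero hSX' (fun p hp _ => gg_bd hp)).2 (12 / 25) (by norm_num) (by norm_num)
    have h9 : ∏ p ∈ (Ioc z X).filter (fun p : ℕ => p.Prime ∧ (p : ℝ) < (X : ℝ) ^ ε),
        (1 - gg (up s q) p) = VP ε X z s := VP_up hX2n (by linarith) hqp h1
    rw [h9, mA_up hD hqp h5] at h8
    have h10 : (12 / 25 + 1 / 100 : ℝ) = 49 / 100 := by norm_num
    rw [h10] at h8
    refine h8.trans ?_
    have hEb : Eb s E q ⊆ (∏ j, up s q j).primeFactors := by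
      have h11 : E ⊆ (∏ j, up s q j).primeFactors := by
        refine hE.trans ?_
        rw [up_prod]
        exact Nat.primeFactors_mono (dvd_mul_right _ _) (mul_ne_zero hD.sqf.ne_zero hqp.ne_zero)
      unfold Eb
      split_ifs
      · rw [insert_subset_iff]
        refine ⟨?_, h11⟩
        rw [up_prod]
        exact Nat.mem_primeFactors.2 ⟨hqp, dvd_mul_left _ _,
          mul_ne_zero hD.sqf.ne_zero hqp.ne_zero⟩
      · exact h11
    have h12 : ∑ r ∈ Lev z ((X : ℝ) ^ (49 / 100 : ℝ)), Rq (AA X Q0 a0 b0 (up s q) (Eb s E q))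
        (vv (up s q)) (gg (up s q)) (mA X Q0 (up s q)) r ≤
        ∑ r ∈ Lev z ((X : ℝ) ^ (49 / 100 : ℝ)), er X Q0 (up s q) r := by
      apply sum_le_sum
      intro r hr
      obtain ⟨r1, r2, r3⟩ := mem_Lev (by positivity) hr
      refine Rq_le hCNT hz2 hM hD' hEb r2 r3 ?_
      rw [up_zero, up_one, up_two]
      have h13 : ((8 * (s 0 * s 1) * (s 2 * q * r) : ℕ) : ℝ) ≤ X := by
        push_cast
        have e : 8 * ((s 0 : ℝ) * s 1) * (s 2 * q * r) = 8 * (s 0 * s 1 * s 2) * (q * r) := by ring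
        rw [e]
        have h14 : (q : ℝ) * r ≤ (X : ℝ) ^ (99 / 100 : ℝ) := by
          calc (q : ℝ) * r ≤ (X : ℝ) ^ (1 / 2 : ℝ) * (X : ℝ) ^ (49 / 100 : ℝ) := by gcongr
            _ = (X : ℝ) ^ (99 / 100 : ℝ) := by rw [← Real.rpow_add hXr]; norm_num
        calc 8 * ((s 0 : ℝ) * s 1 * s 2) * (q * r) ≤ 8 * κ ^ 3 * (X : ℝ) ^ (99 / 100 : ℝ) := by
              gcongr
          _ ≤ X := hk9
      exact_mod_cast h13
    rw [mA_up hD hqp h5] at h12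
    have := mul_le_mul_of_nonneg_left h12 hL.le
    linarith
  have hWsum := Wt_sum (z := z) (Q0 := Q0) (a0 := a0) (b0 := b0) (X := X) hz3 hB hM hD hS hE hV
  have hR1 : ∑ q ∈ Lev z ((X : ℝ) ^ (99 / 100 : ℝ)), Rq (AA X Q0 a0 b0 s E) (vv s) (gg s) A q ≤
      ∑ q ∈ Lev z ((X : ℝ) ^ (99 / 100 : ℝ)), er X Q0 s q := by
    apply sum_le_sum
    intro r hr
    obtain ⟨r1, r2, r3⟩ := mem_Lev (by positivity) hr
    refine Rq_le hCNT hz2 hM hD hE r2 r3 ?_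
    have h13 : ((8 * (s 0 * s 1) * (s 2 * r) : ℕ) : ℝ) ≤ X := by
      push_cast
      have e : 8 * ((s 0 : ℝ) * s 1) * (s 2 * r) = 8 * (s 0 * s 1 * s 2) * r := by ring
      rw [e]
      calc 8 * ((s 0 : ℝ) * s 1 * s 2) * r ≤ 8 * κ ^ 3 * (X : ℝ) ^ (99 / 100 : ℝ) := by
            gcongr
        _ ≤ X := hk9
    exact_mod_cast h13
  -- the sum over q
  set Λ : ℝ := ∑ q ∈ Pr X, 1 / ((q : ℝ) - 1) with hΛ
  have hΛ1 : Λ ≤ Real.log 2 + 1 / 1000 := hX3 X hX3'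
  have hΛ0 : 0 ≤ Λ := by
    apply sum_nonneg
    intro q hq
    have h1 := (hupfacts q hq).1.two_le
    have : (2 : ℝ) ≤ q := by exact_mod_cast h1
    exact div_nonneg (by norm_num) (by linarith)
  have hupsum := sum_le_sum hup
  rw [sum_add_distrib, ← mul_sum] at hupsum
  have hΛsum : ∑ q ∈ Pr X, ε * (A * (1 / 2 * (1 / ((q : ℝ) - 1))) * VP ε X z s) *
      (A0 / (12 / 25) + A0 / 1000) =
      ε * (A * VP ε X z s) * (1 / 2 * ((A0 / (12 / 25) + A0 / 1000) * Λ)) := by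
    rw [hΛ, mul_sum, mul_sum, mul_sum]
    apply sum_congr rfl
    intro q _
    ring
  rw [hΛsum] at hupsum
  have hbr := bracket hA0 hΛ1 hΛ0
  have hVP0 : 0 ≤ VP ε X z s := VP_nonneg hz2
  have hT : 0 ≤ ε * (A * VP ε X z s) := by positivity
  have hbrT := mul_le_mul_of_nonneg_left hbr hT
  have hEr : Er X Q0 z s = ∑ q ∈ Lev z ((X : ℝ) ^ (99 / 100 : ℝ)), er X Q0 s q +
    ∑ q1 ∈ Pr X, ∑ q ∈ Lev z ((X : ℝ) ^ (49 / 100 : ℝ)), er X Q0 (up s q1) q := rfl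
  have hlow' : ε * (A * VP ε X z s) *
      (A0 * (50 / 49 * (Real.log (73 / 25) - 13 / 25 * Real.log (97 / 25))) - A0 / 1000) -
      Real.log X * ∑ q ∈ Lev z ((X : ℝ) ^ (99 / 100 : ℝ)), Rq (AA X Q0 a0 b0 s E) (vv s) (gg s) A q ≤
      ∑ t ∈ (AA X Q0 a0 b0 s E).filter (fun t => RR X z (vv s t)), Wt X (vv s t) := hlow
  have hR1' := mul_le_mul_of_nonneg_left hR1 hL.le
  have he2 : 0 ≤ Real.log X * ∑ q1 ∈ Pr X, ∑ q ∈ Lev z ((X : ℝ) ^ (49 / 100 : ℝ)),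
      er X Q0 (up s q1) q :=
    mul_nonneg hL.le (sum_nonneg fun _ _ => sum_nonneg fun _ _ => er_nonneg _ _ _ _)
  have hVlow := hprod X hX1' z ((X : ℝ) ^ ε) (gg s) hz2 (fun p hp _ =>
    ⟨(gg_bd hp).1, (gg_bd hp).2.1⟩)
  have hfin : ε * (A * VP ε X z s) * (A0 / 200) ≤
      (((AA X Q0 a0 b0 s E).filter (fun t => Rg X (vv s t) ∧
          GoodP X (s 0 * t.1, s 1 * t.2))).card : ℝ) +
        (((AA X Q0 a0 b0 s E).filter (fun t => Rg X (vv s t) ∧ Exc X s t)).card : ℝ) +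
        Real.log X * Er X Q0 z s := by
    rw [hEr, mul_add]
    linarith
  refine le_trans ?_ hfin
  have h20 : ε * (A0 / 200) * cV * (A / Real.log X) = ε * (A0 / 200) * A * (cV / Real.log X) := by
    ring
  have h21 : ε * (A * VP ε X z s) * (A0 / 200) = ε * (A0 / 200) * A * VP ε X z s := by ring
  rw [h20, h21]
  exact mul_le_mul_of_nonneg_left hVlow (by positivity)

end Pool.Agent.Y667.RP
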