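import Pool.Agent.Y667.RP.M6

/-!
# Project RP, the main argument, part 7: summation over the data, preparations
-/

set_option autoImplicit false

namespace Pool.Agent.Y667.RP

open Finset Filter Pool.Agent.W262.RK Pool.Agent.W307.RT Pool.Agent.W307.RS Pool.Agent.W307.SE
  Pool.Agent.W307.FK

lemma PP_sqf (z y : ℕ) : Squarefree (PP z y) := by
  unfold PP PS
  apply Finset.squarefree_prod_of_pairwise_isCoprime
  · intro p hp q hq hpq
    rw [mem_coe, mem_filter] at hp hq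
    exact (Nat.coprime_iff_isRelPrime).1 ((Nat.coprime_primes hp.2 hq.2).2 hpq)
  · intro p hp
    exact (mem_filter.1 hp).2.squarefree

lemma mem_TupR {ι : Type} [Fintype ι] [DecidableEq ι] {z y : ℕ} {d : ι → ℕ} (h : d ∈ Tup ι z y) :
    (∀ i, d i ∣ PP z y) ∧ ∀ i j, i ≠ j → (d i).Coprime (d j) := by
  unfold Tup at h
  rw [mem_filter, Fintype.mem_piFinset] at h
  exact ⟨fun i => Nat.dvd_of_mem_divisors (h.1 i), h.2⟩

lemma Trip_dat {z : ℕ} {B : ℝ} {s : Fin 3 → ℕ} (h : s ∈ Trip z B) :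
    Dat z s ∧ ∀ j, (s j : ℝ) ≤ B := by
  classical
  obtain ⟨h0, h3⟩ := mem_filter.1 h
  obtain ⟨hd, h2⟩ := mem_TupR h0
  have hPP : Squarefree (PP z ⌊B⌋₊) := PP_sqf _ _
  refine ⟨⟨?_, ?_⟩, h3⟩
  · rw [Fin.prod_univ_three, Nat.squarefree_mul_iff, Nat.squarefree_mul_iff]
    refine ⟨?_, ⟨h2 0 1 (by decide), hPP.squarefree_of_dvd (hd 0), hPP.squarefree_of_dvd (hd 1)⟩,
      hPP.squarefree_of_dvd (hd 2)⟩
    exact Nat.Coprime.mul_left (h2 0 2 (by decide)) (h2 1 2 (by decide))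
  · intro p hp hps
    obtain ⟨j, -, hj⟩ := (hp.prime.dvd_finsetProd_iff _).1 hps
    have h4 : p ∣ PP z ⌊B⌋₊ := hj.trans (hd j)
    unfold PP PS at h4
    obtain ⟨q, hq, hpq⟩ := (hp.prime.dvd_finsetProd_iff _).1 h4
    rw [mem_filter, mem_Ioc] at hq
    rw [(Nat.prime_dvd_prime_iff_eq hp hq.2).1 hpq]
    exact hq.1.1

lemma tau_low {n m : ℕ} (hn : Squarefree n) (hm : m ≠ 0) (h : n ∣ m) :
    2 ^ n.primeFactors.card ≤ m.divisors.card := by
  classical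
  rw [← card_powerset]
  apply card_le_card_of_injOn (fun T => ∏ p ∈ T, p)
  · intro T hT
    rw [mem_coe, mem_powerset] at hT
    rw [mem_coe, Nat.mem_divisors]
    refine ⟨dvd_trans ?_ h, hm⟩
    conv_rhs => rw [← Nat.prod_primeFactors_of_squarefree hn]
    exact prod_dvd_prod_of_subset _ _ _ hT
  · intro T hT T' hT' hTT
    rw [mem_coe, mem_powerset] at hT hT'
    simp only at hTT
    have key : ∀ S : Finset ℕ, S ⊆ n.primeFactors → (∏ p ∈ S, p).primeFactors = S := by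
      intro S hS
      exact Nat.primeFactors_prod fun p hp => Nat.prime_of_mem_primeFactors (hS hp)
    rw [← key T hT, ← key T' hT', hTT]

/-- the exceptional pairs -/
def ExP (X : ℕ) (t : ℕ × ℕ) : Prop := t.2 < t.1 ∧ ∃ q : ℕ, q.Prime ∧ (X : ℝ) ^ (1 / 4 : ℝ) ≤ q ∧
  ((q ∣ t.1 ∧ q ∣ t.2) ∨ q ^ 2 ∣ t.1 - t.2)

open Classical in
theorem ExP_card {X : ℕ} (hX : 8 ≤ (X : ℝ) ^ (1 / 4 : ℝ)) :
    (((Icc 1 X ×ˢ Icc 1 X).filter (ExP X)).card : ℝ) ≤ 8 * (X : ℝ) ^ 2 / (X : ℝ) ^ (1 / 4 : ℝ) := by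
  set Q : ℝ := (X : ℝ) ^ (1 / 4 : ℝ) with hQ
  set k : ℕ := ⌈Q⌉₊ - 1 with hk
  have hc1 : 8 ≤ ⌈Q⌉₊ := by
    have : (8 : ℝ) ≤ ⌈Q⌉₊ := hX.trans (Nat.le_ceil Q)
    exact_mod_cast this
  have hkr : (k : ℝ) = (⌈Q⌉₊ : ℝ) - 1 := by rw [hk, Nat.cast_sub (by omega)]; simp
  have hk1 : Q / 2 ≤ k := by
    rw [hkr]
    have := Nat.le_ceil Q
    linarith
  have hk0 : k ≠ 0 := by omega
  -- covering
  have hsub : (Icc 1 X ×ˢ Icc 1 X).filter (ExP X) ⊆ (Ioc k X).biUnion (fun q =>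
      (Icc 1 X ×ˢ Icc 1 X).filter (fun t : ℕ × ℕ => q ∣ t.1 ∧ q ∣ t.2) ∪
      (Icc 1 X ×ˢ Icc 1 X).filter (fun t : ℕ × ℕ => t.2 < t.1 ∧ q ^ 2 ∣ t.1 - t.2)) := by
    intro t ht
    rw [mem_filter] at ht
    obtain ⟨h1, h2, q, hq, hqQ, h3⟩ := ht
    rw [mem_product, mem_Icc, mem_Icc] at h1
    have hkq : k < q := by
      have : ⌈Q⌉₊ ≤ q := Nat.ceil_le.2 hqQ
      omega
    rw [mem_biUnion]
    rcases h3 with h3 | h3
    · refine ⟨q, mem_Ioc.2 ⟨hkq, (Nat.le_of_dvd (by omega) h3.1).trans h1.1.2⟩, ?_⟩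
      rw [mem_union]
      left
      rw [mem_filter, mem_product, mem_Icc, mem_Icc]
      exact ⟨h1, h3⟩
    · have h4 : q ^ 2 ≤ t.1 - t.2 := Nat.le_of_dvd (by omega) h3
      have h5 : q ≤ q ^ 2 := Nat.le_self_pow (by norm_num) q
      refine ⟨q, mem_Ioc.2 ⟨hkq, by omega⟩, ?_⟩
      rw [mem_union]
      right
      rw [mem_filter, mem_product, mem_Icc, mem_Icc]
      exact ⟨h1, h2, h3⟩
  have hcount : ∀ q ∈ Ioc k X, (((Icc 1 X ×ˢ Icc 1 X).filter (fun t : ℕ × ℕ => q ∣ t.1 ∧ q ∣ t.2) ∪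
      (Icc 1 X ×ˢ Icc 1 X).filter (fun t : ℕ × ℕ => t.2 < t.1 ∧ q ^ 2 ∣ t.1 - t.2)).card : ℝ) ≤
      2 * (X : ℝ) ^ 2 * ((q : ℝ) ^ 2)⁻¹ := by
    intro q hq
    rw [mem_Ioc] at hq
    have hq0 : 0 < q := by omega
    have hqr : (0 : ℝ) < q := by exact_mod_cast hq0
    have c1 : ((Icc 1 X ×ˢ Icc 1 X).filter (fun t : ℕ × ℕ => q ∣ t.1 ∧ q ∣ t.2)).card ≤
        (X / q) * (X / q) := by
      have : (Icc 1 X ×ˢ Icc 1 X).filter (fun t : ℕ × ℕ => q ∣ t.1 ∧ q ∣ t.2) =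
          (Icc 1 X).filter (fun n => q ∣ n) ×ˢ (Icc 1 X).filter (fun n => q ∣ n) := by
        ext t
        simp only [mem_filter, mem_product]
        tauto
      rw [this, card_product]
      have h1 : ((Icc 1 X).filter (fun n => q ∣ n)).card = X / q := by
        have := Nat.Ioc_filter_dvd_card_eq_div X q
        rw [← this]
        congr 1
      rw [h1]
    have c2 : ((Icc 1 X ×ˢ Icc 1 X).filter (fun t : ℕ × ℕ => t.2 < t.1 ∧ q ^ 2 ∣ t.1 - t.2)).card ≤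
        X * (X / q ^ 2) := by
      calc _ ≤ ((Icc 1 X) ×ˢ ((Icc 1 X).filter (fun n => q ^ 2 ∣ n))).card := by
            apply card_le_card_of_injOn (fun t : ℕ × ℕ => (t.2, t.1 - t.2))
            · intro t ht
              rw [mem_coe, mem_filter, mem_product, mem_Icc, mem_Icc] at ht
              rw [mem_coe, mem_product, mem_filter, mem_Icc, mem_Icc]
              simp only
              refine ⟨ht.1.2, ⟨by omega, by omega⟩, ht.2.2⟩
            · intro t ht t' ht' h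
              rw [mem_coe, mem_filter, mem_product, mem_Icc, mem_Icc] at ht ht'
              simp only [Prod.mk.injEq] at h
              apply Prod.ext
              · omega
              · exact h.1
        _ = X * (X / q ^ 2) := by
            rw [card_product, Nat.card_Icc]
            have := Nat.Ioc_filter_dvd_card_eq_div X (q ^ 2)
            rw [← this]
            congr 1
    have c3 : (((Icc 1 X ×ˢ Icc 1 X).filter (fun t : ℕ × ℕ => q ∣ t.1 ∧ q ∣ t.2) ∪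
      (Icc 1 X ×ˢ Icc 1 X).filter (fun t : ℕ × ℕ => t.2 < t.1 ∧ q ^ 2 ∣ t.1 - t.2)).card : ℝ) ≤
        ((X / q) * (X / q) + X * (X / q ^ 2) : ℕ) := by
      exact_mod_cast (card_union_le _ _).trans (add_le_add c1 c2)
    refine c3.trans ?_
    push_cast
    have d1 : ((X / q : ℕ) : ℝ) ≤ X / q := Nat.cast_div_le
    have d2 : ((X / q ^ 2 : ℕ) : ℝ) ≤ X / ((q ^ 2 : ℕ) : ℝ) := Nat.cast_div_le
    push_cast at d2
    calc ((X / q : ℕ) : ℝ) * ((X / q : ℕ) : ℝ) + X * ((X / q ^ 2 : ℕ) : ℝ) ≤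
          (X / q) * (X / q) + X * (X / (q : ℝ) ^ 2) := by gcongr
      _ = 2 * (X : ℝ) ^ 2 * ((q : ℝ) ^ 2)⁻¹ := by
          field_simp
          ring
  have hX1 : k ≤ X := by
    have h1X : (1 : ℝ) ≤ X := by
      by_contra hcon
      push Not at hcon
      have h2 : X = 0 := by
        have : X < 1 := by exact_mod_cast hcon
        omega
      rw [hQ, h2] at hX
      rw [Nat.cast_zero, Real.zero_rpow (by norm_num)] at hX
      linarith
    have h2 : Q ≤ X := by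
      rw [hQ]
      calc (X : ℝ) ^ (1 / 4 : ℝ) ≤ (X : ℝ) ^ (1 : ℝ) :=
            Real.rpow_le_rpow_of_exponent_le h1X (by norm_num)
        _ = X := Real.rpow_one _
    have h3 : (k : ℝ) ≤ X := by
      rw [hkr]
      have := Nat.ceil_lt_add_one (by linarith : 0 ≤ Q)
      linarith
    exact_mod_cast h3
  calc (((Icc 1 X ×ˢ Icc 1 X).filter (ExP X)).card : ℝ) ≤
        (((Ioc k X).biUnion (fun q =>
      (Icc 1 X ×ˢ Icc 1 X).filter (fun t : ℕ × ℕ => q ∣ t.1 ∧ q ∣ t.2) ∪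
      (Icc 1 X ×ˢ Icc 1 X).filter (fun t : ℕ × ℕ => t.2 < t.1 ∧ q ^ 2 ∣ t.1 - t.2))).card : ℝ) := by
          exact_mod_cast card_le_card hsub
    _ ≤ ∑ q ∈ Ioc k X, (((Icc 1 X ×ˢ Icc 1 X).filter (fun t : ℕ × ℕ => q ∣ t.1 ∧ q ∣ t.2) ∪
      (Icc 1 X ×ˢ Icc 1 X).filter (fun t : ℕ × ℕ => t.2 < t.1 ∧ q ^ 2 ∣ t.1 - t.2)).card : ℝ) := by
          exact_mod_cast card_biUnion_le
    _ ≤ ∑ q ∈ Ioc k X, 2 * (X : ℝ) ^ 2 * ((q : ℝ) ^ 2)⁻¹ := sum_le_sum hcount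
    _ = 2 * (X : ℝ) ^ 2 * ∑ q ∈ Ioc k X, ((q : ℝ) ^ 2)⁻¹ := by rw [mul_sum]
    _ ≤ 2 * (X : ℝ) ^ 2 * ((k : ℝ)⁻¹) := by
          apply mul_le_mul_of_nonneg_left _ (by positivity)
          have h1 := sum_Ioc_inv_sq_le_sub (α := ℝ) hk0 hX1
          have h2 : (0 : ℝ) ≤ ((X : ℝ))⁻¹ := by positivity
          linarith
    _ ≤ 2 * (X : ℝ) ^ 2 * ((Q / 4)⁻¹) := by
          have hQ0 : 0 < Q := by linarith
          gcongr
          linarith
    _ = 8 * (X : ℝ) ^ 2 / Q := by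
          have hQ0 : 0 < Q := by linarith
          field_simp
          ring

/-- uniqueness of the representation -/
theorem uniq {z Q0 a0 b0 X : ℕ} {s s' : Fin 3 → ℕ} {E E' : Finset ℕ} {t t' : ℕ × ℕ} (hz : 2 ≤ z)
    (hB : Big z X) (hM : Mod z Q0 a0 b0) (hD : Dat z s) (hD' : Dat z s') (hS : Sml X s)
    (hS' : Sml X s') (ht : t ∈ AA X Q0 a0 b0 s E) (ht' : t' ∈ AA X Q0 a0 b0 s' E')
    (hr : Rg X (vv s t)) (hr' : Rg X (vv s' t')) (h1 : s 0 * t.1 = s' 0 * t'.1)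
    (h2 : s 1 * t.2 = s' 1 * t'.2) : s = s' ∧ E = E' ∧ t = t' := by
  obtain ⟨-, -, b1⟩ := AA_big hB hS ht
  obtain ⟨-, -, b2⟩ := AA_big hB hS' ht'
  have m1 := ht
  have m2 := ht'
  unfold AA at m1 m2
  rw [mem_filter] at m1 m2
  obtain ⟨-, p1, p2, -, -, -, -, -, -, -, g1⟩ := m1
  obtain ⟨-, p3, p4, -, -, -, -, -, -, -, g2⟩ := m2
  have key : ∀ (a b m n : ℕ), m.Prime → n.Prime → b ≠ 0 → b < m → a * m = b * n →
      m = n ∧ a = b := by
    intro a b m n hm hn hb0 hbm h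
    have h3 : m ∣ b * n := ⟨a, by rw [← h, mul_comm]⟩
    have h4 : m = n := by
      rcases (hm.dvd_mul).1 h3 with h5 | h5
      · have := Nat.le_of_dvd (Nat.pos_of_ne_zero hb0) h5
        omega
      · exact (Nat.prime_dvd_prime_iff_eq hm hn).1 h5
    refine ⟨h4, ?_⟩
    rw [← h4] at h
    exact Nat.eq_of_mul_eq_mul_right hm.pos h
  obtain ⟨e1, e0⟩ := key (s 0) (s' 0) t.1 t'.1 p1 p3 (hD'.ne 0)
    ((b1 (s' 0) ((hS' 0).trans hB.half)).1) h1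
  obtain ⟨e2, e3⟩ := key (s 1) (s' 1) t.2 t'.2 p2 p4 (hD'.ne 1)
    ((b1 (s' 1) ((hS' 1).trans hB.half)).2) h2
  have htt : t = t' := Prod.ext e1 e2
  have q1 := AA_eq hz hD hM ht
  have q2 := AA_eq hz hD' hM ht'
  have q3 : s 2 * vv s t = s' 2 * vv s' t' := by
    have : 32 * (s 2 * vv s t) = 32 * (s' 2 * vv s' t') := by
      rw [← q1, ← q2, h1, h2]
    omega
  have hcop : ∀ (x l : ℕ), x ≠ 0 → (x : ℝ) ≤ (X : ℝ) ^ (1 / 2000 : ℝ) → Rg X l → x.Coprime l := by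
    intro x l hx0 hx hl
    apply Nat.coprime_of_dvd
    intro p hp h3 h4
    have h5 := hl p hp h4
    have h6 := Nat.le_of_dvd (Nat.pos_of_ne_zero hx0) h3
    have h7 : (p : ℝ) ≤ x := by exact_mod_cast h6
    have := hB.k4
    linarith
  have d1 : s 2 ∣ s' 2 := by
    have h3 : s 2 ∣ s' 2 * vv s' t' := ⟨vv s t, q3.symm⟩
    exact (hcop (s 2) _ (hD.ne 2) (hS 2) hr').dvd_of_dvd_mul_right h3
  have d2 : s' 2 ∣ s 2 := by
    have h3 : s' 2 ∣ s 2 * vv s t := ⟨vv s' t', q3⟩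
    exact (hcop (s' 2) _ (hD'.ne 2) (hS' 2) hr).dvd_of_dvd_mul_right h3
  have e4 : s 2 = s' 2 := Nat.dvd_antisymm d1 d2
  have hss : s = s' := by
    funext j
    fin_cases j
    · exact e0
    · exact e3
    · exact e4
  refine ⟨hss, ?_, htt⟩
  rw [← g1, ← g2, h1, h2, hss]

end Pool.Agent.Y667.RP
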