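import Pool.Agent.Y667.RP.M7

/-!
# Project RP, the main argument, part 8: summation over the data
-/

set_option autoImplicit false

namespace Pool.Agent.Y667.RP

open Finset Filter Pool.Agent.W262.RK Pool.Agent.W307.RT Pool.Agent.W307.RS Pool.Agent.W307.SE
  Pool.Agent.W307.FK

open Classical in
/-- the good signs -/
noncomputable def GE (s : Fin 3 → ℕ) : Finset (Finset ℕ) :=
  (∏ j, s j).primeFactors.powerset.filter (fun E => V0 s E = {(1, 1)})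

theorem card_bound {z Q0 a0 b0 X : ℕ} (hz : 2 ≤ z) (hB : Big z X) (hM : Mod z Q0 a0 b0)
    (T : Finset (ℕ × ℕ)) (F : (Fin 3 → ℕ) → Finset ℕ → Finset (ℕ × ℕ))
    (hF : ∀ s ∈ Trip z ((X : ℝ) ^ (1 / 2000 : ℝ)), ∀ E ∈ GE s, ∀ t ∈ F s E,
      t ∈ AA X Q0 a0 b0 s E ∧ Rg X (vv s t) ∧ (s 0 * t.1, s 1 * t.2) ∈ T) :
    ∑ s ∈ Trip z ((X : ℝ) ^ (1 / 2000 : ℝ)), ∑ E ∈ GE s, ((F s E).card : ℝ) ≤ (T.card : ℝ) := by
  classical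
  have h1 : ∑ s ∈ Trip z ((X : ℝ) ^ (1 / 2000 : ℝ)), ∑ E ∈ GE s, ((F s E).card : ℝ) =
      ((((Trip z ((X : ℝ) ^ (1 / 2000 : ℝ))).sigma GE).sigma
        (fun i => F i.1 i.2)).card : ℝ) := by
    rw [card_sigma, sum_sigma]
    push_cast
    rfl
  rw [h1]
  have h2 : (((Trip z ((X : ℝ) ^ (1 / 2000 : ℝ))).sigma GE).sigma
        (fun i => F i.1 i.2)).card ≤ T.card := by
    apply card_le_card_of_injOn (fun x => (x.1.1 0 * x.2.1, x.1.1 1 * x.2.2))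
    · rintro ⟨⟨s, E⟩, t⟩ hx
      rw [mem_coe, mem_sigma, mem_sigma] at hx
      exact (hF s hx.1.1 E hx.1.2 t hx.2).2.2
    · rintro ⟨⟨s, E⟩, t⟩ hx ⟨⟨s', E'⟩, t'⟩ hx' h
      rw [mem_coe, mem_sigma, mem_sigma] at hx hx'
      obtain ⟨a1, a2, -⟩ := hF s hx.1.1 E hx.1.2 t hx.2
      obtain ⟨b1, b2, -⟩ := hF s' hx'.1.1 E' hx'.1.2 t' hx'.2
      obtain ⟨d1, d2⟩ := Trip_dat hx.1.1
      obtain ⟨d3, d4⟩ := Trip_dat hx'.1.1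
      simp only [Prod.mk.injEq] at h
      obtain ⟨e1, e2, e3⟩ := uniq hz hB hM d1 d3 d2 d4 a1 b1 a2 b2 h.1 h.2
      subst e1 e2 e3
      rfl
  exact_mod_cast h2

/-- a sum over an injective image -/
lemma sum_inj {ι κ : Type*} [DecidableEq κ] {S : Finset ι} {T : Finset κ} {f : ι → ℝ} {g : κ → ℝ}
    (e : ι → κ) (he : ∀ i ∈ S, e i ∈ T) (hinj : Set.InjOn e S) (hg : ∀ y ∈ T, 0 ≤ g y)
    (hfg : ∀ i ∈ S, f i ≤ g (e i)) : ∑ i ∈ S, f i ≤ ∑ y ∈ T, g y := by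
  calc ∑ i ∈ S, f i ≤ ∑ i ∈ S, g (e i) := sum_le_sum hfg
    _ = ∑ y ∈ S.image e, g y := (sum_image hinj).symm
    _ ≤ ∑ y ∈ T, g y := sum_le_sum_of_subset_of_nonneg (by
        intro y hy
        obtain ⟨i, hi, rfl⟩ := mem_image.1 hy
        exact he i hi) (fun y hy _ => hg y hy)

lemma vec3 (s : Fin 3 → ℕ) : ![s 0, s 1, s 2] = s := by
  funext j
  fin_cases j <;> rfl

/-- the sum of the errors in ERR -/
noncomputable def SE (X Q0 : ℕ) : ℝ :=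
  ∑ s0 ∈ Icc 1 ⌊(X : ℝ) ^ (1 / 2000 : ℝ)⌋₊, ∑ s1 ∈ Icc 1 ⌊(X : ℝ) ^ (1 / 2000 : ℝ)⌋₊,
    ∑ r ∈ Icc 1 ⌊(X : ℝ) ^ (993 / 1000 : ℝ)⌋₊, ∑ s2 ∈ r.divisors,
      ((s0 * s1 * r).divisors.card : ℝ) ^ 1 * er X Q0 ![s0, s1, s2] (r / s2)

lemma SE_eq (X Q0 : ℕ) : SE X Q0 = ∑ y ∈ ((Icc 1 ⌊(X : ℝ) ^ (1 / 2000 : ℝ)⌋₊ ×ˢ
      Icc 1 ⌊(X : ℝ) ^ (1 / 2000 : ℝ)⌋₊) ×ˢ Icc 1 ⌊(X : ℝ) ^ (993 / 1000 : ℝ)⌋₊).sigma
      (fun x => x.2.divisors),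
    ((y.1.1.1 * y.1.1.2 * y.1.2).divisors.card : ℝ) ^ 1 *
      er X Q0 ![y.1.1.1, y.1.1.2, y.2] (y.1.2 / y.2) := by
  unfold SE
  rw [sum_sigma, sum_product, sum_product]

lemma er_pow {X Q0 : ℕ} {s : Fin 3 → ℕ} {q r : ℕ} {P : ℕ} (hP : Squarefree P)
    (hr : s 0 * s 1 * r ≠ 0) (hPr : P ∣ s 0 * s 1 * r) (hq : r / s 2 = q) :
    (2 : ℝ) ^ P.primeFactors.card * er X Q0 s q ≤
      ((s 0 * s 1 * r).divisors.card : ℝ) ^ 1 * er X Q0 ![s 0, s 1, s 2] (r / s 2) := by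
  rw [vec3, hq, pow_one]
  apply mul_le_mul_of_nonneg_right _ (er_nonneg _ _ _ _)
  exact_mod_cast tau_low hP hr hPr

theorem errA {z Q0 X : ℕ} (hB : Big z X) :
    ∑ s ∈ Trip z ((X : ℝ) ^ (1 / 2000 : ℝ)), (2 : ℝ) ^ (∏ j, s j).primeFactors.card *
      ∑ q ∈ Lev z ((X : ℝ) ^ (99 / 100 : ℝ)), er X Q0 s q ≤ SE X Q0 := by
  classical
  have hXr : (0 : ℝ) < X := by have := hB.two; positivity
  have h1X : (1 : ℝ) ≤ X := by exact_mod_cast (by have := hB.two; omega : 1 ≤ X)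
  have e1 : ∑ s ∈ Trip z ((X : ℝ) ^ (1 / 2000 : ℝ)), (2 : ℝ) ^ (∏ j, s j).primeFactors.card *
      ∑ q ∈ Lev z ((X : ℝ) ^ (99 / 100 : ℝ)), er X Q0 s q =
      ∑ x ∈ Trip z ((X : ℝ) ^ (1 / 2000 : ℝ)) ×ˢ Lev z ((X : ℝ) ^ (99 / 100 : ℝ)),
        (2 : ℝ) ^ (∏ j, x.1 j).primeFactors.card * er X Q0 x.1 x.2 := by
    rw [sum_product]
    apply sum_congr rfl
    intro s _
    rw [mul_sum]
  rw [e1, SE_eq]
  apply sum_inj (fun x : (Fin 3 → ℕ) × ℕ => (⟨((x.1 0, x.1 1), x.1 2 * x.2), x.1 2⟩ :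
    (_ : (ℕ × ℕ) × ℕ) × ℕ))
  · rintro ⟨s, q⟩ hx
    rw [mem_product] at hx
    obtain ⟨hD, hS⟩ := Trip_dat hx.1
    obtain ⟨h1, h2, h3⟩ := mem_Lev (by positivity) hx.2
    have hs : ∀ j, 1 ≤ s j := fun j => Nat.pos_of_ne_zero (hD.ne j)
    have hq : 1 ≤ q := Nat.pos_of_ne_zero h2.ne_zero
    simp only [mem_sigma, mem_product, mem_Icc]
    refine ⟨⟨⟨⟨hs 0, Nat.le_floor (hS 0)⟩, ⟨hs 1, Nat.le_floor (hS 1)⟩⟩,
      ⟨Nat.mul_pos (hs 2) hq, Nat.le_floor ?_⟩⟩, ?_⟩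
    · push_cast
      calc (s 2 : ℝ) * q ≤ (X : ℝ) ^ (1 / 2000 : ℝ) * (X : ℝ) ^ (99 / 100 : ℝ) := by
            have := hS 2
            gcongr
        _ = (X : ℝ) ^ (1 / 2000 + 99 / 100 : ℝ) := by rw [← Real.rpow_add hXr]
        _ ≤ (X : ℝ) ^ (993 / 1000 : ℝ) := Real.rpow_le_rpow_of_exponent_le h1X (by norm_num)
    · rw [Nat.mem_divisors]
      exact ⟨dvd_mul_right _ _, (Nat.mul_pos (hs 2) hq).ne'⟩
  · rintro ⟨s, q⟩ hx ⟨s', q'⟩ hx' h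
    rw [mem_coe, mem_product] at hx hx'
    obtain ⟨hD, hS⟩ := Trip_dat hx.1
    simp only [Sigma.mk.injEq, Prod.mk.injEq, heq_eq_eq] at h
    obtain ⟨⟨⟨h0, h1⟩, h2⟩, h3⟩ := h
    have hss : s = s' := by
      rw [← vec3 s, ← vec3 s', h0, h1, h3]
    subst hss
    have h4 := Nat.eq_of_mul_eq_mul_left (Nat.pos_of_ne_zero (hD.ne 2)) h2
    rw [h4]
  · intro y _
    exact mul_nonneg (by positivity) (er_nonneg _ _ _ _)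
  · rintro ⟨s, q⟩ hx
    rw [mem_product] at hx
    obtain ⟨hD, hS⟩ := Trip_dat hx.1
    obtain ⟨h1, h2, h3⟩ := mem_Lev (by positivity) hx.2
    have hs2 : 0 < s 2 := Nat.pos_of_ne_zero (hD.ne 2)
    refine er_pow (r := s 2 * q) hD.sqf ?_ ?_ (Nat.mul_div_cancel_left q hs2)
    · exact mul_ne_zero (mul_ne_zero (hD.ne 0) (hD.ne 1)) (mul_ne_zero (hD.ne 2) h2.ne_zero)
    · rw [Fin.prod_univ_three, ← mul_assoc]
      exact dvd_mul_right _ _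

theorem errB {z Q0 X : ℕ} (hB : Big z X) :
    ∑ s ∈ Trip z ((X : ℝ) ^ (1 / 2000 : ℝ)), (2 : ℝ) ^ (∏ j, s j).primeFactors.card *
      ∑ q1 ∈ Pr X, ∑ q ∈ Lev z ((X : ℝ) ^ (49 / 100 : ℝ)), er X Q0 (up s q1) q ≤ SE X Q0 := by
  classical
  have hXr : (0 : ℝ) < X := by have := hB.two; positivity
  have h1X : (1 : ℝ) ≤ X := by exact_mod_cast (by have := hB.two; omega : 1 ≤ X)
  have e1 : ∑ s ∈ Trip z ((X : ℝ) ^ (1 / 2000 : ℝ)), (2 : ℝ) ^ (∏ j, s j).primeFactors.card *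
      ∑ q1 ∈ Pr X, ∑ q ∈ Lev z ((X : ℝ) ^ (49 / 100 : ℝ)), er X Q0 (up s q1) q =
      ∑ x ∈ (Trip z ((X : ℝ) ^ (1 / 2000 : ℝ)) ×ˢ Pr X) ×ˢ Lev z ((X : ℝ) ^ (49 / 100 : ℝ)),
        (2 : ℝ) ^ (∏ j, x.1.1 j).primeFactors.card * er X Q0 (up x.1.1 x.1.2) x.2 := by
    rw [sum_product, sum_product]
    apply sum_congr rfl
    intro s _
    rw [mul_sum]
    apply sum_congr rfl
    intro q1 _
    rw [mul_sum]
  rw [e1, SE_eq]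
  have hPr : ∀ q ∈ Pr X, q.Prime ∧ (X : ℝ) ^ (1 / 4 : ℝ) ≤ q ∧ (q : ℝ) ≤ (X : ℝ) ^ (1 / 2 : ℝ) := by
    intro q hq
    unfold Pr at hq
    rw [mem_filter] at hq
    exact hq.2
  apply sum_inj (fun x : ((Fin 3 → ℕ) × ℕ) × ℕ =>
    (⟨((x.1.1 0, x.1.1 1), x.1.1 2 * x.1.2 * x.2), x.1.1 2 * x.1.2⟩ : (_ : (ℕ × ℕ) × ℕ) × ℕ))
  · rintro ⟨⟨s, q1⟩, q⟩ hx
    rw [mem_product, mem_product] at hx
    obtain ⟨hD, hS⟩ := Trip_dat hx.1.1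
    obtain ⟨p1, p2, p3⟩ := hPr q1 hx.1.2
    obtain ⟨h1, h2, h3⟩ := mem_Lev (by positivity) hx.2
    have hs : ∀ j, 1 ≤ s j := fun j => Nat.pos_of_ne_zero (hD.ne j)
    have hq : 1 ≤ q := Nat.pos_of_ne_zero h2.ne_zero
    have hpos : 0 < s 2 * q1 * q := Nat.mul_pos (Nat.mul_pos (hs 2) p1.pos) hq
    simp only [mem_sigma, mem_product, mem_Icc]
    refine ⟨⟨⟨⟨hs 0, Nat.le_floor (hS 0)⟩, ⟨hs 1, Nat.le_floor (hS 1)⟩⟩,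
      ⟨hpos, Nat.le_floor ?_⟩⟩, ?_⟩
    · push_cast
      calc (s 2 : ℝ) * q1 * q ≤ (X : ℝ) ^ (1 / 2000 : ℝ) * (X : ℝ) ^ (1 / 2 : ℝ) *
            (X : ℝ) ^ (49 / 100 : ℝ) := by
            have := hS 2
            gcongr
        _ = (X : ℝ) ^ (1 / 2000 + 1 / 2 + 49 / 100 : ℝ) := by
            rw [← Real.rpow_add hXr, ← Real.rpow_add hXr]
        _ ≤ (X : ℝ) ^ (993 / 1000 : ℝ) := Real.rpow_le_rpow_of_exponent_le h1X (by norm_num)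
    · rw [Nat.mem_divisors]
      exact ⟨dvd_mul_right _ _, hpos.ne'⟩
  · rintro ⟨⟨s, q1⟩, q⟩ hx ⟨⟨s', q1'⟩, q'⟩ hx' h
    rw [mem_coe, mem_product, mem_product] at hx hx'
    obtain ⟨hD, hS⟩ := Trip_dat hx.1.1
    obtain ⟨hD', hS'⟩ := Trip_dat hx'.1.1
    obtain ⟨p1, p2, p3⟩ := hPr q1 hx.1.2
    obtain ⟨p1', p2', p3'⟩ := hPr q1' hx'.1.2
    simp only [Sigma.mk.injEq, Prod.mk.injEq, heq_eq_eq] at h
    obtain ⟨⟨⟨h0, h1⟩, h2⟩, h3⟩ := h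
    have hq11 : q1 = q1' := by
      have h4 : q1 ∣ s' 2 * q1' := by rw [← h3]; exact dvd_mul_left _ _
      rcases (p1.dvd_mul).1 h4 with h5 | h5
      · exfalso
        have h6 := Nat.le_of_dvd (Nat.pos_of_ne_zero (hD'.ne 2)) h5
        have h7 : (q1 : ℝ) ≤ s' 2 := by exact_mod_cast h6
        have h8 := hS' 2
        have := hB.k4
        linarith
      · exact (Nat.prime_dvd_prime_iff_eq p1 p1').1 h5
    subst hq11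
    have h3' : s 2 = s' 2 := Nat.eq_of_mul_eq_mul_right p1.pos h3
    have hss : s = s' := by
      rw [← vec3 s, ← vec3 s', h0, h1, h3']
    subst hss
    have h4 := Nat.eq_of_mul_eq_mul_left
      (Nat.mul_pos (Nat.pos_of_ne_zero (hD.ne 2)) p1.pos) h2
    rw [h4]
  · intro y _
    exact mul_nonneg (by positivity) (er_nonneg _ _ _ _)
  · rintro ⟨⟨s, q1⟩, q⟩ hx
    rw [mem_product, mem_product] at hx
    obtain ⟨hD, hS⟩ := Trip_dat hx.1.1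
    obtain ⟨p1, p2, p3⟩ := hPr q1 hx.1.2
    obtain ⟨h1, h2, h3⟩ := mem_Lev (by positivity) hx.2
    have hs2 : 0 < s 2 * q1 := Nat.mul_pos (Nat.pos_of_ne_zero (hD.ne 2)) p1.pos
    have key := er_pow (X := X) (Q0 := Q0) (s := up s q1) (q := q) (r := s 2 * q1 * q)
      (P := ∏ j, s j) hD.sqf
    rw [up_zero, up_one, up_two] at key
    refine key ?_ ?_ (Nat.mul_div_cancel_left q hs2)
    · exact mul_ne_zero (mul_ne_zero (hD.ne 0) (hD.ne 1)) (mul_ne_zero hs2.ne' h2.ne_zero)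
    · rw [Fin.prod_univ_three]
      exact ⟨q1 * q, by ring⟩

end Pool.Agent.Y667.RP
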