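import Pool.Agent.Y667.RP.M8

/-!
# Project RP: many good pairs
-/

set_option autoImplicit false

namespace Pool.Agent.Y667.RP

open Finset Filter Pool.Agent.W262.RK Pool.Agent.W307.RT Pool.Agent.W307.RS Pool.Agent.W307.SE
  Pool.Agent.W307.FK

lemma mA_low {X Q0 z : ℕ} {s : Fin 3 → ℕ} (hB : Big z X) (hQ : Q0 ≠ 0) (hD : Dat z s)
    (hM : (X : ℝ) / (8 * s 0 * Real.log X) ≤ pM X (s 0))
    (hN : (X : ℝ) / (32 * s 1 * Real.log X) ≤ pN X (s 1)) :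
    (X : ℝ) ^ 2 / (256 * (Q0.totient : ℝ) ^ 2) / Real.log X ^ 2 * mu s ≤ mA X Q0 s := by
  have hX2 := hB.two
  have hXr : (0 : ℝ) < X := by positivity
  have hL : 0 < Real.log X := Real.log_pos (by exact_mod_cast (by omega : 1 < X))
  have hs : ∀ j, (0 : ℝ) < s j := fun j => by exact_mod_cast Nat.pos_of_ne_zero (hD.ne j)
  have h0 := hs 0
  have h1 := hs 1
  have h2 := hs 2
  have hφ : (0 : ℝ) < Q0.totient := by exact_mod_cast Nat.totient_pos.2 (Nat.pos_of_ne_zero hQ)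
  have hφ2 : (0 : ℝ) < (s 2).totient := by
    exact_mod_cast Nat.totient_pos.2 (Nat.pos_of_ne_zero (hD.ne 2))
  have hφ3 : ((s 2).totient : ℝ) ≤ s 2 := by exact_mod_cast Nat.totient_le _
  unfold mA mu
  set k := (∏ j, s j).primeFactors.card
  rw [Fin.prod_univ_three]
  calc (X : ℝ) ^ 2 / (256 * (Q0.totient : ℝ) ^ 2) / Real.log X ^ 2 *
        ((1 / 2) ^ k * (1 / (s 0 : ℝ) * (1 / (s 1 : ℝ)) * (1 / (s 2 : ℝ)))) =
        ((X : ℝ) / (8 * s 0 * Real.log X)) * ((X : ℝ) / (32 * s 1 * Real.log X)) /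
          (2 ^ k * (Q0.totient : ℝ) ^ 2 * s 2) := by
        rw [one_div_pow]
        field_simp
        ring
    _ ≤ pM X (s 0) * pN X (s 1) / (2 ^ k * (Q0.totient : ℝ) ^ 2 * ((s 2).totient : ℝ)) := by
        have e1 : (0 : ℝ) ≤ (X : ℝ) / (8 * s 0 * Real.log X) := by positivity
        have e2 : (0 : ℝ) ≤ (X : ℝ) / (32 * s 1 * Real.log X) := by positivity
        have e3 : 0 ≤ pM X (s 0) := e1.trans hM
        have e4 : 0 ≤ pN X (s 1) := e2.trans hN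
        have e5 : 0 ≤ pM X (s 0) * pN X (s 1) := mul_nonneg e3 e4
        gcongr

open Classical in
theorem MAIN (hSV : St_SV) (hCNT : St_CNT) (hERR : St_ERR) (hGD : St_GD) : St_MAIN := by
  obtain ⟨z1, hz13, hDATA⟩ := DATA hSV hCNT
  obtain ⟨z0, hGD⟩ := hGD
  obtain ⟨z, hzdef⟩ : ∃ z : ℕ, z = max z1 z0 := ⟨_, rfl⟩
  have hzz1 : z1 ≤ z := hzdef ▸ le_max_left _ _
  have hzz0 : z0 ≤ z := hzdef ▸ le_max_right _ _
  have hz2 : 2 ≤ z := by omega
  obtain ⟨c, hc, X1, hD⟩ := hDATA z hzz1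
  obtain ⟨cG, hcG, X2, hG⟩ := hGD z hzz0 (1 / 2000) (by norm_num)
  obtain ⟨Q0, a0, b0, hM⟩ := exists_mod z hz2
  obtain ⟨X3, hE⟩ := hERR Q0 1 3 hM.ne
  obtain ⟨X4, -, hP⟩ := pMN
  have hφ : (0 : ℝ) < Q0.totient := by
    exact_mod_cast Nat.totient_pos.2 (Nat.pos_of_ne_zero hM.ne)
  obtain ⟨c1, hc1⟩ : ∃ c1 : ℝ, c1 = c * (cG / (256 * (Q0.totient : ℝ) ^ 2)) := ⟨_, rfl⟩
  have hc1pos : 0 < c1 := by rw [hc1]; positivity
  have v1 := (pow_tendsto (e := 1 / 4) (by norm_num)).eventually_ge_atTop (32 / c1 + 8 : ℝ)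
  have v2 := log_tendsto.eventually_ge_atTop (8 / c1 + 1 : ℝ)
  obtain ⟨X5, hX5⟩ := (v1.and v2).exists_forall_of_atTop
  refine ⟨c1 / 2, by positivity, max (max (max X1 X2) (max X3 X4)) X5, fun X hX => ?_⟩
  have hX1 : X1 ≤ X := (((le_max_left _ _).trans (le_max_left _ _)).trans (le_max_left _ _)).trans hX
  have hX2 : X2 ≤ X := (((le_max_right _ _).trans (le_max_left _ _)).trans (le_max_left _ _)).trans hX
  have hX3 : X3 ≤ X := (((le_max_left _ _).trans (le_max_right _ _)).trans (le_max_left _ _)).trans hX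
  have hX4 : X4 ≤ X := (((le_max_right _ _).trans (le_max_right _ _)).trans (le_max_left _ _)).trans hX
  obtain ⟨w1, w2⟩ := hX5 X ((le_max_right _ _).trans hX)
  obtain ⟨hB, hDX⟩ := hD X hX1
  have hG' := hG X hX2
  have hE' := hE X hX3
  have hX2n := hB.two
  have hXr : (0 : ℝ) < X := by positivity
  have hL : 0 < Real.log X := Real.log_pos (by exact_mod_cast (by omega : 1 < X))
  set L := Real.log X with hLdef
  set TT := Trip z ((X : ℝ) ^ (1 / 2000 : ℝ)) with hTT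
  set G : (Fin 3 → ℕ) → Finset ℕ → Finset (ℕ × ℕ) := fun s E =>
    (AA X Q0 a0 b0 s E).filter (fun t => Rg X (vv s t) ∧ GoodP X (s 0 * t.1, s 1 * t.2)) with hGdef
  set Ex : (Fin 3 → ℕ) → Finset ℕ → Finset (ℕ × ℕ) := fun s E =>
    (AA X Q0 a0 b0 s E).filter (fun t => Rg X (vv s t) ∧ Exc X s t) with hExdef
  -- the inequality for one datum
  have hdat : ∀ s ∈ TT, ∀ E ∈ GE s, c * (mA X Q0 s / L) ≤ ((G s E).card : ℝ) +
      ((Ex s E).card : ℝ) + L * Er X Q0 z s := by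
    intro s hs E hE
    obtain ⟨d1, d2⟩ := Trip_dat hs
    unfold GE at hE
    rw [mem_filter, mem_powerset] at hE
    exact hDX Q0 a0 b0 s E hM d1 d2 hE.1 hE.2
  have hsum : ∑ s ∈ TT, ∑ E ∈ GE s, c * (mA X Q0 s / L) ≤ ∑ s ∈ TT, ∑ E ∈ GE s,
      (((G s E).card : ℝ) + ((Ex s E).card : ℝ) + L * Er X Q0 z s) :=
    sum_le_sum fun s hs => sum_le_sum fun E hE => hdat s hs E hE
  -- the lower bound of the left side
  have hlow : c1 * (X : ℝ) ^ 2 ≤ ∑ s ∈ TT, ∑ E ∈ GE s, c * (mA X Q0 s / L) := by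
    have h1 : ∀ s ∈ TT, c * ((X : ℝ) ^ 2 / (256 * (Q0.totient : ℝ) ^ 2) / L ^ 3) *
        (mu s * ((GE s).card : ℝ)) ≤ ∑ E ∈ GE s, c * (mA X Q0 s / L) := by
      intro s hs
      obtain ⟨d1, d2⟩ := Trip_dat hs
      rw [sum_const, nsmul_eq_mul]
      have h2 := hP X hX4 (s 0) (s 1) (Nat.pos_of_ne_zero (d1.ne 0))
        (Nat.pos_of_ne_zero (d1.ne 1)) ((d2 0).trans hB.half) ((d2 1).trans hB.half)
      have h3 := mA_low hB hM.ne d1 h2.1 h2.2
      have h4 : (0 : ℝ) ≤ ((GE s).card : ℝ) := Nat.cast_nonneg _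
      calc c * ((X : ℝ) ^ 2 / (256 * (Q0.totient : ℝ) ^ 2) / L ^ 3) * (mu s * ((GE s).card : ℝ)) =
            ((GE s).card : ℝ) * (c * (((X : ℝ) ^ 2 / (256 * (Q0.totient : ℝ) ^ 2) / L ^ 2 *
              mu s) / L)) := by
            field_simp
        _ ≤ ((GE s).card : ℝ) * (c * (mA X Q0 s / L)) := by gcongr
    have h5 := sum_le_sum h1
    rw [← mul_sum] at h5
    refine le_trans ?_ h5
    have h6 : cG * L ^ 3 ≤ ∑ s ∈ TT, mu s * ((GE s).card : ℝ) := hG'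
    have h7 : 0 ≤ c * ((X : ℝ) ^ 2 / (256 * (Q0.totient : ℝ) ^ 2) / L ^ 3) := by positivity
    refine le_trans (le_of_eq ?_) (mul_le_mul_of_nonneg_left h6 h7)
    rw [hc1]
    field_simp
  -- the upper bounds
  have hGs : ∑ s ∈ TT, ∑ E ∈ GE s, ((G s E).card : ℝ) ≤
      (((Icc 1 X ×ˢ Icc 1 X).filter (GoodP X)).card : ℝ) := by
    refine card_bound hz2 hB hM _ G ?_
    intro s hs E hE t ht
    obtain ⟨h1, h2, h3⟩ := mem_filter.1 ht
    refine ⟨h1, h2, ?_⟩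
    rw [mem_filter, mem_product, mem_Icc, mem_Icc]
    have h4 := h3
    obtain ⟨g1, g2, g3, g4, -⟩ := h4
    simp only at g1 g2 g3 g4
    exact ⟨⟨⟨by omega, g2⟩, ⟨by omega, by omega⟩⟩, h3⟩
  have hExs : ∑ s ∈ TT, ∑ E ∈ GE s, ((Ex s E).card : ℝ) ≤
      (((Icc 1 X ×ˢ Icc 1 X).filter (ExP X)).card : ℝ) := by
    refine card_bound hz2 hB hM _ Ex ?_
    intro s hs E hE t ht
    obtain ⟨h1, h2, h3⟩ := mem_filter.1 ht
    obtain ⟨d1, d2⟩ := Trip_dat hs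
    refine ⟨h1, h2, ?_⟩
    have heq := AA_eq hz2 d1 hM h1
    have hlt := AA_lt h1
    obtain ⟨b1, b2, b3⟩ := AA_big hB d2 h1
    have h4 := h1
    unfold AA at h4
    rw [mem_filter] at h4
    obtain ⟨-, hm, hn, g1, g2, g3, g4, -⟩ := h4
    rw [mem_filter, mem_product, mem_Icc, mem_Icc]
    refine ⟨⟨⟨by simp only; omega, g2⟩, ⟨by simp only; omega, by simp only; omega⟩⟩, hlt, ?_⟩
    rcases h3 with h3 | ⟨q, hq, hqX, hqv⟩
    · refine ⟨t.1, hm, ?_, Or.inl ⟨dvd_mul_left _ _, ?_⟩⟩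
      · by_contra hcon
        push Not at hcon
        have h1X : (1 : ℝ) ≤ X := by exact_mod_cast (by omega : 1 ≤ X)
        have h5 : (X : ℝ) ^ (1 / 4 : ℝ) ≤ (X : ℝ) ^ (1 / 2 : ℝ) :=
          Real.rpow_le_rpow_of_exponent_le h1X (by norm_num)
        have := (b3 t.1 (by linarith)).1
        omega
      · show t.1 ∣ s 1 * t.2
        rw [← h3]
        exact dvd_mul_left _ _
    · refine ⟨q, hq, hqX, Or.inr ?_⟩
      show q ^ 2 ∣ s 0 * t.1 - s 1 * t.2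
      rw [heq]
      exact (hqv.mul_left _).mul_left _
  have hErn : ∀ s, 0 ≤ Er X Q0 z s := by
    intro s
    unfold Er
    exact add_nonneg (sum_nonneg fun _ _ => er_nonneg _ _ _ _)
      (sum_nonneg fun _ _ => sum_nonneg fun _ _ => er_nonneg _ _ _ _)
  have hErs : ∑ s ∈ TT, ∑ E ∈ GE s, L * Er X Q0 z s ≤ L * (2 * SE X Q0) := by
    have h1 : ∀ s ∈ TT, ∑ E ∈ GE s, L * Er X Q0 z s ≤
        L * ((2 : ℝ) ^ (∏ j, s j).primeFactors.card * Er X Q0 z s) := by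
      intro s _
      rw [sum_const, nsmul_eq_mul]
      have h2 : ((GE s).card : ℝ) ≤ (2 : ℝ) ^ (∏ j, s j).primeFactors.card := by
        have : (GE s).card ≤ 2 ^ (∏ j, s j).primeFactors.card := by
          rw [← card_powerset]
          exact card_filter_le _ _
        exact_mod_cast this
      have h3 := mul_le_mul_of_nonneg_right h2 (mul_nonneg hL.le (hErn s))
      calc ((GE s).card : ℝ) * (L * Er X Q0 z s) ≤
            (2 : ℝ) ^ (∏ j, s j).primeFactors.card * (L * Er X Q0 z s) := h3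
        _ = L * ((2 : ℝ) ^ (∏ j, s j).primeFactors.card * Er X Q0 z s) := by ring
    refine (sum_le_sum h1).trans ?_
    rw [← mul_sum]
    apply mul_le_mul_of_nonneg_left _ hL.le
    have h4 : ∑ s ∈ TT, (2 : ℝ) ^ (∏ j, s j).primeFactors.card * Er X Q0 z s =
        ∑ s ∈ TT, (2 : ℝ) ^ (∏ j, s j).primeFactors.card *
          ∑ q ∈ Lev z ((X : ℝ) ^ (99 / 100 : ℝ)), er X Q0 s q +
        ∑ s ∈ TT, (2 : ℝ) ^ (∏ j, s j).primeFactors.card *
          ∑ q1 ∈ Pr X, ∑ q ∈ Lev z ((X : ℝ) ^ (49 / 100 : ℝ)), er X Q0 (up s q1) q := by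
      rw [← sum_add_distrib]
      apply sum_congr rfl
      intro s _
      unfold Er
      rw [mul_add]
    rw [h4]
    have h5 := errA (z := z) (Q0 := Q0) hB
    have h6 := errB (z := z) (Q0 := Q0) hB
    linarith
  have hSE : SE X Q0 ≤ (X : ℝ) ^ 2 / L ^ 3 := hE'
  have hExb := ExP_card (X := X) (by
    have : 0 < 32 / c1 := by positivity
    linarith)
  -- the final comparison
  have f1 : 8 * (X : ℝ) ^ 2 / (X : ℝ) ^ (1 / 4 : ℝ) ≤ c1 / 4 * (X : ℝ) ^ 2 := by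
    have hq : 0 < (X : ℝ) ^ (1 / 4 : ℝ) := by positivity
    rw [div_le_iff₀ hq]
    have h1 : 32 / c1 ≤ (X : ℝ) ^ (1 / 4 : ℝ) := by linarith
    rw [div_le_iff₀ hc1pos] at h1
    nlinarith [sq_nonneg (X : ℝ)]
  have f2 : L * (2 * ((X : ℝ) ^ 2 / L ^ 3)) ≤ c1 / 4 * (X : ℝ) ^ 2 := by
    have h1 : L * (2 * ((X : ℝ) ^ 2 / L ^ 3)) = 2 / L ^ 2 * (X : ℝ) ^ 2 := by
      field_simp
    rw [h1]
    apply mul_le_mul_of_nonneg_right _ (by positivity)
    rw [div_le_iff₀ (by positivity)]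
    have h2 : 8 / c1 ≤ L := by linarith
    have h3 : 1 ≤ L := by
      have : 0 < 8 / c1 := by positivity
      linarith
    rw [div_le_iff₀ hc1pos] at h2
    nlinarith
  have hsplit : ∑ s ∈ TT, ∑ E ∈ GE s,
      (((G s E).card : ℝ) + ((Ex s E).card : ℝ) + L * Er X Q0 z s) =
      ∑ s ∈ TT, ∑ E ∈ GE s, ((G s E).card : ℝ) + ∑ s ∈ TT, ∑ E ∈ GE s, ((Ex s E).card : ℝ) +
        ∑ s ∈ TT, ∑ E ∈ GE s, L * Er X Q0 z s := by
    simp only [sum_add_distrib]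
  rw [hsplit] at hsum
  have h9 : L * (2 * SE X Q0) ≤ L * (2 * ((X : ℝ) ^ 2 / L ^ 3)) := by gcongr
  linarith

end Pool.Agent.Y667.RP
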