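import Pool.Agent.Y667.RP.V0

/-!
# Project RP: the reciprocity law
-/

set_option autoImplicit false

namespace Pool.Agent.Y667.RP

open Finset Pool.Agent.W262.RK Pool.Agent.W307.RT Pool.Agent.W307.RS Pool.Agent.W307.SE
  Pool.Agent.W307.FK Pool.Agent.W214.RK2

open NumberTheorySymbols jacobiSym

lemma chi_eq {u g : ℕ} (h : (u * g) % 4 = 1) : ZMod.χ₄ (u : ZMod 4) = ZMod.χ₄ (g : ZMod 4) := by
  have hu : u % 4 = 1 ∨ u % 4 = 3 := by
    have : u % 4 = 0 ∨ u % 4 = 1 ∨ u % 4 = 2 ∨ u % 4 = 3 := by omega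
    rcases this with h1 | h1 | h1 | h1
    · rw [Nat.mul_mod, h1] at h; omega
    · exact Or.inl h1
    · rw [Nat.mul_mod, h1] at h
      have : g % 4 = 0 ∨ g % 4 = 1 ∨ g % 4 = 2 ∨ g % 4 = 3 := by omega
      rcases this with h2 | h2 | h2 | h2 <;> rw [h2] at h <;> omega
    · exact Or.inr h1
  have hg : g % 4 = u % 4 := by
    have : g % 4 = 0 ∨ g % 4 = 1 ∨ g % 4 = 2 ∨ g % 4 = 3 := by omega
    rcases hu with h1 | h1 <;> rw [Nat.mul_mod, h1] at h <;>
      rcases this with h2 | h2 | h2 | h2 <;> rw [h2] at h <;> omega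
  rw [← ZMod.natCast_mod u 4, ← ZMod.natCast_mod g 4, hg]

/-- the sign `J(ε | n)` is trivial for `n ≡ 1 mod 8` -/
lemma eps_one {ε : ℤ} (hε : ε = 1 ∨ ε = -1 ∨ ε = 2 ∨ ε = -2) {n : ℕ} (hn : n % 8 = 1) :
    J(ε | n) = 1 := by
  have hodd : Odd n := Nat.odd_iff.2 (by omega)
  rcases hε with rfl | rfl | rfl | rfl
  · exact jacobiSym.one_left n
  · rw [jacobiSym.at_neg_one hodd, ZMod.χ₄_nat_one_mod_four (by omega)]
  · rw [jacobiSym.at_two hodd]
    rw [← ZMod.natCast_mod n 8, hn]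
    rfl
  · rw [jacobiSym.at_neg_two hodd]
    rw [← ZMod.natCast_mod n 8, hn]
    rfl

lemma core {g u D : ℕ} {ε : ℤ} (hε : ε = 1 ∨ ε = -1 ∨ ε = 2 ∨ ε = -2) (hgu : (g * u) % 8 = 1)
    (hD : Odd D) (h1 : g.Coprime u) (h2 : g.Coprime D) (h3 : u.Coprime D) :
    J(g * (ε * D) | u) * J(g * u | D) * J(-(u * (ε * D)) | g) = 1 := by
  have hgo : Odd g := by
    have : Odd (g * u) := Nat.odd_iff.2 (by omega)
    exact (Nat.odd_mul.1 this).1
  have huo : Odd u := by
    have : Odd (g * u) := Nat.odd_iff.2 (by omega)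
    exact (Nat.odd_mul.1 this).2
  have n1 : -((u : ℤ) * (ε * D)) = -1 * (u * (ε * D)) := by ring
  rw [n1]
  simp only [jacobiSym.mul_left]
  have r1 : J(g | u) = qrSign u g * J(u | g) := quadratic_reciprocity' hgo huo
  have r2 : J(D | u) = qrSign u D * J(u | D) := quadratic_reciprocity' hD huo
  have r3 : J(D | g) = qrSign g D * J(g | D) := quadratic_reciprocity' hD hgo
  rw [r1, r2, r3]
  have s1 : J(u | g) ^ 2 = 1 := sq_one (by
    rw [Int.gcd_natCast_natCast]; exact h1.symm)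
  have s2 : J(u | D) ^ 2 = 1 := sq_one (by
    rw [Int.gcd_natCast_natCast]; exact h3)
  have s3 : J(g | D) ^ 2 = 1 := sq_one (by
    rw [Int.gcd_natCast_natCast]; exact h2)
  have e1 : J(ε | u) * J(ε | g) = 1 := by
    have : NeZero u := ⟨huo.pos.ne'⟩
    have : NeZero g := ⟨hgo.pos.ne'⟩
    rw [mul_comm, ← jacobiSym.mul_right]
    exact eps_one hε hgu
  have q1 : qrSign u D * qrSign g D = 1 := by
    rw [← qrSign.mul_left]
    unfold qrSign
    have : (u * g) % 4 = 1 := by rw [mul_comm]; omega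
    rw [ZMod.χ₄_nat_one_mod_four this, jacobiSym.one_left]
  have q2 : qrSign u g * J(-1 | g) = 1 := by
    unfold qrSign
    have h4 : (u * g) % 4 = 1 := by rw [mul_comm]; omega
    rw [chi_eq h4]
    have hg4 : g % 4 = 1 ∨ g % 4 = 3 := by
      have := Nat.odd_iff.1 hgo
      omega
    rcases hg4 with h | h
    · rw [ZMod.χ₄_nat_one_mod_four h, jacobiSym.one_left, jacobiSym.at_neg_one hgo,
        ZMod.χ₄_nat_one_mod_four h, one_mul]
    · rw [ZMod.χ₄_nat_three_mod_four h, jacobiSym.at_neg_one hgo,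
        ZMod.χ₄_nat_three_mod_four h]
      norm_num
  calc _ = (qrSign u g * J(-1 | g)) * (qrSign u D * qrSign g D) * (J(ε | u) * J(ε | g)) *
        J(u | g) ^ 2 * J(u | D) ^ 2 * J(g | D) ^ 2 := by ring
    _ = 1 := by rw [q1, q2, e1, s1, s2, s3]; norm_num

lemma jac_prod {M : Finset ℕ} (hM : ∀ q ∈ M, q.Prime) (x : ℤ) :
    ∏ q ∈ M, J(x | q) = J(x | ∏ q ∈ M, q) := by
  classical
  induction M using Finset.induction_on with
  | empty => simp
  | insert a s ha ih =>
    rw [prod_insert ha, prod_insert ha, ih (fun q hq => hM q (mem_insert_of_mem hq))]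
    have h1 : a ≠ 0 := (hM a (mem_insert_self _ _)).ne_zero
    have h2 : ∏ q ∈ s, q ≠ 0 := prod_ne_zero_iff.2 fun q hq => (hM q (mem_insert_of_mem hq)).ne_zero
    rw [jacobiSym.mul_right' x h1 h2]

lemma jac_sqf {m : ℕ} (hm : Squarefree m) (x : ℤ) : ∏ q ∈ m.primeFactors, J(x | q) = J(x | m) := by
  rw [jac_prod (fun q hq => Nat.prime_of_mem_primeFactors hq),
    Nat.prod_primeFactors_of_squarefree hm]

/-- the local symbol -/
def hsb (q : ℕ) (x y : ℤ) : Bool :=
  xor (dv q x && sgn q y) (xor (dv q y && sgn q x) (dv q x && (dv q y && sg0 q (-1))))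

/-- the sign -/
def sg (b : Bool) : ℤ := if b then -1 else 1

lemma sg_xor (a b : Bool) : sg (xor a b) = sg a * sg b := by
  revert a b; decide

lemma sg_sg0 {q : ℕ} (hq : q.Prime) {x : ℤ} (hx : ¬ (q : ℤ) ∣ x) : sg (sg0 q x) = J(x | q) := by
  unfold sg sg0
  have h1 : x.gcd q = 1 := by
    rw [Int.gcd_comm, ← Int.isCoprime_iff_gcd_eq_one]
    exact ((Nat.prime_iff_prime_int.1 hq).coprime_iff_not_dvd).2 hx
  rcases jacobiSym.eq_one_or_neg_one h1 with h | h
  · rw [h]; simp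
  · rw [h]; simp

lemma sgn_ndvd {q : ℕ} (hq : q.Prime) {x : ℤ} (hx : ¬ (q : ℤ) ∣ x) : sgn q x = sg0 q x := by
  unfold sgn
  have h1 : x.gcd q = 1 := by
    rw [Int.gcd_comm, ← Int.isCoprime_iff_gcd_eq_one]
    exact ((Nat.prime_iff_prime_int.1 hq).coprime_iff_not_dvd).2 hx
  rw [h1]; simp

lemma sgn_dvd {q : ℕ} {x : ℤ} (hx : (q : ℤ) ∣ x) : sgn q x = sg0 q (x / q) := by
  unfold sgn
  have h1 : x.gcd q = q := by
    rw [Int.gcd_comm]
    have : ((Int.gcd (q : ℤ) x : ℕ) : ℤ) = q := by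
      rw [Int.gcd_eq_left (by positivity) hx]
    exact_mod_cast this
  rw [h1]

/-- the product formula -/
theorem prodf {x y : ℤ} (hx : Squarefree x) (hx0 : 0 < x) (hx8 : x % 8 = 1) (hy : Squarefree y)
    (M : Finset ℕ) (hM : ∀ q ∈ M, q.Prime ∧ q ≠ 2)
    (hMx : ∀ q : ℕ, q.Prime → q ≠ 2 → (q : ℤ) ∣ x ∨ (q : ℤ) ∣ y → q ∈ M) :
    ∏ q ∈ M, sg (hsb q x y) = 1 := by
  classical
  obtain ⟨g, u, y', hg0, hxe, hye, huy, -⟩ := sp_dec x y hx
  have hu0 : 0 < u := by
    rw [hxe] at hx0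
    exact (mul_pos_iff_of_pos_left hg0).1 hx0
  lift g to ℕ using hg0.le
  lift u to ℕ using hu0.le
  have hg0' : 0 < g := by exact_mod_cast hg0
  have hu0' : 0 < u := by exact_mod_cast hu0
  -- y' = ε D
  have hy'0 : y' ≠ 0 := by
    rintro rfl
    rw [mul_zero] at hye
    exact hy.ne_zero hye
  have hy's : Squarefree y' := hy.squarefree_of_dvd ⟨g, by rw [hye, mul_comm]⟩
  obtain ⟨ε, D, hε, hD, hyD⟩ : ∃ (ε : ℤ) (D : ℕ), (ε = 1 ∨ ε = -1 ∨ ε = 2 ∨ ε = -2) ∧ Odd D ∧
      y' = ε * D := by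
    have hn : Squarefree y'.natAbs := Int.squarefree_natAbs.2 hy's
    rcases Nat.even_or_odd y'.natAbs with he | ho
    · obtain ⟨k, hk⟩ := he
      have hk2 : y'.natAbs = 2 * k := by omega
      have hko : Odd k := by
        by_contra hcon
        rw [Nat.not_odd_iff_even] at hcon
        obtain ⟨l, hl⟩ := hcon
        have h4 : 2 * 2 ∣ y'.natAbs := ⟨l, by rw [hk2, hl]; ring⟩
        have := Nat.isUnit_iff.1 (hn 2 h4)
        omega
      rcases lt_or_gt_of_ne hy'0 with h | h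
      · exact ⟨-2, k, by simp, hko, by omega⟩
      · exact ⟨2, k, by simp, hko, by omega⟩
    · rcases lt_or_gt_of_ne hy'0 with h | h
      · exact ⟨-1, y'.natAbs, by simp, ho, by omega⟩
      · exact ⟨1, y'.natAbs, by simp, ho, by omega⟩
  have hDs : Squarefree D := by
    have h1 : Squarefree ((D : ℕ) : ℤ) := hy's.squarefree_of_dvd ⟨ε, by rw [hyD, mul_comm]⟩
    exact Int.squarefree_natCast.1 h1
  have hgs : Squarefree g := by
    have h1 : Squarefree ((g : ℕ) : ℤ) := hx.squarefree_of_dvd ⟨u, hxe⟩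
    exact Int.squarefree_natCast.1 h1
  have hus : Squarefree u := by
    have h1 : Squarefree ((u : ℕ) : ℤ) := hx.squarefree_of_dvd ⟨g, by rw [hxe, mul_comm]⟩
    exact Int.squarefree_natCast.1 h1
  have hgu8 : (g * u) % 8 = 1 := by
    have h1 : ((g * u : ℕ) : ℤ) % 8 = 1 := by push_cast; rw [← hxe]; exact hx8
    omega
  have hcgu : g.Coprime u := by
    have h1 : Squarefree (g * u) := by
      have h2 : Squarefree (((g * u : ℕ)) : ℤ) := by push_cast; rw [← hxe]; exact hx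
      exact Int.squarefree_natCast.1 h2
    exact Nat.coprime_of_squarefree_mul h1
  have hcgD : g.Coprime D := by
    have h1 : Squarefree ((g * D : ℕ) : ℤ) := hy.squarefree_of_dvd ⟨ε, by
      rw [hye, hyD]; push_cast; ring⟩
    exact Nat.coprime_of_squarefree_mul (Int.squarefree_natCast.1 h1)
  have hcuD : u.Coprime D := by
    rw [Nat.coprime_iff_gcd_eq_one]
    have h1 : IsCoprime (u : ℤ) (D : ℤ) := huy.of_isCoprime_of_dvd_right ⟨ε, by
      rw [hyD, mul_comm]⟩
    rw [Int.isCoprime_iff_gcd_eq_one, Int.gcd_natCast_natCast] at h1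
    exact h1
  have hodd : ∀ q ∈ M, ¬ (q : ℤ) ∣ ε := by
    intro q hq h
    obtain ⟨hqp, hq2⟩ := hM q hq
    have h1 : (q : ℤ) ∣ 2 := by
      rcases hε with rfl | rfl | rfl | rfl
      · exact h.trans (by norm_num)
      · exact h.trans (by norm_num)
      · exact h
      · exact h.trans (by norm_num)
    have h2 : q ∣ 2 := by exact_mod_cast h1
    exact hq2 ((Nat.prime_dvd_prime_iff_eq hqp Nat.prime_two).1 h2)
  -- the pointwise identity
  have hpt : ∀ q ∈ M, sg (hsb q x y) = (if q ∣ u then J(y | q) else 1) *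
      (if q ∣ D then J(x | q) else 1) * (if q ∣ g then J(-(u * y') | q) else 1) := by
    intro q hq
    obtain ⟨hqp, hq2⟩ := hM q hq
    have hqi := Nat.prime_iff_prime_int.1 hqp
    have hdg : ((q : ℤ) ∣ (g : ℤ)) ↔ q ∣ g := Int.natCast_dvd_natCast
    have hdu : ((q : ℤ) ∣ (u : ℤ)) ↔ q ∣ u := Int.natCast_dvd_natCast
    have hdD : ((q : ℤ) ∣ (D : ℤ)) ↔ q ∣ D := Int.natCast_dvd_natCast
    have hdy' : ((q : ℤ) ∣ y') ↔ q ∣ D := by
      rw [hyD, ← hdD]
      exact ⟨fun h => (hqi.dvd_or_dvd h).resolve_left (hodd q hq), fun h => h.mul_left _⟩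
    have hdx : ((q : ℤ) ∣ x) ↔ q ∣ g ∨ q ∣ u := by
      rw [hxe, hqi.dvd_mul, hdg, hdu]
    have hdy : ((q : ℤ) ∣ y) ↔ q ∣ g ∨ q ∣ D := by
      rw [hye, hqi.dvd_mul, hdg, hdy']
    by_cases h1 : q ∣ g
    · have h2 : ¬ q ∣ u := fun h => hqp.one_lt.ne' (Nat.dvd_one.1 (hcgu ▸ Nat.dvd_gcd h1 h))
      have h3 : ¬ q ∣ D := fun h => hqp.one_lt.ne' (Nat.dvd_one.1 (hcgD ▸ Nat.dvd_gcd h1 h))
      rw [if_neg h2, if_neg h3, if_pos h1, one_mul, one_mul]
      have hxd : (q : ℤ) ∣ x := hdx.2 (Or.inl h1)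
      have hyd : (q : ℤ) ∣ y := hdy.2 (Or.inl h1)
      have e1 : dv q x = true := by unfold dv; rw [decide_eq_true_iff]; exact hxd
      have e2 : dv q y = true := by unfold dv; rw [decide_eq_true_iff]; exact hyd
      unfold hsb
      rw [e1, e2, Bool.true_and, Bool.true_and, Bool.true_and, Bool.true_and, sg_xor, sg_xor,
        sgn_dvd hxd, sgn_dvd hyd]
      obtain ⟨g', hg'⟩ := h1
      have hqg' : ¬ q ∣ g' := by
        intro h
        obtain ⟨k, hk⟩ := h
        have : q * q ∣ g := ⟨k, by rw [hg', hk]; ring⟩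
        have := Nat.isUnit_iff.1 (hgs q this)
        exact hqp.one_lt.ne' this
      have hq0 : (q : ℤ) ≠ 0 := hqi.ne_zero
      have ex : x / q = g' * u := by
        rw [hxe, hg']; push_cast; rw [mul_assoc, Int.mul_ediv_cancel_left _ hq0]
      have ey : y / q = g' * y' := by
        rw [hye, hg']; push_cast; rw [mul_assoc, Int.mul_ediv_cancel_left _ hq0]
      have hg'i : ¬ (q : ℤ) ∣ (g' : ℤ) := by rwa [Int.natCast_dvd_natCast]
      have nx : ¬ (q : ℤ) ∣ (g' : ℤ) * u := by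
        rw [hqi.dvd_mul, hdu]
        exact fun h => h.elim hg'i h2
      have ny : ¬ (q : ℤ) ∣ (g' : ℤ) * y' := by
        rw [hqi.dvd_mul, hdy']
        exact fun h => h.elim hg'i h3
      have n1 : ¬ (q : ℤ) ∣ -1 := by
        rw [dvd_neg]
        exact hqi.not_dvd_one
      rw [ex, ey, sg_sg0 hqp nx, sg_sg0 hqp ny, sg_sg0 hqp n1, ← jacobiSym.mul_left,
        ← jacobiSym.mul_left]
      have : (g' : ℤ) * y' * (g' * u * -1) = g' ^ 2 * -(u * y') := by ring
      rw [this, jacobiSym.mul_left, jacobiSym.sq_one', one_mul]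
      rw [Int.gcd_comm, ← Int.isCoprime_iff_gcd_eq_one]
      exact (hqi.coprime_iff_not_dvd).2 hg'i
    · rw [if_neg h1, mul_one]
      by_cases h2 : q ∣ u
      · have h3 : ¬ q ∣ D := fun h => hqp.one_lt.ne' (Nat.dvd_one.1 (hcuD ▸ Nat.dvd_gcd h2 h))
        rw [if_pos h2, if_neg h3, mul_one]
        have hxd : (q : ℤ) ∣ x := hdx.2 (Or.inr h2)
        have hyd : ¬ (q : ℤ) ∣ y := by
          rw [hdy]
          exact fun h => h.elim h1 h3
        have e1 : dv q x = true := by unfold dv; rw [decide_eq_true_iff]; exact hxd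
        have e2 : dv q y = false := by unfold dv; rw [decide_eq_false_iff_not]; exact hyd
        unfold hsb
        rw [e1, e2, sgn_ndvd hqp hyd]
        simp only [Bool.true_and, Bool.false_and, Bool.xor_false]
        exact sg_sg0 hqp hyd
      · rw [if_neg h2, one_mul]
        have hxd : ¬ (q : ℤ) ∣ x := by
          rw [hdx]
          exact fun h => h.elim h1 h2
        have e1 : dv q x = false := by unfold dv; rw [decide_eq_false_iff_not]; exact hxd
        by_cases h3 : q ∣ D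
        · rw [if_pos h3]
          have hyd : (q : ℤ) ∣ y := hdy.2 (Or.inr h3)
          have e2 : dv q y = true := by unfold dv; rw [decide_eq_true_iff]; exact hyd
          unfold hsb
          rw [e1, e2, sgn_ndvd hqp hxd]
          simp only [Bool.true_and, Bool.false_and, Bool.xor_false, Bool.false_xor]
          exact sg_sg0 hqp hxd
        · rw [if_neg h3]
          have hyd : ¬ (q : ℤ) ∣ y := by
            rw [hdy]
            exact fun h => h.elim h1 h3
          have e2 : dv q y = false := by unfold dv; rw [decide_eq_false_iff_not]; exact hyd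
          unfold hsb
          rw [e1, e2]
          simp [sg]
  rw [prod_congr rfl hpt, prod_mul_distrib, prod_mul_distrib, ← prod_filter, ← prod_filter,
    ← prod_filter]
  have hf : ∀ m : ℕ, Odd m → m ≠ 0 → (∀ q : ℕ, q.Prime → q ∣ m → (q : ℤ) ∣ x ∨ (q : ℤ) ∣ y) →
      M.filter (fun q => q ∣ m) = m.primeFactors := by
    intro m hmo hm0 hm
    ext q
    rw [mem_filter, Nat.mem_primeFactors]
    constructor
    · rintro ⟨h1, h2⟩
      exact ⟨(hM q h1).1, h2, hm0⟩
    · rintro ⟨h1, h2, -⟩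
      refine ⟨hMx q h1 ?_ (hm q h1 h2), h2⟩
      rintro rfl
      exact (Nat.not_even_iff_odd.2 hmo) (even_iff_two_dvd.2 h2)
  have hgo : Odd g := by
    have : Odd (g * u) := Nat.odd_iff.2 (by omega)
    exact (Nat.odd_mul.1 this).1
  have huo : Odd u := by
    have : Odd (g * u) := Nat.odd_iff.2 (by omega)
    exact (Nat.odd_mul.1 this).2
  rw [hf u huo hu0'.ne' (fun q _ h => Or.inl (by
      rw [hxe]; exact (Int.natCast_dvd_natCast.2 h).mul_left _)),
    hf D hD hD.pos.ne' (fun q _ h => Or.inr (by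
      rw [hye, hyD]; exact ((Int.natCast_dvd_natCast.2 h).mul_left _).mul_left _)),
    hf g hgo hg0'.ne' (fun q _ h => Or.inl (by
      rw [hxe]; exact (Int.natCast_dvd_natCast.2 h).mul_right _)),
    jac_sqf hus, jac_sqf hDs, jac_sqf hgs, hye, hxe, hyD]
  exact core hε hgu8 hD hcgu hcgD hcuD

end Pool.Agent.Y667.RP
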