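import Pool.Agent.Y667.RP.Grp

/-!
# Project RP: the group `V0`
-/

set_option autoImplicit false

namespace Pool.Agent.Y667.RP

open Finset Pool.Agent.W262.RK Pool.Agent.W307.RT Pool.Agent.W307.RS Pool.Agent.W307.SE
  Pool.Agent.W307.FK Pool.Agent.W214.RK2

lemma xb : ∀ neg v v' h h' g g' : Bool, xor h g = (v && neg) → xor h' g' = (v' && neg) →
    xor (xor h h') (xor g g') = (xor v v' && neg) := by decide

lemma xb' : ∀ neg v v' g g' : Bool, g = (v && neg) → g' = (v' && neg) →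
    xor g g' = (xor v v' && neg) := by decide

lemma xcLR (c : Fin 3) (neg : Bool) : XC (LR c neg) := by
  unfold XC LR
  split_ifs with h0 h1
  · refine ⟨⟨rfl, rfl⟩, ?_⟩
    rintro a b c d a' b' c' d' ⟨rfl, h2⟩ ⟨rfl, h3⟩
    exact ⟨rfl, xb _ _ _ _ _ _ _ h2 h3⟩
  · refine ⟨⟨rfl, rfl⟩, ?_⟩
    rintro a b c d a' b' c' d' ⟨rfl, h2⟩ ⟨rfl, h3⟩
    exact ⟨rfl, xb' _ _ _ _ _ h2 h3⟩
  · refine ⟨⟨rfl, rfl⟩, ?_⟩
    rintro a b c d a' b' c' d' ⟨rfl, h2⟩ ⟨rfl, h3⟩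
    exact ⟨rfl, xb' _ _ _ _ _ h2 h3⟩

lemma xcLF (s : Fin 3 → ℕ) (E : Finset ℕ) (p : ℕ) : XC (LF s E p) :=
  ⟨fun j _ => (xcLR j _).1, fun a b c d a' b' c' d' h h' j hj =>
    (xcLR j _).2 a b c d a' b' c' d' (h j hj) (h' j hj)⟩

/-- the product of classes -/
def sp2 (d d' : ℤ × ℤ) : ℤ × ℤ := (sp d.1 d'.1, sp d.2 d'.2)

lemma V0_one (s : Fin 3 → ℕ) (E : Finset ℕ) : ((1, 1) : ℤ × ℤ) ∈ V0 s E := by
  refine ⟨squarefree_one, squarefree_one, one_pos, by norm_num, ?_, ?_, ?_⟩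
  · intro q hq h
    exact absurd (Int.natCast_dvd_natCast.1 (by simpa using h)) (fun h' : q ∣ 1 =>
      hq.one_lt.ne' (Nat.dvd_one.1 h'))
  · intro q hq h
    exact absurd (Int.natCast_dvd_natCast.1 (by simpa using h)) (fun h' : q ∣ 1 =>
      hq.one_lt.ne' (Nat.dvd_one.1 h'))
  · intro p hp
    have hpp := Nat.prime_of_mem_primeFactors hp
    have h1 : dv p 1 = false := by
      unfold dv
      rw [decide_eq_false_iff_not]
      intro h
      have h' : p ∣ 1 := Int.natCast_dvd_natCast.1 (by simpa using h)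
      exact hpp.one_lt.ne' (Nat.dvd_one.1 h')
    have h2 : sgn p 1 = false := by
      unfold sgn sg0
      simp
    show LF s E p (dv p 1) (dv p 1) (sgn p 1) (sgn p 1)
    rw [h1, h2]
    exact (xcLF s E p).1

lemma V0_mul {s : Fin 3 → ℕ} {E : Finset ℕ} {d d' : ℤ × ℤ} (hd : d ∈ V0 s E)
    (hd' : d' ∈ V0 s E) : sp2 d d' ∈ V0 s E := by
  obtain ⟨h1, h2, h3, h4, h5, h6, h7⟩ := hd
  obtain ⟨k1, k2, k3, k4, k5, k6, k7⟩ := hd'
  refine ⟨sp_sqf h1 k1, sp_sqf h2 k2, sp_pos h1 h3 k3, sp_mod h1 h4 k4, ?_, ?_, ?_⟩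
  · intro q hq h
    rcases sp_dvd h1 hq h with h | h
    · exact h5 q hq h
    · exact k5 q hq h
  · intro q hq h
    rcases sp_dvd h2 hq h with h | h
    · exact h6 q hq h
    · exact k6 q hq h
  · intro p hp
    have hpp := Nat.prime_of_mem_primeFactors hp
    obtain ⟨e1, e2⟩ := sp_dv h1 k1 p hpp
    obtain ⟨e3, e4⟩ := sp_dv h2 k2 p hpp
    show LF s E p (dv p (sp d.1 d'.1)) (dv p (sp d.2 d'.2)) (sgn p (sp d.1 d'.1))
      (sgn p (sp d.2 d'.2))
    rw [e1, e2, e3, e4]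
    exact (xcLF s E p).2 _ _ _ _ _ _ _ _ (h7 p hp) (k7 p hp)

lemma LF_congr {s : Fin 3 → ℕ} {E E' : Finset ℕ} {p : ℕ} (h : p ∈ E ↔ p ∈ E')
    {v w x y : Bool} (hL : LF s E p v w x y) : LF s E' p v w x y := by
  intro j hj
  have := hL j hj
  have e : decide (p ∈ E) = decide (p ∈ E') := by rw [decide_eq_decide]; exact h
  rwa [e] at this

lemma V0_congr {s : Fin 3 → ℕ} {E E' : Finset ℕ}
    (h : E' ∩ (∏ j, s j).primeFactors = E ∩ (∏ j, s j).primeFactors) : V0 s E' = V0 s E := by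
  have key : ∀ p ∈ (∏ j, s j).primeFactors, (p ∈ E' ↔ p ∈ E) := by
    intro p hp
    have : p ∈ E' ∩ (∏ j, s j).primeFactors ↔ p ∈ E ∩ (∏ j, s j).primeFactors := by rw [h]
    rw [mem_inter, mem_inter] at this
    exact ⟨fun h => (this.1 ⟨h, hp⟩).1, fun h => (this.2 ⟨h, hp⟩).1⟩
  ext d
  constructor
  · rintro ⟨h1, h2, h3, h4, h5, h6, h7⟩
    exact ⟨h1, h2, h3, h4, h5, h6, fun p hp => LF_congr (key p hp) (h7 p hp)⟩
  · rintro ⟨h1, h2, h3, h4, h5, h6, h7⟩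
    exact ⟨h1, h2, h3, h4, h5, h6, fun p hp => LF_congr (key p hp).symm (h7 p hp)⟩

/-- a squarefree integer whose prime factors divide `m` -/
lemma natAbs_dvd {m : ℕ} {d : ℤ} (hd : Squarefree d)
    (h : ∀ q : ℕ, q.Prime → (q : ℤ) ∣ d → q ∣ m) : d.natAbs ∣ m := by
  have hd' : Squarefree d.natAbs := Int.squarefree_natAbs.mpr hd
  rw [← Nat.prod_primeFactors_of_squarefree hd']
  apply Finset.prod_primes_dvd
  · intro q hq
    exact (Nat.prime_of_mem_primeFactors hq).prime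
  · intro q hq
    exact h q (Nat.prime_of_mem_primeFactors hq)
      (Int.natCast_dvd.mpr (Nat.dvd_of_mem_primeFactors hq))

/-- the sign and the parity of the second component -/
noncomputable def ty (d : ℤ × ℤ) : Bool × Bool := (decide (0 < d.2), dv 2 d.2)

lemma ty_sp {s : Fin 3 → ℕ} {E : Finset ℕ} {d d' : ℤ × ℤ} (hd : d ∈ V0 s E) (hd' : d' ∈ V0 s E)
    (h : ty d = ty d') : 0 < sp d.2 d'.2 ∧ ¬ (2 : ℤ) ∣ sp d.2 d'.2 := by
  obtain ⟨h1, h2, h3, h4, h5, h6, h7⟩ := hd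
  obtain ⟨k1, k2, k3, k4, k5, k6, k7⟩ := hd'
  unfold ty at h
  simp only [Prod.mk.injEq, decide_eq_decide] at h
  obtain ⟨e1, e2⟩ := h
  constructor
  · obtain ⟨g, a', b', hg, f1, f2, f3, f4⟩ := sp_dec d.2 d'.2 h2
    rw [f4]
    have ha0 : a' ≠ 0 := by
      rintro rfl
      rw [mul_zero] at f1
      exact h2.ne_zero f1
    have hb0 : b' ≠ 0 := by
      rintro rfl
      rw [mul_zero] at f2
      exact k2.ne_zero f2
    rw [f1, f2, mul_pos_iff_of_pos_left hg, mul_pos_iff_of_pos_left hg] at e1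
    rcases lt_or_gt_of_ne ha0 with h | h
    · have : b' < 0 := by
        rcases lt_or_gt_of_ne hb0 with h' | h'
        · exact h'
        · have := e1.2 h'; omega
      exact mul_pos_of_neg_of_neg h this
    · exact mul_pos h (e1.1 h)
  · have := (sp_dv h2 k2 2 Nat.prime_two).1
    rw [e2, Bool.xor_self] at this
    unfold dv at this
    rw [decide_eq_false_iff_not] at this
    exact_mod_cast this

theorem V0N : St_V0N := by
  classical
  intro s E hs hodd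
  set m := ∏ j, s j with hm
  set F : Finset (ℕ × ℕ) := (m.divisors ×ˢ m.divisors).filter (fun d : ℕ × ℕ =>
    ∀ p ∈ m.primeFactors, LF s E p (dv p d.1) (dv p d.2) (sgn p d.1) (sgn p d.2)) with hF
  have hFcard : F.card = NL m (LF s E) := by
    unfold NL
    rw [hF]
  have hFmem : ∀ d d' : ℤ × ℤ, d ∈ V0 s E → d' ∈ V0 s E → ty d = ty d' →
      ((sp d.1 d'.1).natAbs, (sp d.2 d'.2).natAbs) ∈ F := by
    intro d d' hd hd' ho
    obtain ⟨t1, t2⟩ := ty_sp hd hd' ho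
    obtain ⟨g1, g2, g3, g4, g5, g6, g7⟩ := V0_mul hd hd'
    rw [hF, mem_filter, mem_product, Nat.mem_divisors, Nat.mem_divisors]
    simp only [sp2] at g1 g2 g3 g4 g5 g6 g7
    refine ⟨⟨⟨natAbs_dvd g1 g5, hs.ne_zero⟩, ⟨natAbs_dvd g2 ?_, hs.ne_zero⟩⟩, ?_⟩
    · intro q hq hqd
      have h1 := g6 q hq hqd
      rcases (hq.dvd_mul).1 h1 with h | h
      · have : q = 2 := (Nat.prime_dvd_prime_iff_eq hq Nat.prime_two).1 h
        subst this
        exact absurd (by exact_mod_cast hqd) t2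
      · exact h
    · intro p hp
      have e1 : (((sp d.1 d'.1).natAbs : ℕ) : ℤ) = sp d.1 d'.1 := by omega
      have e2 : (((sp d.2 d'.2).natAbs : ℕ) : ℤ) = sp d.2 d'.2 := by omega
      simp only [e1, e2]
      exact g7 p hp
  have : Nonempty (V0 s E) := ⟨⟨(1, 1), V0_one s E⟩⟩
  obtain ⟨rep, hrep⟩ : ∃ rep : Bool × Bool → V0 s E, ∀ d : V0 s E, ty (rep (ty d.1)).1 = ty d.1 :=
    ⟨Function.invFun (fun d : V0 s E => ty d.1), fun d =>
      Function.invFun_eq (f := fun d : V0 s E => ty d.1) ⟨d, rfl⟩⟩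
  obtain ⟨kk, hkk⟩ : ∃ kk : V0 s E → (Bool × Bool) × (ℕ × ℕ), ∀ d : V0 s E,
      kk d = (ty d.1, ((sp (rep (ty d.1)).1.1 d.1.1).natAbs,
        (sp (rep (ty d.1)).1.2 d.1.2).natAbs)) := ⟨_, fun d => rfl⟩
  have hmem : ∀ d : V0 s E, kk d ∈ (univ : Finset (Bool × Bool)) ×ˢ F := by
    intro d
    rw [hkk, mem_product]
    exact ⟨mem_univ _, hFmem _ _ (rep _).2 d.2 (hrep d)⟩
  have hinj : Function.Injective kk := by
    intro d e hde
    rw [hkk, hkk] at hde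
    have h1 : ty d.1 = ty e.1 := congrArg Prod.fst hde
    have h2 := congrArg (fun z => z.2.1) hde
    have h3 := congrArg (fun z => z.2.2) hde
    simp only at h2 h3
    rw [← h1] at h2 h3
    have hr := (rep (ty d.1)).2
    obtain ⟨a1, a2⟩ := ty_sp hr d.2 (hrep d)
    obtain ⟨b1, b2⟩ := ty_sp hr e.2 ((hrep d).trans h1)
    have p1 := sp_pos hr.1 hr.2.2.1 d.2.2.2.1
    have p2 := sp_pos hr.1 hr.2.2.1 e.2.2.2.1
    have c1 : sp (rep (ty d.1)).1.1 d.1.1 = sp (rep (ty d.1)).1.1 e.1.1 := by omega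
    have c2 : sp (rep (ty d.1)).1.2 d.1.2 = sp (rep (ty d.1)).1.2 e.1.2 := by omega
    apply Subtype.ext
    apply Prod.ext
    · exact sp_inj hr.1 d.2.1 e.2.1 c1
    · exact sp_inj hr.2.1 d.2.2.1 e.2.2.1 c2
  have hfin : Finite (V0 s E) := by
    exact Finite.of_injective
      (fun d : V0 s E => (⟨kk d, hmem d⟩ : {z // z ∈ (univ : Finset (Bool × Bool)) ×ˢ F}))
      (fun d e hde => hinj (congrArg Subtype.val hde))
  refine ⟨Set.toFinite _, ?_⟩
  have hcard : (V0 s E).ncard ≤ ((univ : Finset (Bool × Bool)) ×ˢ F).card := by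
    rw [← Nat.card_coe_set_eq]
    have := Fintype.ofFinite (V0 s E)
    rw [Nat.card_eq_fintype_card, ← card_univ]
    exact card_le_card_of_injOn kk (fun d _ => hmem d) hinj.injOn
  refine hcard.trans ?_
  rw [card_product, hFcard]
  simp

end Pool.Agent.Y667.RP
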